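import Pool.Agent.Y120.H.Core3

/-!
# The core lemma for quasi-unipotent monodromy
-/

set_option autoImplicit false

open Filter Topology Metric Set PowerSeries

namespace Pool.Agent.Y120.GH

section
variable {e : ℕ} (he : e ≠ 0) {τ τ' : ℝ}

lemma expand_mem (hτ : 0 < τ) {f : PowerSeries ℂ} (hf : f ∈ Cw (τ ^ e)) : expand e he f ∈ Cw τ := by
  intro r hr hrτ
  have h1 : r ^ e * τ ^ e < 1 := by
    rw [← mul_pow]
    exact pow_lt_one₀ (by positivity) hrτ he
  have h2 := hf (r ^ e) (by positivity) h1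
  have hinj : Function.Injective fun m : ℕ => e * m := fun a b hab => Nat.eq_of_mul_eq_mul_left (Nat.pos_of_ne_zero he) hab
  rw [← hinj.summable_iff]
  · refine h2.congr fun m => ?_
    simp only [Function.comp_apply, coeff_expand_mul]
    rw [pow_mul]
  · intro x hx
    rw [coeff_expand_of_not_dvd e he]
    · simp
    · intro hd
      obtain ⟨m, hm⟩ := hd
      exact hx ⟨m, hm.symm⟩

lemma ou_expand (f : PowerSeries ℂ) (z : ℂ) : ou (expand e he f) z = ou f (z ^ e) := by
  unfold ou inn
  have hinj : Function.Injective fun m : ℕ => e * m := fun a b hab => Nat.eq_of_mul_eq_mul_left (Nat.pos_of_ne_zero he) hab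
  rw [← hinj.tsum_eq]
  · refine tsum_congr fun m => ?_
    rw [coeff_expand_mul, pow_mul, one_div_pow]
  · intro x hx
    rw [Function.mem_support] at hx
    by_contra hno
    apply hx
    rw [coeff_expand_of_not_dvd e he]
    · simp
    · intro hd
      obtain ⟨m, hm⟩ := hd
      exact hno ⟨m, hm.symm⟩

lemma derivative_expand (f : PowerSeries ℂ) : PowerSeries.derivative ℂ (expand e he f) =
    (e : PowerSeries ℂ) * X ^ (e - 1) * expand e he (PowerSeries.derivative ℂ f) := by
  rw [expand_apply, derivative_subst (HasSubst.X_pow he), expand_apply, Derivation.leibniz_pow, derivative_X]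
  simp only [smul_eq_mul, nsmul_eq_mul, mul_one]
  ring

lemma expand_poly (P : Polynomial ℂ) : expand e he (P : PowerSeries ℂ) = ((Polynomial.expand ℂ e P : Polynomial ℂ) : PowerSeries ℂ) := by
  ext m
  rw [coeff_expand, Polynomial.coeff_coe, Polynomial.coeff_coe, Polynomial.coeff_expand (Nat.pos_of_ne_zero he)]

/-- linear independence of the pulled back functions -/
lemma li_expand {σ : Type} [Fintype σ] (y : σ → PowerSeries ℂ) (B : Set σ)
    (hLI : ∀ G : σ → Polynomial ℂ, (∀ i, i ∉ B → G i = 0) → ∑ i, (G i : PowerSeries ℂ) * y i = 0 → ∀ i, G i = 0)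
    (G : σ → Polynomial ℂ) (hG : ∀ i, i ∉ B → G i = 0)
    (h : ∑ i, (G i : PowerSeries ℂ) * expand e he (y i) = 0) : ∀ i, G i = 0 := by
  have hepos := Nat.pos_of_ne_zero he
  -- the components
  let K : ℕ → σ → Polynomial ℂ := fun r i => ∑ m ∈ Finset.range ((G i).natDegree + 1), Polynomial.C ((G i).coeff (e * m + r)) *
    Polynomial.X ^ m
  have hK : ∀ r i m, (K r i).coeff m = (G i).coeff (e * m + r) := by
    intro r i m
    show (∑ m ∈ Finset.range ((G i).natDegree + 1), Polynomial.C ((G i).coeff (e * m + r)) * Polynomial.X ^ m).coeff m = _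
    rw [Polynomial.finsetSum_coeff]
    rcases Nat.lt_or_ge m ((G i).natDegree + 1) with hm | hm
    · rw [Finset.sum_eq_single m]
      · rw [Polynomial.coeff_C_mul, Polynomial.coeff_X_pow_self, mul_one]
      · intro l _ hne
        rw [Polynomial.coeff_C_mul, Polynomial.coeff_X_pow, if_neg hne.symm, mul_zero]
      · intro h2
        exact absurd (Finset.mem_range.2 hm) h2
    · rw [Finset.sum_eq_zero]
      · rw [Polynomial.coeff_eq_zero_of_natDegree_lt]
        have : m ≤ e * m := Nat.le_mul_of_pos_left m hepos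
        omega
      · intro l hl
        rw [Finset.mem_range] at hl
        rw [Polynomial.coeff_C_mul, Polynomial.coeff_X_pow, if_neg (by omega), mul_zero]
  have key : ∀ r < e, ∑ i, (K r i : PowerSeries ℂ) * y i = 0 := by
    intro r hr
    ext m
    have h1 := congrArg (coeff (e * m + r)) h
    rw [map_sum, map_zero] at h1 ⊢
    refine Eq.trans ?_ h1
    refine Finset.sum_congr rfl fun i _ => ?_
    rw [PowerSeries.coeff_mul, PowerSeries.coeff_mul]
    have hinj : Set.InjOn (fun q : ℕ × ℕ => (e * q.1 + r, e * q.2)) (Finset.HasAntidiagonal.antidiagonal m : Finset (ℕ × ℕ)) := by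
      intro q _ q' _ hqq
      have h2 := congrArg Prod.fst hqq
      have h3 := congrArg Prod.snd hqq
      simp only at h2 h3
      exact Prod.ext (Nat.eq_of_mul_eq_mul_left hepos (by omega)) (Nat.eq_of_mul_eq_mul_left hepos h3)
    have hsub : ∑ q ∈ (Finset.HasAntidiagonal.antidiagonal m).image (fun q : ℕ × ℕ => (e * q.1 + r, e * q.2)),
        coeff q.1 (G i : PowerSeries ℂ) * coeff q.2 (expand e he (y i)) =
        ∑ q ∈ Finset.HasAntidiagonal.antidiagonal (e * m + r), coeff q.1 (G i : PowerSeries ℂ) * coeff q.2 (expand e he (y i)) := by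
      apply Finset.sum_subset
      · intro q hq
        obtain ⟨q', hq', rfl⟩ := Finset.mem_image.1 hq
        rw [Finset.HasAntidiagonal.mem_antidiagonal] at hq' ⊢
        simp only
        rw [← hq']
        ring
      · intro q hq hq'
        rw [Finset.HasAntidiagonal.mem_antidiagonal] at hq
        by_cases hd : e ∣ q.2
        · exfalso
          obtain ⟨b, hb⟩ := hd
          apply hq'
          have hbm : b ≤ m := by
            have h4 : e * b ≤ e * m + r := by omega
            by_contra hlt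
            push Not at hlt
            have h5 : e * (m + 1) ≤ e * b := Nat.mul_le_mul_left _ hlt
            rw [mul_add, mul_one] at h5
            omega
          rw [Finset.mem_image]
          refine ⟨(m - b, b), ?_, ?_⟩
          · rw [Finset.HasAntidiagonal.mem_antidiagonal]
            simp only
            omega
          · refine Prod.ext ?_ hb.symm
            simp only
            have h6 : e * m = e * (m - b) + e * b := by
              rw [← mul_add]
              congr 1
              omega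
            omega
        · rw [coeff_expand_of_not_dvd e he _ hd, mul_zero]
    rw [← hsub, Finset.sum_image hinj]
    refine Finset.sum_congr rfl fun q _ => ?_
    rw [Polynomial.coeff_coe, hK, Polynomial.coeff_coe, coeff_expand_mul]
  intro i
  have h2 : ∀ r < e, K r i = 0 := fun r hr => hLI (K r) (by
    intro j hj
    ext m
    rw [hK, hG j hj]
    simp) (key r hr) i
  ext m
  have h3 := hK (m % e) i (m / e)
  rw [h2 _ (Nat.mod_lt _ hepos), Nat.div_add_mod, Polynomial.coeff_zero] at h3
  rw [← h3, Polynomial.coeff_zero]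

include he in
theorem coreq (hτ : 0 < τ) (hτ' : 0 < τ') {p : ℂ} (hp : τ ^ e < ‖p‖) (hp' : ‖p‖ < τ' ^ e) (hpim : 0 < p.im)
    {σ : Type} [Fintype σ] [DecidableEq σ] (y : σ → PowerSeries ℂ) (hy : ∀ i, y i ∈ Cw (τ ^ e))
    (T : Polynomial ℂ) (hT : T ≠ 0) (A : σ → σ → Polynomial ℂ)
    (hode : ∀ i, (T : PowerSeries ℂ) * PowerSeries.derivative ℂ (y i) = ∑ j, (A i j : PowerSeries ℂ) * y j)
    (Φ : Matrix σ σ (Polynomial (PowerSeries ℂ))) (hΦc : ∀ i j k, (Φ i j).coeff k ∈ Cw τ) (M : ℕ)
    (hΦ : ∀ i j k, expand e he (T : PowerSeries ℂ) * ((X : PowerSeries ℂ) * PowerSeries.derivative ℂ ((Φ i j).coeff k) +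
        ((k : PowerSeries ℂ) + 1) * (Φ i j).coeff (k + 1) - (M : PowerSeries ℂ) * (Φ i j).coeff k) =
      (e : PowerSeries ℂ) * X ^ e * ∑ l, expand e he (A i l : PowerSeries ℂ) * (Φ l j).coeff k) (hdet : Φ.det ≠ 0) (B : Set σ)
    (hLI : ∀ G : σ → Polynomial ℂ, (∀ i, i ∉ B → G i = 0) → ∑ i, (G i : PowerSeries ℂ) * y i = 0 → ∀ i, G i = 0)
    (c : σ → ℂ → ℂ) (hc : ∀ i, AnalyticOnNhd ℂ (c i) (ball 0 (τ' ^ e))) (hcB : ∀ i, i ∉ B → c i = 0)
    (hrel : ∀ᶠ z in 𝓝 p, ∑ i, c i z * ou (y i) z = 0) : ∀ i, ∀ᶠ z in 𝓝 p, c i z = 0 := by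
  have hepos := Nat.pos_of_ne_zero he
  have hp0 : p ≠ 0 := by
    intro h
    rw [h] at hpim
    simp at hpim
  -- the root of p
  set s : ℂ := Complex.exp (Complex.log p / e) with hs
  have heC : (e : ℂ) ≠ 0 := by exact_mod_cast he
  have hse : s ^ e = p := by
    rw [hs, ← Complex.exp_nat_mul, mul_div_cancel₀ _ heC, Complex.exp_log hp0]
  have hsn : ‖s‖ ^ e = ‖p‖ := by rw [← norm_pow, hse]
  have hs1 : τ < ‖s‖ := lt_of_pow_lt_pow_left₀ e (norm_nonneg _) (by rw [hsn]; exact hp)
  have hs2 : ‖s‖ < τ' := lt_of_pow_lt_pow_left₀ e hτ'.le (by rw [hsn]; exact hp')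
  have harg0 : 0 < p.arg := by
    rcases (Complex.arg_nonneg_iff.2 hpim.le).eq_or_lt with h2 | h2
    · exfalso
      have h3 := Complex.arg_eq_zero_iff.1 h2.symm
      rw [h3.2] at hpim
      exact lt_irrefl _ hpim
    · exact h2
  have hargpi : p.arg < Real.pi := by
    refine lt_of_le_of_ne (Complex.arg_le_pi p) fun h2 => ?_
    have h3 := Complex.arg_eq_pi_iff.1 h2
    rw [h3.2] at hpim
    exact lt_irrefl _ hpim
  have heR : (1 : ℝ) ≤ e := by exact_mod_cast hepos
  have hsim : 0 < s.im := by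
    rw [hs, Complex.exp_im]
    have h1 : (Complex.log p / e).im = p.arg / e := by
      rw [Complex.div_natCast_im, Complex.log_im]
    rw [h1]
    refine mul_pos (Real.exp_pos _) (Real.sin_pos_of_pos_of_lt_pi (by positivity) ?_)
    exact lt_of_le_of_lt (div_le_self harg0.le heR) hargpi
  -- the pulled back data
  let y' : σ → Cw τ := fun i => ⟨expand e he (y i), expand_mem he hτ (hy i)⟩
  let T' : Polynomial ℂ := Polynomial.expand ℂ e T
  let A' : σ → σ → Polynomial ℂ := fun i j => (e : Polynomial ℂ) * Polynomial.X ^ (e - 1) * Polynomial.expand ℂ e (A i j)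
  let Φ' : Matrix σ σ (Polynomial (Cw τ)) := fun i j => (Φ i j).toSubring (Cw τ) (by
    intro a ha
    obtain ⟨k, _, rfl⟩ := Polynomial.mem_coeffs_iff.1 ha
    exact hΦc i j k)
  have hΦ'c : ∀ i j k, ((Φ' i j).coeff k).1 = (Φ i j).coeff k := fun i j k => Polynomial.coeff_toSubring _ _ _
  have hA' : ∀ i j, ((A' i j : Polynomial ℂ) : PowerSeries ℂ) = (e : PowerSeries ℂ) * X ^ (e - 1) * expand e he (A i j : PowerSeries ℂ) := by
    intro i j
    rw [expand_poly]
    show (((e : Polynomial ℂ) * Polynomial.X ^ (e - 1) * Polynomial.expand ℂ e (A i j) : Polynomial ℂ) : PowerSeries ℂ) = _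
    rw [Polynomial.coe_mul, Polynomial.coe_mul, Polynomial.coe_pow, Polynomial.coe_X]
    have h : ((e : Polynomial ℂ) : PowerSeries ℂ) = (e : PowerSeries ℂ) := map_natCast (Polynomial.coeToPowerSeries.ringHom (R := ℂ)) e
    rw [h]
  have hc' : ∀ i, (fun z : ℂ => c i (z ^ e)) ∈ An (ball (0 : ℂ) τ') := by
    intro i z hz
    have h1 : z ^ e ∈ ball (0 : ℂ) (τ' ^ e) := by
      rw [mem_ball_zero_iff] at hz ⊢
      rw [norm_pow]
      exact pow_lt_pow_left₀ hz (norm_nonneg _) he
    exact AnalyticAt.comp (g := c i) (f := fun z : ℂ => z ^ e) (hc i _ h1) (analyticAt_id.pow e)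
  have hev : Tendsto (fun z : ℂ => z ^ e) (𝓝 s) (𝓝 p) := by
    have := (continuous_pow (M := ℂ) e).tendsto s
    rwa [hse] at this
  have hcore := core (ρ := τ) (ρ' := τ') hτ hs1 hs2 hsim y' T' (by
      intro h
      exact hT ((Polynomial.expand_eq_zero hepos).1 h)) A' (by
      intro i
      apply Subtype.ext
      have h1 := congrArg (expand e he) (hode i)
      rw [map_mul, map_sum] at h1
      simp only [map_mul] at h1
      have h2 : (∑ j, pC τ (A' i j) * y' j : Cw τ).1 = ∑ j, ((A' i j : Polynomial ℂ) : PowerSeries ℂ) * expand e he (y j) := by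
        rw [AddSubmonoidClass.coe_finsetSum]
        rfl
      rw [h2]
      show ((T' : Polynomial ℂ) : PowerSeries ℂ) * PowerSeries.derivative ℂ (expand e he (y i)) = _
      rw [derivative_expand, ← expand_poly he T]
      have h3 : expand e he (T : PowerSeries ℂ) * ((e : PowerSeries ℂ) * X ^ (e - 1) * expand e he (PowerSeries.derivative ℂ (y i))) =
        ((e : PowerSeries ℂ) * X ^ (e - 1)) * (expand e he (T : PowerSeries ℂ) * expand e he (PowerSeries.derivative ℂ (y i))) := by ring
      rw [h3, h1, Finset.mul_sum]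
      refine Finset.sum_congr rfl fun j _ => ?_
      rw [hA']
      ring) Φ' M (by
      intro i j k
      apply Subtype.ext
      have h2 : (Xc τ * ∑ l, pC τ (A' i l) * (Φ' l j).coeff k : Cw τ).1 =
          X * ∑ l, ((A' i l : Polynomial ℂ) : PowerSeries ℂ) * (Φ l j).coeff k := by
        have h3 : (Xc τ * ∑ l, pC τ (A' i l) * (Φ' l j).coeff k : Cw τ).1 =
          X * (∑ l, pC τ (A' i l) * (Φ' l j).coeff k : Cw τ).1 := rfl
        rw [h3, AddSubmonoidClass.coe_finsetSum]
        congr 1
        refine Finset.sum_congr rfl fun l _ => ?_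
        rw [← hΦ'c l j k]
        rfl
      rw [h2]
      have h4 := hΦ i j k
      have h5 : (pC τ T' * (Xc τ * dCw hτ ((Φ' i j).coeff k) + (k + 1) * (Φ' i j).coeff (k + 1) - M * (Φ' i j).coeff k) : Cw τ).1 =
          expand e he (T : PowerSeries ℂ) * ((X : PowerSeries ℂ) * PowerSeries.derivative ℂ ((Φ i j).coeff k) +
        ((k : PowerSeries ℂ) + 1) * (Φ i j).coeff (k + 1) - (M : PowerSeries ℂ) * (Φ i j).coeff k) := by
        rw [expand_poly he T, ← hΦ'c i j k, ← hΦ'c i j (k + 1)]
        rfl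
      rw [h5, h4, Finset.mul_sum, Finset.mul_sum]
      refine Finset.sum_congr rfl fun l _ => ?_
      rw [hA']
      have h6 : (X : PowerSeries ℂ) ^ e = X * X ^ (e - 1) := by
        rw [← pow_succ']
        congr 1
        omega
      rw [h6]
      ring) (by
      intro h
      apply hdet
      have h1 : Φ = (Polynomial.mapRingHom (Cw τ).subtype).mapMatrix Φ' := by
        ext i j k
        rw [RingHom.mapMatrix_apply, Matrix.map_apply, Polynomial.coe_mapRingHom, Polynomial.coeff_map, ← hΦ'c]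
        rfl
      rw [h1, ← RingHom.map_det, h, map_zero]) B (by
      intro G hG hsum i
      refine li_expand he y B hLI G hG ?_ i
      have h1 := congrArg Subtype.val hsum
      rw [AddSubmonoidClass.coe_finsetSum] at h1
      exact h1) (fun i => ⟨fun z : ℂ => c i (z ^ e), hc' i⟩) (by
      intro i hi
      apply Subtype.ext
      funext z
      show c i (z ^ e) = 0
      rw [hcB i hi]
      rfl) (by
      have h1 : ∀ i, E1 (p := s) hs2 ⟨fun z : ℂ => c i (z ^ e), hc' i⟩ * ouH hτ hs1 (y' i) =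
          em s (⟨fun z : ℂ => c i (z ^ e), mem_p hs2 ⟨fun z : ℂ => c i (z ^ e), hc' i⟩⟩ * ouA hτ hs1 (y' i)) := by
        intro i
        rw [map_mul]
        rfl
      simp only [h1]
      rw [← map_sum, em_zero_iff]
      filter_upwards [hev.eventually hrel] with z hz
      have h2 : (∑ i, ⟨fun z : ℂ => c i (z ^ e), mem_p hs2 ⟨fun z : ℂ => c i (z ^ e), hc' i⟩⟩ * ouA hτ hs1 (y' i) : An {s}).1 =
          ∑ i, (fun z : ℂ => c i (z ^ e)) * ou (expand e he (y i)) := by
        rw [AddSubmonoidClass.coe_finsetSum]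
        rfl
      rw [h2, Finset.sum_apply]
      refine Eq.trans ?_ hz
      refine Finset.sum_congr rfl fun i _ => ?_
      rw [Pi.mul_apply, ou_expand])
  intro i
  have h1 := hcore i
  rw [E1_apply hs2 _ (mem_p hs2 _), em_zero_iff] at h1
  -- transport back
  have h2 : (fun z : ℂ => c i (z ^ e)) =ᶠ[𝓝 s] 0 := h1
  have hsb : s ∈ ball (0 : ℂ) τ' := mem_ball_zero_iff.2 hs2
  have h3 := AnalyticOnNhd.eqOn_zero_of_preconnected_of_eventuallyEq_zero (hc' i) (convex_ball _ _).isPreconnected hsb h2
  have hpb : ball (0 : ℂ) (τ' ^ e) ∈ 𝓝 p := isOpen_ball.mem_nhds (mem_ball_zero_iff.2 hp')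
  filter_upwards [hpb] with z hz
  obtain ⟨w, hw⟩ : ∃ w : ℂ, w ^ e = z := by
    obtain ⟨w, hw⟩ := IsAlgClosed.exists_pow_nat_eq z hepos
    exact ⟨w, hw⟩
  have hwb : w ∈ ball (0 : ℂ) τ' := by
    rw [mem_ball_zero_iff] at hz ⊢
    rw [← hw, norm_pow] at hz
    exact lt_of_pow_lt_pow_left₀ e hτ'.le hz
  have h4 := h3 hwb
  simp only [Pi.zero_apply] at h4
  rw [← hw]
  exact h4

end

end Pool.Agent.Y120.GH
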