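import Pool.Agent.Y120.H.Shift
import Pool.Agent.Y120.H.Pull
import Pool.Agent.Y120.G.Val

/-!
# Complexification of the rational power series
-/

set_option autoImplicit false

open Filter Topology PowerSeries Pool.Agent.Y113 Pool.Agent.Y120.GF

namespace Pool.Agent.Y120.GH

/-- complexification -/
noncomputable def cx : ℚ⟦X⟧ →+* PowerSeries ℂ := PowerSeries.map (algebraMap ℚ ℂ)

lemma coeff_cx (f : ℚ⟦X⟧) (m : ℕ) : coeff m (cx f) = ((coeff m f : ℚ) : ℂ) := by
  rw [cx, coeff_map]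
  rfl

lemma norm_coeff_cx (f : ℚ⟦X⟧) (m : ℕ) : ‖coeff m (cx f)‖ = |((coeff m f : ℚ) : ℝ)| := by
  rw [coeff_cx]
  have : ((coeff m f : ℚ) : ℂ) = (((coeff m f : ℚ) : ℝ) : ℂ) := by push_cast; rfl
  rw [this, Complex.norm_real, Real.norm_eq_abs]

lemma cx_poly (P : Polynomial ℚ) : cx (P : ℚ⟦X⟧) = ((P.map (algebraMap ℚ ℂ) : Polynomial ℂ) : PowerSeries ℂ) := by
  ext m
  rw [coeff_cx, Polynomial.coeff_coe, Polynomial.coeff_coe, Polynomial.coeff_map]
  rfl

lemma cx_der (f : ℚ⟦X⟧) : cx (d⁄dX ℚ f) = PowerSeries.derivative ℂ (cx f) := by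
  ext m
  rw [coeff_cx, coeff_derivative, coeff_derivative, coeff_cx]
  push_cast
  rfl

lemma cx_C (c : ℚ) : cx (PowerSeries.C c) = PowerSeries.C (c : ℂ) := by
  rw [cx, map_C]
  rfl

lemma cx_mem {C : ℝ} (hC : 0 ≤ C) {f : ℚ⟦X⟧} (h : ∀ m, |((coeff m f : ℚ) : ℝ)| ≤ C ^ (m + 1)) : cx f ∈ Cw C := by
  intro r hr hrC
  have h1 : r * C < 1 := hrC
  refine Summable.of_nonneg_of_le (fun m => by positivity) (fun m => ?_)
    ((summable_geometric_of_lt_one (mul_nonneg hr hC) h1).mul_left C)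
  rw [norm_coeff_cx]
  calc |((coeff m f : ℚ) : ℝ)| * r ^ m ≤ C ^ (m + 1) * r ^ m := mul_le_mul_of_nonneg_right (h m) (by positivity)
    _ = C * (r * C) ^ m := by rw [mul_pow]; ring

lemma cx_mem_of_Cv {ρ : ℝ} {f : ℚ⟦X⟧} (h : ∀ t : ℝ, ρ < t → Cv t f) : cx f ∈ Cw ρ := by
  intro r hr hrρ
  rcases hr.eq_or_lt with h0 | h0
  · refine summable_of_ne_finset_zero (s := {0}) fun m hm => ?_
    rw [Finset.mem_singleton] at hm
    rw [← h0, zero_pow hm, mul_zero]
  · have h1 := h (1 / r) (by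
      rw [lt_div_iff₀ h0, mul_comm]
      exact hrρ)
    unfold Cv at h1
    refine h1.congr fun m => ?_
    rw [norm_coeff_cx, one_div_one_div]

section
variable {ρ : ℝ}

lemma ou_pow (hρ : 0 ≤ ρ) {f : PowerSeries ℂ} (hf : f ∈ Cw ρ) {z : ℂ} (hz : ρ < ‖z‖) (d : ℕ) :
    ou (f ^ d) z = ou f z ^ d := by
  induction d with
  | zero => rw [pow_zero, pow_zero, ou_one]
  | succ d ih => rw [pow_succ, pow_succ, ou_mul hρ ((Cw ρ).pow_mem hf d) hf hz, ih]

lemma ou_sum (hρ : 0 ≤ ρ) {σ : Type*} (s : Finset σ) {f : σ → PowerSeries ℂ} (hf : ∀ i ∈ s, f i ∈ Cw ρ) {z : ℂ}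
    (hz : ρ < ‖z‖) : ou (∑ i ∈ s, f i) z = ∑ i ∈ s, ou (f i) z := by
  classical
  induction s using Finset.induction_on with
  | empty => simp [ou_zero]
  | insert a s ha ih =>
    rw [Finset.sum_insert ha, Finset.sum_insert ha, ou_add hρ (hf a (Finset.mem_insert_self _ _))
      ((Cw ρ).sum_mem fun i hi => hf i (Finset.mem_insert_of_mem hi)) hz, ih fun i hi => hf i (Finset.mem_insert_of_mem hi)]

lemma ou_prod (hρ : 0 ≤ ρ) {σ : Type*} (s : Finset σ) {f : σ → PowerSeries ℂ} (hf : ∀ i ∈ s, f i ∈ Cw ρ) {z : ℂ}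
    (hz : ρ < ‖z‖) : ou (∏ i ∈ s, f i) z = ∏ i ∈ s, ou (f i) z := by
  classical
  induction s using Finset.induction_on with
  | empty => simp [ou_one]
  | insert a s ha ih =>
    rw [Finset.prod_insert ha, Finset.prod_insert ha, ou_mul hρ (hf a (Finset.mem_insert_self _ _))
      ((Cw ρ).prod_mem fun i hi => hf i (Finset.mem_insert_of_mem hi)) hz, ih fun i hi => hf i (Finset.mem_insert_of_mem hi)]

lemma ou_poly (P : Polynomial ℂ) (z : ℂ) : ou (P : PowerSeries ℂ) z = P.eval (1 / z) := by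
  unfold ou inn
  rw [tsum_eq_sum (s := Finset.range (P.natDegree + 1))]
  · rw [Polynomial.eval_eq_sum_range]
    refine Finset.sum_congr rfl fun m _ => ?_
    rw [Polynomial.coeff_coe]
  · intro m hm
    rw [Finset.mem_range, not_lt] at hm
    rw [Polynomial.coeff_coe, Polynomial.coeff_eq_zero_of_natDegree_lt (by omega), zero_mul]

end

lemma ou_ev (f : ℚ⟦X⟧) (t : ℝ) : ou (cx f) (t : ℂ) = ((ev t f : ℝ) : ℂ) := by
  unfold ou inn ev
  rw [Complex.ofReal_tsum]
  refine tsum_congr fun m => ?_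
  rw [coeff_cx]
  push_cast
  rfl

lemma cx_sh_mem (g : ℕ) : cx (sh g) ∈ Cw (g : ℝ) := cx_mem_of_Cv fun _ ht => sh_cv ht

lemma ou_sh (g : ℕ) {t : ℂ} (ht : (g : ℝ) < ‖t‖) : ou (cx (sh g)) t = 1 / (t - g) := by
  have hg0 : (0 : ℝ) ≤ g := by positivity
  have ht0 : t ≠ 0 := by
    rintro rfl
    rw [norm_zero] at ht
    linarith
  have h1 := congrArg (fun f => ou (cx f) t) (Pool.Agent.Y120.GF.sh_eq g)
  have hP : cx (1 - (g : ℚ⟦X⟧) * X) = ((1 - Polynomial.C (g : ℂ) * Polynomial.X : Polynomial ℂ) : PowerSeries ℂ) := by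
    rw [Polynomial.coe_sub, Polynomial.coe_one, Polynomial.coe_mul, Polynomial.coe_C, Polynomial.coe_X]
    rw [map_sub, map_mul, map_one, map_natCast]
    have : cx (X : ℚ⟦X⟧) = X := by rw [cx, map_X]
    rw [this]
    simp
  have hX : cx (X : ℚ⟦X⟧) = X := by rw [cx, map_X]
  simp only [map_mul] at h1
  rw [ou_mul hg0 (by rw [hP]; exact poly_mem _) (cx_sh_mem g) ht, hP, ou_poly, hX, ou_X] at h1
  simp only [Polynomial.eval_sub, Polynomial.eval_one, Polynomial.eval_mul, Polynomial.eval_C, Polynomial.eval_X] at h1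
  have h2 : t - g ≠ 0 := by
    intro h
    have h3 : t = (g : ℂ) := sub_eq_zero.1 h
    rw [h3] at ht
    simp at ht
  field_simp at h1 ⊢
  linear_combination h1

/-- the shift of the function outside the disc -/
theorem ou_shift {f : ℚ⟦X⟧} {C : ℝ} (hC : 0 ≤ C) (hf : ∀ m, |((coeff m f : ℚ) : ℝ)| ≤ C ^ (m + 1)) (g : ℕ) {t : ℂ}
    (ht : (g : ℝ) + C < ‖t‖) : ou (cx (sf g f)) t = ou (cx f) (t - g) := by
  have hg0 : (0 : ℝ) ≤ g := by positivity
  have ht0 : 0 < ‖t‖ := by linarith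
  have htg : (g : ℝ) < ‖t‖ := by linarith
  set σ : ℝ := 1 / (‖t‖ - g) with hσ
  have hσ0 : 0 < σ := by
    rw [hσ]
    have : 0 < ‖t‖ - g := by linarith
    positivity
  have hσ1 : C * σ < 1 := by
    rw [hσ, mul_one_div, div_lt_one (by linarith)]
    linarith
  obtain ⟨a, ha⟩ : ∃ a : ℕ → ℕ → ℂ, ∀ d m, a d m =
    ((coeff d f : ℚ) : ℂ) * (((coeff m (sh g ^ d) : ℚ) : ℂ) * (1 / t) ^ m) := ⟨_, fun _ _ => rfl⟩
  have hcv : ∀ d, Cv ‖t‖ (sh g ^ d) := fun d => (sh_cv htg).pow ht0 d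
  have hev : ∀ d, ∑' m, (((coeff m (sh g ^ d) : ℚ) : ℝ) * (1 / ‖t‖) ^ m) = σ ^ d := by
    intro d
    have := (sh_cv htg).ev_pow ht0 d
    rw [ev_sh htg] at this
    exact this
  have hevC : ∀ d, ∑' m, (((coeff m (sh g ^ d) : ℚ) : ℂ) * (1 / t) ^ m) = (1 / (t - g)) ^ d := by
    intro d
    have h1 := ou_pow hg0 (cx_sh_mem g) htg d
    rw [ou_sh g htg, ← map_pow] at h1
    rw [← h1]
    unfold ou inn
    refine tsum_congr fun m => ?_
    rw [coeff_cx]
  have hb0 : ∀ d m, 0 ≤ ((coeff m (sh g ^ d) : ℚ) : ℝ) * (1 / ‖t‖) ^ m := by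
    intro d m
    have : (0 : ℝ) ≤ ((coeff m (sh g ^ d) : ℚ) : ℝ) := by exact_mod_cast sh_pow_nonneg d m
    positivity
  have hsumn : Summable (fun p => ‖Function.uncurry a p‖) := by
    have h0 : 0 ≤ fun p : ℕ × ℕ => ‖Function.uncurry a p‖ := fun p => norm_nonneg _
    rw [summable_prod_of_nonneg h0]
    have h1 : ∀ d m, ‖Function.uncurry a (d, m)‖ =
        |((coeff d f : ℚ) : ℝ)| * (((coeff m (sh g ^ d) : ℚ) : ℝ) * (1 / ‖t‖) ^ m) := by
      intro d m
      rw [Function.uncurry_apply_pair, ha, norm_mul, norm_mul, norm_pow, norm_div, norm_one]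
      have e1 : ∀ c : ℚ, ‖(c : ℂ)‖ = |(c : ℝ)| := by
        intro c
        have : (c : ℂ) = ((c : ℝ) : ℂ) := by push_cast; rfl
        rw [this, Complex.norm_real, Real.norm_eq_abs]
      rw [e1, e1, abs_of_nonneg (a := ((coeff m (sh g ^ d) : ℚ) : ℝ)) (by exact_mod_cast sh_pow_nonneg d m)]
    constructor
    · intro d
      simp only [h1]
      exact ((hcv d).summable ht0).mul_left _
    · simp only [h1, tsum_mul_left, hev]
      refine Summable.of_nonneg_of_le (fun d => by positivity) (fun d => ?_)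
        ((summable_geometric_of_lt_one (by positivity) hσ1).mul_left C)
      calc |((coeff d f : ℚ) : ℝ)| * σ ^ d ≤ C ^ (d + 1) * σ ^ d := mul_le_mul_of_nonneg_right (hf d) (by positivity)
        _ = C * (C * σ) ^ d := by rw [mul_pow]; ring
  have hsum : Summable (Function.uncurry a) := Summable.of_norm hsumn
  have hcomm := hsum.tsum_comm
  have hL : ∑' (d : ℕ) (m : ℕ), a d m = ou (cx f) (t - g) := by
    unfold ou inn
    refine tsum_congr fun d => ?_
    rw [tsum_congr (ha d), tsum_mul_left, hevC, coeff_cx]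
  rw [← hL, ← hcomm]
  have hX : X ∣ sh g := by
    rw [X_dvd_iff, ← coeff_zero_eq_constantCoeff_apply, sh, coeff_mk]
    simp
  have hz : ∀ d m, m < d → coeff m (sh g ^ d) = 0 := by
    intro d m hmd
    have h1 : X ^ d ∣ sh g ^ d := pow_dvd_pow_of_dvd hX d
    exact X_pow_dvd_iff.1 h1 m hmd
  unfold ou inn
  refine tsum_congr fun m => ?_
  rw [coeff_cx, sf, coeff_subst' (sh_sub g), finsum_eq_sum_of_support_subset (s := Finset.range (m + 1))]
  · rw [tsum_eq_sum (s := Finset.range (m + 1))]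
    · rw [Rat.cast_sum, Finset.sum_mul]
      refine Finset.sum_congr rfl fun d _ => ?_
      rw [ha, smul_eq_mul]
      push_cast
      ring
    · intro d hd
      rw [ha, hz d m (by simpa using hd)]
      simp
  · intro d hd
    simp only [Function.mem_support, smul_eq_mul, ne_eq, mul_eq_zero, not_or] at hd
    simp only [Finset.coe_range, Set.mem_Iio]
    by_contra hlt
    exact hd.2 (hz d m (by omega))

lemma cx_sf_cv {f : ℚ⟦X⟧} {C : ℝ} (hC : 0 ≤ C) (hf : ∀ m, |((coeff m f : ℚ) : ℝ)| ≤ C ^ (m + 1)) (g : ℕ) {t : ℝ}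
    (ht : (g : ℝ) + C < t) : Cv t (sf g f) := by
  have hg0 : (0 : ℝ) ≤ g := by positivity
  have ht0 : 0 < t := by linarith
  have htg : (g : ℝ) < t := by linarith
  set σ : ℝ := 1 / (t - g) with hσ
  have hσ0 : 0 < σ := by
    rw [hσ]
    have : 0 < t - g := by linarith
    positivity
  have hσ1 : C * σ < 1 := by
    rw [hσ, mul_one_div, div_lt_one (by linarith)]
    linarith
  obtain ⟨a, ha⟩ : ∃ a : ℕ → ℕ → ℝ, ∀ d m, a d m =
    ((coeff d f : ℚ) : ℝ) * (((coeff m (sh g ^ d) : ℚ) : ℝ) * (1 / t) ^ m) := ⟨_, fun _ _ => rfl⟩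
  have hcv : ∀ d, Cv t (sh g ^ d) := fun d => (sh_cv htg).pow ht0 d
  have hev : ∀ d, ∑' m, (((coeff m (sh g ^ d) : ℚ) : ℝ) * (1 / t) ^ m) = σ ^ d := by
    intro d
    have := (sh_cv htg).ev_pow ht0 d
    rw [ev_sh htg] at this
    exact this
  have hb0 : ∀ d m, 0 ≤ ((coeff m (sh g ^ d) : ℚ) : ℝ) * (1 / t) ^ m := by
    intro d m
    have : (0 : ℝ) ≤ ((coeff m (sh g ^ d) : ℚ) : ℝ) := by exact_mod_cast sh_pow_nonneg d m
    positivity
  have hsumn : Summable (fun p => ‖Function.uncurry a p‖) := by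
    have h0 : 0 ≤ fun p : ℕ × ℕ => ‖Function.uncurry a p‖ := fun p => norm_nonneg _
    rw [summable_prod_of_nonneg h0]
    have h1 : ∀ d m, ‖Function.uncurry a (d, m)‖ =
        |((coeff d f : ℚ) : ℝ)| * (((coeff m (sh g ^ d) : ℚ) : ℝ) * (1 / t) ^ m) := by
      intro d m
      rw [Function.uncurry_apply_pair, ha, norm_mul, Real.norm_eq_abs, Real.norm_of_nonneg (hb0 d m)]
    constructor
    · intro d
      simp only [h1]
      exact ((hcv d).summable ht0).mul_left _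
    · simp only [h1, tsum_mul_left, hev]
      refine Summable.of_nonneg_of_le (fun d => by positivity) (fun d => ?_)
        ((summable_geometric_of_lt_one (by positivity) hσ1).mul_left C)
      calc |((coeff d f : ℚ) : ℝ)| * σ ^ d ≤ C ^ (d + 1) * σ ^ d := mul_le_mul_of_nonneg_right (hf d) (by positivity)
        _ = C * (C * σ) ^ d := by rw [mul_pow]; ring
  have hX : X ∣ sh g := by
    rw [X_dvd_iff, ← coeff_zero_eq_constantCoeff_apply, sh, coeff_mk]
    simp
  have hz : ∀ d m, m < d → coeff m (sh g ^ d) = 0 := by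
    intro d m hmd
    have h1 : X ^ d ∣ sh g ^ d := pow_dvd_pow_of_dvd hX d
    exact X_pow_dvd_iff.1 h1 m hmd
  have hR : ∀ m, ((coeff m (sf g f) : ℚ) : ℝ) * (1 / t) ^ m = ∑' d, a d m := by
    intro m
    rw [sf, coeff_subst' (sh_sub g), finsum_eq_sum_of_support_subset (s := Finset.range (m + 1))]
    · rw [tsum_eq_sum (s := Finset.range (m + 1))]
      · rw [Rat.cast_sum, Finset.sum_mul]
        refine Finset.sum_congr rfl fun d _ => ?_
        rw [ha, smul_eq_mul]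
        push_cast
        ring
      · intro d hd
        rw [ha, hz d m (by simpa using hd)]
        simp
    · intro d hd
      simp only [Function.mem_support, smul_eq_mul, ne_eq, mul_eq_zero, not_or] at hd
      simp only [Finset.coe_range, Set.mem_Iio]
      by_contra hlt
      exact hd.2 (hz d m (by omega))
  have h1 := hsumn.prod_symm
  have h2 : Summable fun m => ∑' d, ‖a d m‖ := h1.prod
  unfold Cv
  refine Summable.of_nonneg_of_le (fun m => by positivity) (fun m => ?_) h2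
  have h3 : |((coeff m (sf g f) : ℚ) : ℝ)| * (1 / t) ^ m = ‖((coeff m (sf g f) : ℚ) : ℝ) * (1 / t) ^ m‖ := by
    rw [norm_mul, Real.norm_eq_abs, Real.norm_of_nonneg (by positivity)]
  rw [h3, hR m]
  exact norm_tsum_le_tsum_norm (h1.prod_factor m)

lemma cx_lg_mem (g : ℕ) : cx (lg g) ∈ Cw (g : ℝ) := cx_mem_of_Cv fun _ ht => lg_cv ht

lemma ou_lg (g : ℕ) {t : ℂ} (ht : (g : ℝ) < ‖t‖) : ou (cx (lg g)) t = Complex.log (1 - g / t) := by
  have hg0 : (0 : ℝ) ≤ g := by positivity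
  have ht0 : 0 < ‖t‖ := by linarith
  have h1 : ‖(g : ℂ) / t‖ < 1 := by
    rw [norm_div, div_lt_one ht0]
    simpa using ht
  have h2 := (Complex.hasSum_taylorSeries_neg_log h1).neg
  rw [neg_neg] at h2
  rw [← h2.tsum_eq]
  unfold ou inn
  refine tsum_congr fun m => ?_
  rw [coeff_cx, lg, coeff_mk]
  push_cast
  rw [div_pow, div_pow, one_pow]
  ring

lemma cx_yQ_mem (g e : ℕ) : cx (yQ g e) ∈ Cw (g : ℝ) := by
  rw [yQ, map_mul, map_pow, cx_C]
  exact (Cw (g : ℝ)).mul_mem (C_mem _) ((Cw (g : ℝ)).pow_mem (cx_lg_mem g) e)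

lemma ou_yQ (g e : ℕ) {t : ℂ} (ht : (g : ℝ) < ‖t‖) :
    ou (cx (yQ g e)) t = 1 / (e.factorial : ℂ) * Complex.log (1 - g / t) ^ e := by
  have hg0 : (0 : ℝ) ≤ g := by positivity
  rw [yQ, map_mul, map_pow, cx_C, ou_mul hg0 (C_mem _) ((Cw (g : ℝ)).pow_mem (cx_lg_mem g) e) ht, ou_C,
    ou_pow hg0 (cx_lg_mem g) ht, ou_lg g ht]
  push_cast
  ring

/-- linear independence over the complex polynomials -/
theorem li_cx {κ : Type} [Fintype κ] {y : κ → ℚ⟦X⟧} (h : LinearIndependent (Polynomial ℚ) y) (G : κ → Polynomial ℂ)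
    (h0 : ∑ i, (G i : PowerSeries ℂ) * cx (y i) = 0) : ∀ i, G i = 0 := by
  by_contra hno
  push Not at hno
  obtain ⟨i₀, hi₀⟩ := hno
  obtain ⟨m₀, hm₀⟩ : ∃ m, (G i₀).coeff m ≠ 0 := by
    by_contra hall
    push Not at hall
    exact hi₀ (Polynomial.ext fun m => by rw [hall m, Polynomial.coeff_zero])
  obtain ⟨φ, hφ⟩ : ∃ φ : ℂ →ₗ[ℚ] ℚ, φ ((G i₀).coeff m₀) ≠ 0 := by
    by_contra hall
    push Not at hall
    exact hm₀ ((Module.forall_dual_apply_eq_zero_iff ℚ _).1 hall)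
  let K : κ → Polynomial ℚ := fun i => ∑ m ∈ Finset.range ((G i).natDegree + 1), Polynomial.C (φ ((G i).coeff m)) *
    Polynomial.X ^ m
  have hK : ∀ i m, (K i).coeff m = φ ((G i).coeff m) := by
    intro i m
    show (∑ m ∈ Finset.range ((G i).natDegree + 1), Polynomial.C (φ ((G i).coeff m)) * Polynomial.X ^ m).coeff m = _
    rw [Polynomial.finsetSum_coeff]
    rcases Nat.lt_or_ge m ((G i).natDegree + 1) with hm | hm
    · rw [Finset.sum_eq_single m]
      · rw [Polynomial.coeff_C_mul, Polynomial.coeff_X_pow_self, mul_one]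
      · intro l _ hne
        rw [Polynomial.coeff_C_mul, Polynomial.coeff_X_pow, if_neg hne.symm, mul_zero]
      · intro h2
        exact absurd (Finset.mem_range.2 hm) h2
    · rw [Finset.sum_eq_zero]
      · rw [Polynomial.coeff_eq_zero_of_natDegree_lt (by omega), map_zero]
      · intro l hl
        rw [Finset.mem_range] at hl
        rw [Polynomial.coeff_C_mul, Polynomial.coeff_X_pow, if_neg (by omega), mul_zero]
  have h1 : ∑ i, K i • y i = 0 := by
    ext m
    have h2 := congrArg (fun f => φ (coeff m f)) h0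
    simp only [map_sum, map_zero] at h2
    rw [map_sum, map_zero, ← h2]
    refine Finset.sum_congr rfl fun i _ => ?_
    rw [psmul, PowerSeries.coeff_mul, PowerSeries.coeff_mul, map_sum]
    refine Finset.sum_congr rfl fun q _ => ?_
    rw [Polynomial.coeff_coe, Polynomial.coeff_coe, hK, coeff_cx]
    have h3 : (G i).coeff q.1 * ((coeff q.2 (y i) : ℚ) : ℂ) = (coeff q.2 (y i)) • (G i).coeff q.1 := by
      rw [Rat.smul_def, mul_comm]
    rw [h3, map_smul, smul_eq_mul, mul_comm]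
  have h2 := Fintype.linearIndependent_iff.1 h K h1 i₀
  apply hφ
  rw [← hK, h2, Polynomial.coeff_zero]

end Pool.Agent.Y120.GH
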