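import Pool.Agent.Y120.H.Step
import Pool.Agent.Y120.H.Cx

/-!
# Linear independence of the products over several shifts
-/

set_option autoImplicit false

open Filter Topology Metric Set PowerSeries Pool.Agent.Y113 Pool.Agent.Y120.GF

namespace Pool.Agent.Y120.GH

section
variable {κ : Type} [Fintype κ]

/-- the functions at the shift `g` -/
noncomputable def Fg (n : ℕ) (y : κ → ℚ⟦X⟧) (g : ℕ) (b : κ × Fin n) : ℚ⟦X⟧ := sf g (y b.1) * yQ g (b.2 : ℕ)

theorem li_shift {ρ ρ' C : ℝ} {y : κ → ℚ⟦X⟧} (hρ : 0 < ρ) (hρρ : ρ < ρ') (hC : 0 ≤ C)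
    (hy : ∀ i, cx (y i) ∈ Cw ρ) (hD : Disc ρ ρ' fun i => cx (y i))
    (hsz : ∀ i m, |((coeff m (y i) : ℚ) : ℝ)| ≤ C ^ (m + 1))
    (hsz' : ∀ g : ℕ, ∃ C' : ℝ, 0 ≤ C' ∧ ∀ i m, |((coeff m (sf g (y i)) : ℚ) : ℝ)| ≤ C' ^ (m + 1))
    {R : ℝ} (hR : ρ + ρ' < R) (n k : ℕ) (g : Fin k → ℕ) (hg : ∀ l, R ≤ g l)
    (hsep : ∀ l l', l ≠ l' → R ≤ |(g l : ℝ) - g l'|) :
    LinearIndependent (Polynomial ℚ) (fun b : Fin k → κ × Fin n => ∏ l, Fg n y (g l) (b l)) := by
  classical
  rw [Fintype.linearIndependent_iff]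
  intro G hG
  choose C' hC'0 hC' using hsz'
  -- the large radius
  set ρ₁ : ℝ := ∑ l, (C' (g l) + g l + C) with hρ₁
  have hterm : ∀ l, 0 ≤ C' (g l) + (g l : ℝ) + C := fun l => by
    have := hC'0 (g l)
    positivity
  have hle : ∀ l, C' (g l) + (g l : ℝ) + C ≤ ρ₁ := fun l =>
    Finset.single_le_sum (f := fun l => C' (g l) + (g l : ℝ) + C) (fun l _ => hterm l) (Finset.mem_univ l)
  have hρ₁0 : 0 ≤ ρ₁ := Finset.sum_nonneg fun l _ => hterm l
  have hm1 : ∀ l i, cx (sf (g l) (y i)) ∈ Cw ρ₁ := fun l i =>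
    Cw_mono (by
      have h1 := hle l
      have : (0 : ℝ) ≤ g l := by positivity
      linarith) (cx_mem (hC'0 (g l)) (hC' (g l) i))
  have hm2 : ∀ l e, cx (yQ (g l) e) ∈ Cw ρ₁ := fun l e =>
    Cw_mono (by
      have h1 := hle l
      have := hC'0 (g l)
      linarith) (cx_yQ_mem (g l) e)
  -- the coefficient functions
  let Gc : (Fin k → κ × Fin n) → Polynomial ℂ := fun b => (G b).map (algebraMap ℚ ℂ)
  let a : (Fin k → κ × Fin n) → ℂ → ℂ := fun b t => (Gc b).eval (1 / t) * ∏ l, (1 / (((b l).2 : ℕ).factorial : ℂ))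
  have ha : ∀ b, AnalyticOnNhd ℂ (a b) {t | t ≠ 0} := by
    intro b t ht
    have h1 : AnalyticAt ℂ (fun t : ℂ => 1 / t) t := analyticAt_const.div analyticAt_id ht
    have h2 : AnalyticAt ℂ (fun z => (Gc b).eval z) (1 / t) := (Gc b).differentiable.analyticAt _
    exact (AnalyticAt.comp (g := fun z => (Gc b).eval z) (f := fun t : ℂ => 1 / t) h2 h1).mul analyticAt_const
  let W : ℂ → ℂ := fun t => ∑ b, a b t * ∏ l, (ou (cx (y (b l).1)) (t - (g l : ℝ)) *
    Complex.log (1 - (g l : ℝ) / t) ^ ((b l).2 : ℕ))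
  have hgpos : ∀ l, (0 : ℝ) < g l := fun l => by
    have := hg l
    linarith
  have hW : AnalyticOnNhd ℂ W (Up ρ) := by
    intro t ht
    have h1 : 0 < t.im := hρ.trans ht
    have ht0 : t ≠ 0 := by
      rintro rfl
      simp at h1
    show AnalyticAt ℂ (fun t => ∑ b, a b t * ∏ l, (ou (cx (y (b l).1)) (t - (g l : ℝ)) *
      Complex.log (1 - (g l : ℝ) / t) ^ ((b l).2 : ℕ))) t
    refine Finset.analyticAt_fun_sum _ fun b _ => ?_
    refine (ha b t ht0).mul (Finset.analyticAt_fun_prod _ fun l _ => ?_)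
    refine AnalyticAt.mul ?_ ((log_an_up hρ ht (hgpos _)).pow _)
    have h3 := ou_an hρ.le (hy (b l).1) (t - (g l : ℝ)) (Up_norm ht _)
    exact AnalyticAt.comp (g := ou (cx (y (b l).1))) (f := fun t : ℂ => t - (g l : ℝ)) h3
      (analyticAt_id.sub analyticAt_const)
  -- the relation far away
  have hfar : ∀ t : ℂ, ρ₁ < ‖t‖ → W t = 0 := by
    intro t ht
    have h1 : ∑ b, ((Gc b : Polynomial ℂ) : PowerSeries ℂ) * ∏ l, (cx (sf (g l) (y (b l).1)) * cx (yQ (g l) ((b l).2 : ℕ))) = 0 := by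
      have h2 := congrArg cx hG
      rw [map_sum, map_zero] at h2
      refine Eq.trans ?_ h2
      refine Finset.sum_congr rfl fun b _ => ?_
      rw [psmul, map_mul, map_prod, cx_poly]
      congr 1
      refine Finset.prod_congr rfl fun l _ => ?_
      rw [Fg, map_mul]
    have h2 := congrArg (fun f => ou f t) h1
    simp only [ou_zero] at h2
    have hm : ∀ b : Fin k → κ × Fin n, ∀ l ∈ Finset.univ,
        cx (sf (g l) (y (b l).1)) * cx (yQ (g l) ((b l).2 : ℕ)) ∈ Cw ρ₁ := fun b l _ => (Cw ρ₁).mul_mem (hm1 l _) (hm2 l _)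
    rw [ou_sum hρ₁0 _ (fun b _ => (Cw ρ₁).mul_mem (poly_mem _) ((Cw ρ₁).prod_mem (hm b))) ht] at h2
    refine Eq.trans ?_ h2
    refine Finset.sum_congr rfl fun b _ => ?_
    rw [ou_mul hρ₁0 (poly_mem _) ((Cw ρ₁).prod_mem (hm b)) ht, ou_prod hρ₁0 _ (hm b) ht, ou_poly]
    show (Gc b).eval (1 / t) * (∏ l, (1 / (((b l).2 : ℕ).factorial : ℂ))) * _ = _
    rw [mul_assoc, ← Finset.prod_mul_distrib]
    congr 1
    refine Finset.prod_congr rfl fun l _ => ?_
    have h3 : (g l : ℝ) < ‖t‖ ∧ (g l : ℝ) + C < ‖t‖ := by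
      have h4 := hle l
      have h5 := hC'0 (g l)
      constructor <;> linarith
    rw [ou_mul hρ₁0 (hm1 l _) (hm2 l _) ht, ou_shift hC (hsz _) (g l) h3.2, ou_yQ (g l) _ h3.1]
    push_cast
    ring
  have hWall : ∀ t ∈ Up ρ, W t = 0 := by
    intro t ht
    set p : ℂ := ((ρ + ρ₁ + 1 : ℝ) : ℂ) * Complex.I with hp
    have hpn : ‖p‖ = ρ + ρ₁ + 1 := by
      rw [hp, norm_mul, Complex.norm_I, mul_one, Complex.norm_real, Real.norm_of_nonneg (by linarith)]
    have hpU : p ∈ Up ρ := by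
      show ρ < p.im
      rw [hp]
      simp only [Complex.mul_im, Complex.ofReal_re, Complex.I_im, mul_one, Complex.ofReal_im, Complex.I_re, mul_zero,
        add_zero]
      linarith
    refine AnalyticOnNhd.eqOn_zero_of_preconnected_of_eventuallyEq_zero hW Up_conv.isPreconnected hpU ?_ ht
    have h1 : ∀ᶠ z in 𝓝 p, ρ₁ < ‖z‖ := (isOpen_lt continuous_const continuous_norm).mem_nhds (by
      show ρ₁ < ‖p‖
      rw [hpn]
      linarith)
    filter_upwards [h1] with z hz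
    exact hfar z hz
  have hind := ind_shift hρ hρρ hy hD hR n k (fun l => (g l : ℝ)) hg hsep a ha hWall
  intro b
  have h1 : ∀ t ∈ Up ρ, (Gc b).eval (1 / t) = 0 := by
    intro t ht
    have h2 := hind b t ht
    have h3 : (∏ l, (1 / (((b l).2 : ℕ).factorial : ℂ))) ≠ 0 := by
      rw [Finset.prod_ne_zero_iff]
      intro l _
      exact one_div_ne_zero (by exact_mod_cast Nat.factorial_ne_zero _)
    exact (mul_eq_zero.1 h2).resolve_right h3
  have h2 : Gc b = 0 := by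
    refine Polynomial.eq_zero_of_infinite_isRoot _ ?_
    refine Set.infinite_of_injective_forall_mem (f := fun m : ℕ => 1 / (((ρ + 1 + m : ℝ) : ℂ) * Complex.I)) ?_ ?_
    · intro m m' hmm
      simp only [one_div, inv_inj] at hmm
      have h3 := mul_right_cancel₀ Complex.I_ne_zero hmm
      have h4 : (ρ + 1 + m : ℝ) = ρ + 1 + m' := by exact_mod_cast h3
      have h5 : (m : ℝ) = m' := by linarith
      exact_mod_cast h5
    · intro m
      refine h1 _ ?_
      show ρ < _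
      simp only [Complex.mul_im, Complex.ofReal_re, Complex.I_im, mul_one, Complex.ofReal_im, Complex.I_re, mul_zero,
        add_zero]
      have : (0 : ℝ) ≤ m := by positivity
      linarith
  exact (Polynomial.map_eq_zero (algebraMap ℚ ℂ)).1 h2

end

end Pool.Agent.Y120.GH
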