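import Pool.Agent.Y120.H.Sub
import Pool.Agent.Y120.H.Cx
import Pool.Agent.Y120.H.Ind
import Pool.Agent.Y120.G.Mpl

/-!
# Few bad fibres for general families
-/

set_option autoImplicit false

open PowerSeries Pool.Agent.Y113 Pool.Agent.Y120.GF

namespace Pool.Agent.Y120.GH

/-- the denominators at the shift `g` -/
noncomputable def Tg (q : ℕ) (T : Polynomial ℤ) (g : ℕ) : Polynomial ℤ := (Pg g ^ 2 * Hm g q T) * TL g

theorem gsys_Fg {κ : Type} [Fintype κ] {q : ℕ} {C : ℝ} {T : Polynomial ℤ} {y : κ → ℚ⟦X⟧} (h : GSys q C T y) (n : ℕ) :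
    ∃ q₀ E : ℕ, ∀ g : ℕ, GSys q₀ (((g : ℝ) + 2) ^ E) (Tg q T g) (Fg (n + 1) y g) := by
  obtain ⟨E₁, h₁⟩ := gsys_shift h
  obtain ⟨E₂, h₂⟩ := gsys_Q n
  obtain ⟨E₃, h₃⟩ := t_enl (q + 2) 3
  obtain ⟨E₄, h₄⟩ := t_enl 3 (q + 2)
  obtain ⟨E₅, h₅⟩ := t_prod (q + 2 + 3)
  set E' := max E₁ E₂ with hE'
  set E'' := (E' + 1) * (max E₃ E₄) with hE''
  refine ⟨q + 2 + 3, (E'' + 1) * E₅, fun g => ?_⟩
  have hg1 := one_le_base g
  have a1 := (h₁ g).mono le_rfl (base_mono hg1 (le_max_left E₁ E₂))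
  have a2 := (h₂ g).mono le_rfl (base_mono hg1 (le_max_right E₁ E₂))
  have b1 := h₃ _ _ _ (TL g) _ a1 a2.degT a2.sizeT
  have b2 := h₄ _ _ _ (Pg g ^ 2 * Hm g q T) _ a2 a1.degT a1.sizeT
  have hE1 : (2 * ((g : ℝ) + 2) ^ E') ^ E₃ ≤ ((g : ℝ) + 2) ^ E'' := by
    refine (pow_base g _ _).trans (base_mono hg1 ?_)
    exact Nat.mul_le_mul_left _ (le_max_left _ _)
  have hE2 : (2 * ((g : ℝ) + 2) ^ E') ^ E₄ ≤ ((g : ℝ) + 2) ^ E'' := by
    refine (pow_base g _ _).trans (base_mono hg1 ?_)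
    exact Nat.mul_le_mul_left _ (le_max_right _ _)
  have c1 : GSys (q + 2 + 3) (((g : ℝ) + 2) ^ E'') (Tg q T g) (fun i => sf g (y i)) := b1.mono le_rfl hE1
  have c2 : GSys (q + 2 + 3) (((g : ℝ) + 2) ^ E'') (Tg q T g) (fun w : Fin (n + 1) => yQ g w) := by
    rw [Tg, mul_comm]
    exact b2.mono (by omega) hE2
  exact (h₅ _ _ _ _ _ _ c1 c2).mono le_rfl (pow_base g _ _)

lemma aeval_Pg (g : ℕ) (x : ℝ) : Polynomial.aeval x (Pg g) = 1 - g * x := by
  simp [Pg]

lemma aeval_Hm (g : ℕ) {q : ℕ} {T : Polynomial ℤ} (hq : T.natDegree ≤ q) {x : ℝ} (hx : 1 - g * x ≠ 0) :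
    Polynomial.aeval x (Hm g q T) = (1 - g * x) ^ q * Polynomial.aeval (x / (1 - g * x)) T := by
  have h1 : Polynomial.aeval (x / (1 - g * x)) T = ∑ l ∈ Finset.range (q + 1), (T.coeff l : ℝ) * (x / (1 - g * x)) ^ l := by
    rw [Polynomial.aeval_eq_sum_range' (Nat.lt_succ_of_le hq)]
    refine Finset.sum_congr rfl fun l _ => ?_
    rw [zsmul_eq_mul]
  rw [h1, Hm, map_sum, Finset.mul_sum]
  refine Finset.sum_congr rfl fun l hl => ?_
  rw [Finset.mem_range] at hl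
  rw [map_mul, map_mul, map_pow, map_pow, aeval_Pg, Polynomial.aeval_X, Polynomial.aeval_C]
  have h2 : (1 - (g : ℝ) * x) ^ q = (1 - g * x) ^ (q - l) * (1 - g * x) ^ l := by
    rw [← pow_add]
    congr 1
    omega
  rw [h2, div_pow]
  have h3 : (1 - (g : ℝ) * x) ^ l ≠ 0 := pow_ne_zero _ hx
  rw [eq_intCast]
  field_simp

/-- no roots near zero -/
lemma no_roots {T : Polynomial ℤ} (hT : T ≠ 0) : ∃ c : ℕ, ∀ u : ℝ, (c : ℝ) < u → Polynomial.aeval (1 / u) T ≠ 0 := by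
  classical
  set P : Polynomial ℝ := T.map (Int.castRingHom ℝ) with hP
  have hP0 : P ≠ 0 := (Polynomial.map_ne_zero_iff (Int.castRingHom ℝ).injective_int).2 hT
  obtain ⟨c, hc⟩ := exists_nat_ge (∑ s ∈ P.roots.toFinset, |1 / s|)
  refine ⟨c, fun u hu h => ?_⟩
  have hc0 : (0 : ℝ) ≤ c := by positivity
  have hu0 : 0 < u := by linarith
  have hroot : (1 / u) ∈ P.roots.toFinset := by
    rw [Multiset.mem_toFinset, Polynomial.mem_roots hP0, Polynomial.IsRoot.def, hP, Polynomial.eval_map]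
    rw [Polynomial.aeval_def] at h
    exact h
  have h1 := Finset.single_le_sum (f := fun s : ℝ => |1 / s|) (fun _ _ => abs_nonneg _) hroot
  rw [one_div_one_div, abs_of_pos hu0] at h1
  linarith

lemma Tg_ne {T : Polynomial ℤ} (hT : T ≠ 0) {q : ℕ} (hq : T.natDegree ≤ q) : ∃ c : ℕ, ∀ g t : ℕ, g + c < t →
    Polynomial.aeval (1 / (t : ℝ)) (Tg q T g) ≠ 0 := by
  obtain ⟨c, hc⟩ := no_roots hT
  refine ⟨c + 1, fun g t h => ?_⟩
  have htR : ((g : ℝ) + c + 1) < t := by exact_mod_cast (by omega : g + c + 1 < t)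
  have hg0 : (0 : ℝ) ≤ g := by positivity
  have hc0 : (0 : ℝ) ≤ c := by positivity
  have ht0 : (0 : ℝ) < t := by linarith
  have h1 : (1 : ℝ) - g * (1 / t) ≠ 0 := by
    have : (g : ℝ) * (1 / t) < 1 := by
      rw [mul_one_div, div_lt_one ht0]
      linarith
    linarith
  rw [Tg, map_mul, map_mul, map_pow, aeval_Pg, aeval_Hm g hq h1]
  refine mul_ne_zero (mul_ne_zero (pow_ne_zero _ h1) (mul_ne_zero (pow_ne_zero _ h1) ?_)) (TL_ne g t (by omega))
  have h2 : (1 : ℝ) / t / (1 - g * (1 / t)) = 1 / (t - g) := by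
    have h3 : (t : ℝ) - g ≠ 0 := by linarith
    have h4 : (1 : ℝ) - g * (1 / t) = (t - g) / t := by field_simp
    rw [h4]
    field_simp
  rw [h2]
  exact hc _ (by linarith)

/-- separated shifts -/
def SepR (R : ℕ) {k : ℕ} (g : Fin k → ℕ) : Prop := (∀ l, R ≤ g l) ∧ ∀ l l', l ≠ l' → g l + R ≤ g l' ∨ g l' + R ≤ g l

variable {σ : Type} [Fintype σ]

/-- the hypotheses on a family of shifts -/
structure FamR (R : ℕ) (F : ℕ → σ → ℚ⟦X⟧) (Tg : ℕ → Polynomial ℤ) (q₀ E₀ : ℕ) (b₀ : σ) : Prop where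
  pos : 1 ≤ R
  one : ∀ g, F g b₀ = 1
  sys : ∀ g : ℕ, GSys q₀ (((g : ℝ) + 2) ^ E₀) (Tg g) (F g)
  ne : ∀ g t : ℕ, g + R < t → Polynomial.aeval (1 / (t : ℝ)) (Tg g) ≠ 0
  li : ∀ (k : ℕ) (g : Fin k → ℕ), SepR R g → LinearIndependent (Polynomial ℚ) (fun b : Fin k → σ => ∏ l, F (g l) (b l))

variable {R : ℕ} {F : ℕ → σ → ℚ⟦X⟧} {Tg : ℕ → Polynomial ℤ} {q₀ E₀ : ℕ} {b₀ : σ}

theorem win_coreR (hF : FamR R F Tg q₀ E₀ b₀) (D : ℕ) : ∃ E : ℕ, ∀ (H t : ℕ), (H + 2) ^ E ≤ t →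
    ∀ g : Fin D → ℕ, SepR R g → (∀ l, g l ≤ H) → 0 < D → ∀ (V : Submodule ℚ ℂ) [Module.Finite ℚ V], Module.finrank ℚ V = D →
    (∀ l, Bad V fun b => ((ev t (F (g l) b) : ℝ) : ℂ)) → False := by
  classical
  obtain ⟨q, E₁, hE₁⟩ := gsys_multi F Tg q₀ E₀ hF.sys D
  obtain ⟨E₂, hE₂⟩ := t_G (Fintype.card (Fin D → σ)) q
  refine ⟨(max E₁ 1 + 1) * max E₂ 1 + (E₀ + 2) + (R + 1), ?_⟩
  intro H t hHt g hg hgH hD V _ hV hbad
  have hH2 : (2 : ℝ) ≤ (H : ℝ) + 2 := by
    have : (0 : ℝ) ≤ H := by positivity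
    linarith
  have hH1 : (1 : ℝ) ≤ (H : ℝ) + 2 := by linarith
  have htR : (((H : ℝ) + 2)) ^ ((max E₁ 1 + 1) * max E₂ 1 + (E₀ + 2) + (R + 1)) ≤ (t : ℝ) := by exact_mod_cast hHt
  have hb1 : ((H : ℝ) + 2) ^ ((max E₁ 1 + 1) * max E₂ 1) ≤ (t : ℝ) :=
    (pow_le_pow_right₀ hH1 (by omega)).trans htR
  have hb2 : ((H : ℝ) + 2) ^ (E₀ + 2) ≤ (t : ℝ) := (pow_le_pow_right₀ hH1 (by omega)).trans htR
  have hHt' : H + R < t := by
    have h1 : (H + 2) ^ (R + 1) ≤ t := (Nat.pow_le_pow_right (by omega) (by omega)).trans hHt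
    have h2 : R < 2 ^ R := Nat.lt_two_pow_self
    have h3 : 2 ^ R ≤ (H + 2) ^ R := Nat.pow_le_pow_left (by omega) _
    have h4 : (R + 1) * (H + 2) ≤ (H + 2) ^ (R + 1) := by
      rw [pow_succ]
      exact Nat.mul_le_mul_right _ (by omega)
    have h5 : H + R < (R + 1) * (H + 2) := by nlinarith
    omega
  have ht0 : (0 : ℝ) < t := by
    have : 0 < t := by omega
    exact_mod_cast this
  have hsys := (hE₁ H g hgH).mono le_rfl (pow_le_pow_right₀ hH1 (le_max_left E₁ 1))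
  have hC : (2 * ((H : ℝ) + 2) ^ (max E₁ 1)) ^ E₂ ≤ (t : ℝ) := by
    have h1 : (2 * ((H : ℝ) + 2) ^ (max E₁ 1)) ^ E₂ ≤ (2 * ((H : ℝ) + 2) ^ (max E₁ 1)) ^ (max E₂ 1) := by
      refine pow_le_pow_right₀ ?_ (le_max_left _ _)
      have : (1 : ℝ) ≤ ((H : ℝ) + 2) ^ (max E₁ 1) := one_le_pow₀ hH1
      linarith
    exact h1.trans ((pow_base H _ _).trans hb1)
  have hne : Polynomial.aeval (1 / (t : ℝ)) (∏ l, Tg (g l)) ≠ 0 := by
    rw [map_prod, Finset.prod_ne_zero_iff]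
    intro l _
    refine hF.ne _ _ ?_
    have := hgH l
    omega
  have hLI := hE₂ (Fin D → σ) (((H : ℝ) + 2) ^ (max E₁ 1)) (∏ l, Tg (g l)) (fun b => ∏ l, F (g l) (b l)) (fun _ => b₀) t
    le_rfl hsys (Finset.prod_eq_one fun l _ => hF.one _) (hF.li D g hg) hC hne
  -- multiplicativity
  have hcv : ∀ l b, Cv (t : ℝ) (F (g l) b) := by
    intro l b
    have h1 := (hF.sys (g l)).size b
    set B : ℝ := ((g l : ℝ) + 2) ^ E₀ with hB
    have hB0 : 0 ≤ B := by positivity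
    refine Cv.of_bound (A := B) (B := B) ht0 hB0 ?_ fun m => ?_
    · have h2 : B ≤ ((H : ℝ) + 2) ^ E₀ := by
        refine pow_le_pow_left₀ (by positivity) ?_ _
        have : ((g l : ℕ) : ℝ) ≤ H := by exact_mod_cast hgH l
        linarith
      have h3 : ((H : ℝ) + 2) ^ E₀ < ((H : ℝ) + 2) ^ (E₀ + 2) := pow_lt_pow_right₀ (by linarith) (by omega)
      linarith
    · exact (h1 m).trans (le_of_eq (pow_succ' _ _))
  have hev : ∀ b : Fin D → σ, ev (t : ℝ) (∏ l, F (g l) (b l)) = ∏ l, ev (t : ℝ) (F (g l) (b l)) := by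
    intro b
    exact Cv.ev_prod ht0 Finset.univ (fun l => F (g l) (b l)) fun l _ => hcv l _
  simp only [hev] at hLI
  -- coordinates
  let e := Module.finBasisOfFinrankEq ℚ V hV
  choose v hvV hv0 hv using hbad
  have hrep : ∀ l b, ∃ τ : Fin D → ℚ, ∑ j, ((τ j : ℚ) : ℂ) * ((e j : V) : ℂ) = v l b := by
    intro l b
    refine ⟨fun j => e.repr ⟨v l b, hvV l b⟩ j, ?_⟩
    have h1 := e.sum_repr ⟨v l b, hvV l b⟩
    have h2 := congrArg (fun z : V => (z : ℂ)) h1
    simp only [Submodule.coe_sum, Submodule.coe_smul] at h2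
    refine Eq.trans ?_ h2
    refine Finset.sum_congr rfl fun j _ => ?_
    rw [Rat.smul_def]
  choose τ hrep using hrep
  have heLI : LinearIndependent ℚ (fun j => ((e j : V) : ℂ)) := by
    have := e.linearIndependent
    exact this.map' V.subtype (Submodule.ker_subtype V)
  obtain ⟨l, hl⟩ := Pool.Agent.Y141.GF.t_elim D σ (fun l b => ev (t : ℝ) (F (g l) b)) (fun j => ((e j : V) : ℂ))
    (fun l j b => τ l b j) hLI heLI (by
      intro l
      rw [Finset.sum_comm, ← hv l]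
      refine Finset.sum_congr rfl fun b _ => ?_
      rw [← hrep l b, Finset.sum_mul]
      refine Finset.sum_congr rfl fun j _ => ?_
      ring) hD
  apply hv0 l
  funext b
  rw [← hrep l b]
  refine Finset.sum_eq_zero fun j _ => ?_
  have h1 := congrFun (congrFun hl j) b
  simp only [Pi.zero_apply] at h1
  rw [h1]
  simp

/-- in a short window there are few bad fibres -/
theorem winR (hF : FamR R F Tg q₀ E₀ b₀) (D : ℕ) : ∃ E : ℕ, ∀ (H t : ℕ), (H + 2) ^ E ≤ t →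
    ∀ (V : Submodule ℚ ℂ) [Module.Finite ℚ V], Module.finrank ℚ V ≤ D →
    ∀ S : Finset ℕ, (∀ g ∈ S, g ≤ H ∧ Bad V fun b => ((ev t (F g b) : ℝ) : ℂ)) → S.card ≤ R * (D + 1) := by
  classical
  choose E hE using win_coreR hF
  refine ⟨∑ D' ∈ Finset.range (D + 1), E D', ?_⟩
  intro H t hHt V _ hV S hS
  set D' := Module.finrank ℚ V with hD'
  have hEle : E D' ≤ ∑ D' ∈ Finset.range (D + 1), E D' :=
    Finset.single_le_sum (f := E) (fun _ _ => Nat.zero_le _) (Finset.mem_range.2 (by omega))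
  have hHt' : (H + 2) ^ E D' ≤ t := (Nat.pow_le_pow_right (by omega) hEle).trans hHt
  have hRpos := hF.pos
  -- one class
  have key : ∀ S' ⊆ S, (∀ g ∈ S', R ≤ g) → (∀ g ∈ S', ∀ g' ∈ S', g % R = g' % R) → S'.card ≤ D := by
    intro S' hS' hge hpar
    by_contra hlt
    push Not at hlt
    rcases Nat.eq_zero_or_pos D' with h0 | hpos
    · have h1 : 0 < S'.card := by omega
      obtain ⟨g, hg⟩ := Finset.card_pos.1 h1
      obtain ⟨-, v, hv1, hv2, -⟩ := hS g (hS' hg)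
      apply hv2
      have hV0 : V = ⊥ := Submodule.finrank_eq_zero.1 (by rw [← hD']; exact h0)
      funext b
      have := hv1 b
      rw [hV0] at this
      exact (Submodule.mem_bot ℚ).1 this
    · obtain ⟨S'', hS''sub, hS''card⟩ := Finset.exists_subset_card_eq (show D' ≤ S'.card by omega)
      let g : Fin D' → ℕ := fun l => S''.orderEmbOfFin hS''card l
      have hgm : ∀ l, g l ∈ S'' := fun l => Finset.orderEmbOfFin_mem S'' hS''card l
      have hgi : Function.Injective g := (S''.orderEmbOfFin hS''card).injective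
      refine hE D' H t hHt' g ⟨fun l => hge _ (hS''sub (hgm l)), fun l l' hne => ?_⟩
        (fun l => (hS _ (hS' (hS''sub (hgm l)))).1) hpos V rfl
        (fun l => (hS _ (hS' (hS''sub (hgm l)))).2)
      have h1 := hpar _ (hS''sub (hgm l)) _ (hS''sub (hgm l'))
      have h2 : g l ≠ g l' := fun h => hne (hgi h)
      have e1 := Nat.div_add_mod (g l) R
      have e2 := Nat.div_add_mod (g l') R
      rcases lt_trichotomy (g l / R) (g l' / R) with h3 | h3 | h3
      · left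
        have h4 : R * (g l / R) + R ≤ R * (g l' / R) := by
          calc R * (g l / R) + R = R * (g l / R + 1) := by ring
            _ ≤ _ := Nat.mul_le_mul_left _ h3
        omega
      · exfalso
        apply h2
        rw [h3] at e1
        omega
      · right
        have h4 : R * (g l' / R) + R ≤ R * (g l / R) := by
          calc R * (g l' / R) + R = R * (g l' / R + 1) := by ring
            _ ≤ _ := Nat.mul_le_mul_left _ h3
        omega
  have h1 : (S.filter fun g => g < R).card ≤ R := by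
    have : (S.filter fun g => g < R) ⊆ Finset.range R := fun g hg => Finset.mem_range.2 (Finset.mem_filter.1 hg).2
    simpa using Finset.card_le_card this
  have h2 : (S.filter fun g => ¬ g < R).card ≤ D * R := by
    have e1 : (S.filter fun g => ¬ g < R).card ≤ D * ((S.filter fun g => ¬ g < R).image fun g => g % R).card := by
      refine Finset.card_le_mul_card_image _ D fun r _ => ?_
      refine key _ ((Finset.filter_subset _ _).trans (Finset.filter_subset _ _)) (fun g hg => ?_) fun g hg g' hg' => ?_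
      · have := (Finset.mem_filter.1 (Finset.mem_filter.1 hg).1).2
        omega
      · rw [(Finset.mem_filter.1 hg).2, (Finset.mem_filter.1 hg').2]
    refine e1.trans (Nat.mul_le_mul_left _ ?_)
    have : ((S.filter fun g => ¬ g < R).image fun g => g % R) ⊆ Finset.range R := by
      intro r hr
      obtain ⟨g, -, rfl⟩ := Finset.mem_image.1 hr
      exact Finset.mem_range.2 (Nat.mod_lt _ hRpos)
    simpa using Finset.card_le_card this
  have h3 := Finset.card_filter_add_card_filter_not (s := S) (fun g => g < R)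
  have h4 : R * (D + 1) = D * R + R := by ring
  omega

/-- expanding the powers of `ℓ + Q` -/
theorem bad_taylor {κ : Type} [Fintype κ] (n : ℕ) {V : Submodule ℚ ℂ} (ℓ Q : ℂ) (L : κ → ℂ)
    (hb : Bad V fun b : κ × Fin (n + 1) => L b.1 * (ℓ + Q) ^ (b.2 : ℕ)) :
    Bad (Ext V fun i : Fin (n + 1) => ℓ ^ (i : ℕ)) fun b : κ × Fin (n + 1) =>
      L b.1 * (1 / ((b.2 : ℕ).factorial : ℂ) * Q ^ (b.2 : ℕ)) := by
  classical
  obtain ⟨v, hvV, hv0, hv⟩ := hb
  -- the polynomials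
  let p : κ → Polynomial ℂ := fun w => ∑ e : Fin (n + 1), Polynomial.C (v (w, e)) * Polynomial.X ^ (e : ℕ)
  have hpc : ∀ w (e : Fin (n + 1)), (p w).coeff (e : ℕ) = v (w, e) := by
    intro w e
    show (∑ e : Fin (n + 1), Polynomial.C (v (w, e)) * Polynomial.X ^ (e : ℕ)).coeff (e : ℕ) = v (w, e)
    rw [Polynomial.finsetSum_coeff, Finset.sum_eq_single e]
    · rw [Polynomial.coeff_C_mul, Polynomial.coeff_X_pow_self, mul_one]
    · intro e' _ hne
      rw [Polynomial.coeff_C_mul, Polynomial.coeff_X_pow, if_neg, mul_zero]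
      intro h
      exact hne (Fin.ext h.symm)
    · intro h
      exact absurd (Finset.mem_univ _) h
  have hpV : ∀ w m, (p w).coeff m ∈ V := by
    intro w m
    show (∑ e : Fin (n + 1), Polynomial.C (v (w, e)) * Polynomial.X ^ (e : ℕ)).coeff m ∈ V
    rw [Polynomial.finsetSum_coeff]
    refine Submodule.sum_mem _ fun e _ => ?_
    rw [Polynomial.coeff_C_mul, Polynomial.coeff_X_pow]
    split_ifs
    · rw [mul_one]
      exact hvV _
    · rw [mul_zero]
      exact Submodule.zero_mem _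
  have hpd : ∀ w, (p w).natDegree ≤ n := by
    intro w
    refine Polynomial.natDegree_sum_le_of_forall_le _ _ fun e _ => ?_
    exact (Polynomial.natDegree_C_mul_X_pow_le _ _).trans (Nat.lt_succ_iff.1 e.2)
  have hpe : ∀ w x, (p w).eval x = ∑ e : Fin (n + 1), v (w, e) * x ^ (e : ℕ) := by
    intro w x
    show (∑ e : Fin (n + 1), Polynomial.C (v (w, e)) * Polynomial.X ^ (e : ℕ)).eval x = _
    rw [Polynomial.eval_finsetSum]
    simp
  have htd : ∀ w, (Polynomial.taylor ℓ (p w)).natDegree ≤ n := by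
    intro w
    rw [Polynomial.natDegree_taylor]
    exact hpd w
  refine ⟨fun b => ((b.2 : ℕ).factorial : ℂ) * (Polynomial.taylor ℓ (p b.1)).coeff (b.2 : ℕ), ?_, ?_, ?_⟩
  · rintro ⟨w, e⟩
    simp only
    rw [Polynomial.taylor_coeff]
    have h1 : (Polynomial.hasseDeriv (e : ℕ) (p w)).natDegree < n + 1 :=
      lt_of_le_of_lt (Polynomial.natDegree_hasseDeriv_le _ _) (by have := hpd w; omega)
    rw [Polynomial.eval_eq_sum_range' h1, Finset.mul_sum, Finset.sum_range]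
    have h2 : ∑ i : Fin (n + 1), ((e : ℕ).factorial : ℂ) *
        ((Polynomial.hasseDeriv (e : ℕ) (p w)).coeff (i : ℕ) * ℓ ^ (i : ℕ)) =
        ∑ i : Fin (n + 1), (((e : ℕ).factorial * ((i : ℕ) + e).choose e : ℕ) • (p w).coeff ((i : ℕ) + e)) * ℓ ^ (i : ℕ) := by
      refine Finset.sum_congr rfl fun i _ => ?_
      rw [Polynomial.hasseDeriv_coeff, nsmul_eq_mul]
      push_cast
      ring
    rw [h2]
    exact mem_Ext V _ fun i => Submodule.smul_of_tower_mem _ _ (hpV _ _)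
  · intro h0
    apply hv0
    have h1 : ∀ w, p w = 0 := by
      intro w
      have h2 : Polynomial.taylor ℓ (p w) = 0 := by
        ext m
        rw [Polynomial.coeff_zero]
        rcases Nat.lt_or_ge m (n + 1) with hm | hm
        · have h3 := congrFun h0 (w, ⟨m, hm⟩)
          simp only [Pi.zero_apply, mul_eq_zero] at h3
          exact h3.resolve_left (by exact_mod_cast Nat.factorial_ne_zero m)
        · exact Polynomial.coeff_eq_zero_of_natDegree_lt (lt_of_le_of_lt (htd w) hm)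
      exact (Polynomial.taylor_eq_zero ℓ _).1 h2
    funext ⟨w, e⟩
    rw [← hpc w e, h1 w]
    simp
  · rw [← hv, Fintype.sum_prod_type, Fintype.sum_prod_type]
    refine Finset.sum_congr rfl fun w _ => ?_
    have h1 : ∀ e : Fin (n + 1), ((e : ℕ).factorial : ℂ) * (Polynomial.taylor ℓ (p w)).coeff (e : ℕ) *
        (L w * (1 / ((e : ℕ).factorial : ℂ) * Q ^ (e : ℕ))) =
        (Polynomial.taylor ℓ (p w)).coeff (e : ℕ) * Q ^ (e : ℕ) * L w := by
      intro e
      have : ((e : ℕ).factorial : ℂ) ≠ 0 := by exact_mod_cast Nat.factorial_ne_zero _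
      field_simp
    simp only [h1]
    rw [← Finset.sum_mul]
    have h2 : ∑ i : Fin (n + 1), (Polynomial.taylor ℓ (p w)).coeff (i : ℕ) * Q ^ (i : ℕ) = (p w).eval (Q + ℓ) := by
      rw [← Polynomial.taylor_eval, Polynomial.eval_eq_sum_range' (Nat.lt_succ_of_le (htd w)), Finset.sum_range]
    rw [h2, hpe, Finset.sum_mul]
    refine Finset.sum_congr rfl fun e _ => ?_
    rw [add_comm Q ℓ]
    ring

/-- the numbers `y_β(1/t) (log t)^ε` -/
noncomputable def XF {κ : Type} (n : ℕ) (y : κ → ℚ⟦X⟧) (t : ℕ) (b : κ × Fin (n + 1)) : ℂ :=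
  ((ev t (y b.1) : ℝ) : ℂ) * (((Real.log t : ℝ) : ℂ)) ^ (b.2 : ℕ)

/-- from `t - g` to the shift `g` -/
theorem bad_shiftR {κ : Type} [Fintype κ] {n : ℕ} {V : Submodule ℚ ℂ} {y : κ → ℚ⟦X⟧} {C : ℝ} (hC : 1 ≤ C)
    (hy : ∀ i m, |((coeff m (y i) : ℚ) : ℝ)| ≤ C ^ (m + 1)) {t g : ℕ} (h : (g : ℝ) + C < t) (hb : Bad V (XF n y (t - g))) :
    Bad (Ext V fun i : Fin (n + 1) => (((Real.log t : ℝ) : ℂ)) ^ (i : ℕ)) fun b => ((ev t (Fg (n + 1) y g b) : ℝ) : ℂ) := by
  have hg0 : (0 : ℝ) ≤ g := by positivity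
  have ht0 : (0 : ℝ) < t := by linarith
  have htg : (g : ℝ) < t := by linarith
  have hcast : ((t - g : ℕ) : ℝ) = (t : ℝ) - g := by
    rw [Nat.cast_sub (by exact_mod_cast htg.le)]
  have hlog : Real.log ((t - g : ℕ) : ℝ) = Real.log t + Real.log (1 - g / t) := by
    rw [hcast, ← Real.log_mul ht0.ne']
    · congr 1
      field_simp
    · have : (g : ℝ) / t < 1 := by
        rw [div_lt_one ht0]
        linarith
      linarith
  set ℓ : ℂ := ((Real.log t : ℝ) : ℂ) with hℓ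
  set Q : ℂ := ((Real.log (1 - g / t) : ℝ) : ℂ) with hQ
  have hval : ∀ i, ev t (sf g (y i)) = ev ((t - g : ℕ) : ℝ) (y i) := by
    intro i
    have h1 := ou_shift (by linarith) (hy i) g (t := ((t : ℝ) : ℂ)) (by
      rw [Complex.norm_real, Real.norm_of_nonneg ht0.le]
      exact h)
    have h2 : (((t : ℝ) : ℂ)) - (g : ℂ) = ((((t - g : ℕ) : ℝ)) : ℂ) := by
      rw [hcast]
      push_cast
      ring
    rw [h2, ou_ev, ou_ev] at h1
    exact_mod_cast h1
  have hsub : ∀ i, Cv (t : ℝ) (sf g (y i)) := by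
    intro i
    have hcv : ∀ d, Cv (t : ℝ) (sh g ^ d) := fun d => (sh_cv htg).pow ht0 d
    have h1 := Pool.Agent.Y120.GH.cx_sf_cv (by linarith) (hy i) g h
    exact h1
  have hF : ∀ b : κ × Fin (n + 1), ((ev t (Fg (n + 1) y g b) : ℝ) : ℂ) =
      ((ev ((t - g : ℕ) : ℝ) (y b.1) : ℝ) : ℂ) * (1 / ((b.2 : ℕ).factorial : ℂ) * Q ^ (b.2 : ℕ)) := by
    intro b
    have h1 : Cv (t : ℝ) (yQ g b.2) := by
      rw [yQ]
      exact (Cv.C _).mul ht0 ((lg_cv (by linarith)).pow ht0 _)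
    rw [Fg, Cv.ev_mul ht0 (hsub _) h1, ev_yQ htg, hval, hQ]
    push_cast
    ring
  have h1 := bad_taylor (V := V) n ℓ Q (fun i => ((ev ((t - g : ℕ) : ℝ) (y i) : ℝ) : ℂ)) (by
    have : (fun b : κ × Fin (n + 1) => ((ev ((t - g : ℕ) : ℝ) (y b.1) : ℝ) : ℂ) * (ℓ + Q) ^ (b.2 : ℕ)) = XF n y (t - g) := by
      funext b
      rw [XF, hlog, hℓ, hQ]
      push_cast
      rfl
    rw [this]
    exact hb)
  have h2 : (fun b : κ × Fin (n + 1) => ((ev t (Fg (n + 1) y g b) : ℝ) : ℂ)) = fun b : κ × Fin (n + 1) =>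
      ((ev ((t - g : ℕ) : ℝ) (y b.1) : ℝ) : ℂ) * (1 / ((b.2 : ℕ).factorial : ℂ) * Q ^ (b.2 : ℕ)) := by
    funext b
    exact hF b
  rw [h2]
  exact h1

/-- few bad integers -/
theorem one_family {κ : Type} [Fintype κ] {q : ℕ} {C : ℝ} {T : Polynomial ℤ} {y : κ → ℚ⟦X⟧} (hG : GSys q C T y)
    (hT : T ≠ 0) (β₀ : κ) (hβ₀ : y β₀ = 1) (n R : ℕ)
    (hli : ∀ (k : ℕ) (g : Fin k → ℕ), SepR R g →
      LinearIndependent (Polynomial ℚ) (fun b : Fin k → κ × Fin (n + 1) => ∏ l, Fg (n + 1) y (g l) (b l))) :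
    One (XF n y) := by
  obtain ⟨q₀, E₀, hsys⟩ := gsys_Fg hG n
  obtain ⟨c, hc⟩ := Tg_ne hT hG.degT
  obtain ⟨C', hC'⟩ := exists_nat_ge C
  set R' : ℕ := R + c + C' + 1 with hR'
  have hF : FamR R' (Fg (n + 1) y) (Pool.Agent.Y120.GH.Tg q T) q₀ E₀ (β₀, (0 : Fin (n + 1))) := by
    refine ⟨by omega, fun g => ?_, hsys, fun g t h => hc g t (by omega), fun k g hg => hli k g ⟨fun l => ?_, fun l l' hl => ?_⟩⟩
    · show sf g (y β₀) * yQ g ((0 : Fin (n + 1)) : ℕ) = 1
      rw [hβ₀]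
      have h1 : sf g 1 = 1 := by
        have := sf_nat g 1
        simpa using this
      rw [h1, one_mul]
      exact yQ_nil g
    · have := hg.1 l
      omega
    · have := hg.2 l l' hl
      omega
  intro D
  obtain ⟨E, hE⟩ := winR hF ((n + 1) * D)
  set M := R' * ((n + 1) * D + 1) with hM
  set E' := max E 1 + (R' + 1) with hE'
  refine ⟨1 / (2 * (E' : ℝ)), 8 + 4 * M, by positivity, by positivity, ?_⟩
  intro V _ hV x N hN S hS
  refine count_one (fun t => Bad V (XF n y t)) M E' (by omega) ?_ x N hN S hS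
  intro H t hHt S' hS'
  have h1 : (H + 2) ^ E ≤ t := (Nat.pow_le_pow_right (by omega) (by omega)).trans hHt
  have hHt' : H + R' < t := by
    have h1 : (H + 2) ^ (R' + 1) ≤ t := (Nat.pow_le_pow_right (by omega) (by omega)).trans hHt
    have h2 : R' < 2 ^ R' := Nat.lt_two_pow_self
    have h3 : 2 ^ R' ≤ (H + 2) ^ R' := Nat.pow_le_pow_left (by omega) _
    have h4 : (R' + 1) * (H + 2) ≤ (H + 2) ^ (R' + 1) := by
      rw [pow_succ]
      exact Nat.mul_le_mul_right _ (by omega)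
    have h5 : H + R' < (R' + 1) * (H + 2) := by nlinarith
    omega
  refine hE H t h1 (Ext V fun i : Fin (n + 1) => (((Real.log t : ℝ) : ℂ)) ^ (i : ℕ))
    ((finrank_Ext V _).trans ?_) S' fun g hg => ?_
  · rw [Fintype.card_fin]
    exact Nat.mul_le_mul_left _ hV
  · obtain ⟨-, g2, g3⟩ := hS' g hg
    refine ⟨g2, bad_shiftR hG.one_le hG.size ?_ g3⟩
    have h2 : g + C' < t := by omega
    have h3 : ((g : ℝ) + C') < t := by exact_mod_cast h2
    linarith

end Pool.Agent.Y120.GH
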