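import Pool.Agent.Y120.H.Shift

/-!
# G-systems from the classical conditions of Siegel and Galochkin; products
-/

set_option autoImplicit false

open PowerSeries Pool.Agent.Y113 Pool.Agent.Y120.GF

namespace Pool.Agent.Y120.GH

lemma ps_deriv (P : Polynomial ℤ) : d⁄dX ℚ (ps P) = ps (Polynomial.derivative P) := by
  unfold ps
  rw [derivative_coe, Polynomial.derivative_map]

lemma L1.der {n : ℕ} {A : ℝ} {P : Polynomial ℤ} (h : L1 n A P) : L1 n (n * A) (Polynomial.derivative P) := by
  refine ⟨(Polynomial.natDegree_derivative_le P).trans (by have := h.1; omega), ?_⟩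
  have h0 : P.coeff (n + 1) = 0 := Polynomial.coeff_eq_zero_of_natDegree_lt (Nat.lt_succ_of_le h.1)
  calc ∑ l ∈ Finset.range (n + 1), |(((Polynomial.derivative P).coeff l : ℤ) : ℝ)| ≤
        ∑ l ∈ Finset.range (n + 1), (n : ℝ) * |((P.coeff (l + 1) : ℤ) : ℝ)| := by
        refine Finset.sum_le_sum fun l hl => ?_
        rw [Finset.mem_range] at hl
        rw [Polynomial.coeff_derivative]
        push_cast
        rw [abs_mul, mul_comm]
        rcases Nat.lt_or_ge l n with h1 | h1
        · refine mul_le_mul_of_nonneg_right ?_ (abs_nonneg _)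
          rw [abs_of_nonneg (by positivity)]
          exact_mod_cast h1
        · have h2 : l = n := by omega
          rw [h2, h0]
          simp
    _ = n * ∑ l ∈ Finset.range (n + 1), |((P.coeff (l + 1) : ℤ) : ℝ)| := by rw [Finset.mul_sum]
    _ ≤ n * ∑ l ∈ Finset.range (n + 1), |((P.coeff l : ℤ) : ℝ)| := by
        refine mul_le_mul_of_nonneg_left ?_ (by positivity)
        have h3 := Finset.sum_range_succ' (fun l => |((P.coeff l : ℤ) : ℝ)|) (n + 1)
        have h4 := Finset.sum_range_succ (fun l => |((P.coeff l : ℤ) : ℝ)|) (n + 1)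
        rw [h0] at h4
        simp only [Int.cast_zero, abs_zero, add_zero] at h4
        have h5 : 0 ≤ |((P.coeff 0 : ℤ) : ℝ)| := abs_nonneg _
        linarith
    _ ≤ n * A := mul_le_mul_of_nonneg_left h.2 (by positivity)

section
variable {ι : Type} [Fintype ι] [DecidableEq ι]

/-- the matrices `G_s` with `T^s y^(s) = G_s y` for the solutions of `T y' = A y` -/
noncomputable def itm (T : Polynomial ℤ) (A : ι → ι → Polynomial ℤ) : ℕ → ι → ι → Polynomial ℤ
  | 0 => fun i j => if i = j then 1 else 0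
  | s + 1 => fun i j => T * Polynomial.derivative (itm T A s i j) + ∑ l, itm T A s i l * A l j -
      (s : Polynomial ℤ) * (Polynomial.derivative T * itm T A s i j)

lemma itm_spec {T : Polynomial ℤ} {A : ι → ι → Polynomial ℤ} {y : ι → ℚ⟦X⟧}
    (hode : ∀ i, ps T * d⁄dX ℚ (y i) = ∑ j, ps (A i j) * y j) (s : ℕ) (i : ι) :
    (s.factorial : ℚ⟦X⟧) * (ps T ^ s * hd s (y i)) = ∑ j, ps (itm T A s i j) * y j := by
  induction s with
  | zero =>
    rw [hd_zero, pow_zero, Nat.factorial_zero, Nat.cast_one, one_mul, one_mul, Finset.sum_eq_single i]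
    · show _ = ps (if i = i then 1 else 0) * y i
      rw [if_pos rfl, ps_one, one_mul]
    · intro j _ hne
      show ps (if i = j then 1 else 0) * y j = 0
      rw [if_neg hne.symm, ps_zero, zero_mul]
    · intro h
      exact absurd (Finset.mem_univ _) h
  | succ s ih =>
    have h1 := congrArg (fun f => ps T * d⁄dX ℚ f) ih
    have e1 : ps T * d⁄dX ℚ ((s.factorial : ℚ⟦X⟧) * (ps T ^ s * hd s (y i))) =
        (s : ℚ⟦X⟧) * ps (Polynomial.derivative T) * ((s.factorial : ℚ⟦X⟧) * (ps T ^ s * hd s (y i))) +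
          ((s + 1).factorial : ℚ⟦X⟧) * (ps T ^ (s + 1) * hd (s + 1) (y i)) := by
      have e2 : d⁄dX ℚ (s.factorial : ℚ⟦X⟧) = 0 := Derivation.map_natCast _ _
      rw [Derivation.leibniz, e2, Derivation.leibniz, Derivation.leibniz_pow, deriv_hd, ps_deriv, Nat.factorial_succ]
      simp only [smul_eq_mul, nsmul_eq_mul, mul_zero, add_zero]
      rcases s with _ | s
      · simp
      · rw [Nat.add_sub_cancel]
        push_cast
        ring
    have e3 : ps T * d⁄dX ℚ (∑ j, ps (itm T A s i j) * y j) =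
        ∑ j, ps (T * Polynomial.derivative (itm T A s i j)) * y j + ∑ j, ps (∑ l, itm T A s i l * A l j) * y j := by
      rw [map_sum, Finset.mul_sum]
      have e4 : ∀ j, ps T * d⁄dX ℚ (ps (itm T A s i j) * y j) =
          ps (T * Polynomial.derivative (itm T A s i j)) * y j + ps (itm T A s i j) * ∑ l, ps (A j l) * y l := by
        intro j
        rw [Derivation.leibniz, ps_deriv, ps_mul, ← hode j]
        simp only [smul_eq_mul]
        ring
      rw [Finset.sum_congr rfl fun j _ => e4 j, Finset.sum_add_distrib]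
      congr 1
      simp only [Finset.mul_sum, ps_sum, Finset.sum_mul]
      rw [Finset.sum_comm]
      refine Finset.sum_congr rfl fun j _ => Finset.sum_congr rfl fun l _ => ?_
      rw [ps_mul]
      ring
    beta_reduce at h1
    rw [e1, e3] at h1
    have e5 : ∀ j, ps (itm T A (s + 1) i j) * y j = (ps (T * Polynomial.derivative (itm T A s i j)) * y j +
        ps (∑ l, itm T A s i l * A l j) * y j) - (s : ℚ⟦X⟧) * ps (Polynomial.derivative T) * (ps (itm T A s i j) * y j) := by
      intro j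
      have e8 : ∀ P Q : Polynomial ℤ, ps (P - Q) = ps P - ps Q := fun P Q => by
        unfold ps
        rw [Polynomial.map_sub, Polynomial.coe_sub]
      rw [itm, e8]
      have e6 : ∀ P Q : Polynomial ℤ, ps (P + Q) = ps P + ps Q := fun P Q => by
        unfold ps
        rw [Polynomial.map_add, Polynomial.coe_add]
      have e7 : ps (s : Polynomial ℤ) = (s : ℚ⟦X⟧) := by
        have : (s : Polynomial ℤ) = Polynomial.C (s : ℤ) := by simp
        rw [this, ps_C]
        push_cast
        rfl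
      rw [e6, ps_mul (s : Polynomial ℤ), ps_mul (Polynomial.derivative T), e7]
      ring
    rw [Finset.sum_congr rfl fun j _ => e5 j, Finset.sum_sub_distrib, Finset.sum_add_distrib, ← h1, ← Finset.mul_sum, ih]
    ring

lemma itm_L1 {q : ℕ} {a : ℝ} {T : Polynomial ℤ} {A : ι → ι → Polynomial ℤ} (ha : 1 ≤ a) (hT : L1 q a T)
    (hA : ∀ i j, L1 q a (A i j)) (s : ℕ) (i j : ι) :
    L1 (q * s) (((2 * q + Fintype.card ι + 1) * a) ^ s * s.factorial) (itm T A s i j) := by
  induction s generalizing i j with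
  | zero =>
    rw [Nat.mul_zero, pow_zero, Nat.factorial_zero, Nat.cast_one, one_mul]
    show L1 0 1 (if i = j then 1 else 0)
    split_ifs
    · exact L1.one
    · exact L1.zero.mono le_rfl (by norm_num)
  | succ s ih =>
    set K : ℝ := (2 * q + Fintype.card ι + 1) * a with hK
    set U : ℝ := K ^ s * s.factorial with hU
    have hU0 : 0 ≤ U := by positivity
    have h1 : L1 (q * (s + 1)) (a * ((q * s : ℕ) * U)) (T * Polynomial.derivative (itm T A s i j)) := by
      refine (hT.mul (ih i j).der).mono ?_ le_rfl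
      rw [mul_add, mul_one, add_comm]
    have h2 : L1 (q * (s + 1)) (∑ _l : ι, U * a) (∑ l, itm T A s i l * A l j) := by
      refine L1.sum _ fun l _ => ((ih i l).mul (hA l j)).mono ?_ le_rfl
      rw [mul_add, mul_one]
    have h3 : L1 (q * (s + 1)) (s * ((q * a) * U)) (Polynomial.C (-(s : ℤ)) * (Polynomial.derivative T * itm T A s i j)) := by
      refine L1.C_mul ((hT.der.mul (ih i j)).mono ?_ le_rfl) _ ?_
      · rw [mul_add, mul_one, add_comm]
      · push_cast
        rw [abs_neg, abs_of_nonneg (by positivity)]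
    have h4 := (h1.add h2).add h3
    have h5 : itm T A (s + 1) i j = T * Polynomial.derivative (itm T A s i j) + ∑ l, itm T A s i l * A l j +
        Polynomial.C (-(s : ℤ)) * (Polynomial.derivative T * itm T A s i j) := by
      rw [itm, map_neg]
      have : (Polynomial.C (s : ℤ) : Polynomial ℤ) = (s : Polynomial ℤ) := by simp
      rw [this]
      ring
    rw [h5]
    refine h4.mono le_rfl ?_
    rw [Finset.sum_const, Finset.card_univ, nsmul_eq_mul, pow_succ, Nat.factorial_succ]
    push_cast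
    have h6 : K ^ s * K * (((s : ℝ) + 1) * s.factorial) = U * (((2 * q + Fintype.card ι + 1) * a) * (s + 1)) := by
      rw [hU, hK]
      ring
    rw [h6]
    have h7 : a * (q * s * U) + (Fintype.card ι : ℝ) * (U * a) + s * (q * a * U) =
        U * ((2 * q * s + Fintype.card ι) * a) := by ring
    rw [h7]
    refine mul_le_mul_of_nonneg_left ?_ hU0
    have h8 : (2 * (q : ℝ) * s + Fintype.card ι) ≤ (2 * q + Fintype.card ι + 1) * (s + 1) := by
      have a1 : (0 : ℝ) ≤ q := by positivity
      have a2 : (0 : ℝ) ≤ (Fintype.card ι : ℝ) := by positivity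
      have a3 : (0 : ℝ) ≤ s := by positivity
      nlinarith [mul_nonneg a2 a3]
    calc (2 * (q : ℝ) * s + Fintype.card ι) * a ≤ ((2 * q + Fintype.card ι + 1) * (s + 1)) * a :=
          mul_le_mul_of_nonneg_right h8 (by linarith)
      _ = _ := by ring

/-- a G-system from the classical conditions -/
theorem gsys_of {T : Polynomial ℤ} {A : ι → ι → Polynomial ℤ} {y : ι → ℚ⟦X⟧}
    (hode : ∀ i, ps T * d⁄dX ℚ (y i) = ∑ j, ps (A i j) * y j)
    (hsize : ∃ C : ℝ, ∀ i m, |((coeff m (y i) : ℚ) : ℝ)| ≤ C ^ (m + 1))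
    (hden : ∃ C : ℝ, ∀ m, ∃ d : ℕ, 0 < d ∧ (d : ℝ) ≤ C ^ (m + 1) ∧ ∀ i, ∀ j ≤ m, ∃ a : ℤ, (d : ℚ) * coeff j (y i) = a)
    (hgal : ∃ C : ℝ, ∀ m, ∃ d : ℕ, 0 < d ∧ (d : ℝ) ≤ C ^ (m + 1) ∧ ∀ s ≤ m, ∀ i j, ∃ H : Polynomial ℤ,
      (d : Polynomial ℤ) * itm T A s i j = (s.factorial : Polynomial ℤ) * H) : ∃ (q : ℕ) (C : ℝ), GSys q C T y := by
  obtain ⟨C₁, hC₁⟩ := hsize
  obtain ⟨C₂, hC₂⟩ := hden
  obtain ⟨C₃, hC₃⟩ := hgal
  -- degrees and sizes
  obtain ⟨q, hqT, hqA⟩ : ∃ q : ℕ, T.natDegree ≤ q ∧ ∀ i j, (A i j).natDegree ≤ q := by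
    refine ⟨T.natDegree + ∑ i, ∑ j, (A i j).natDegree, by omega, fun i j => ?_⟩
    have h1 : (A i j).natDegree ≤ ∑ j, (A i j).natDegree :=
      Finset.single_le_sum (f := fun j => (A i j).natDegree) (fun _ _ => Nat.zero_le _) (Finset.mem_univ j)
    have h2 : ∑ j, (A i j).natDegree ≤ ∑ i, ∑ j, (A i j).natDegree :=
      Finset.single_le_sum (f := fun i => ∑ j, (A i j).natDegree) (fun _ _ => Nat.zero_le _) (Finset.mem_univ i)
    omega
  let nm : Polynomial ℤ → ℝ := fun P => ∑ l ∈ Finset.range (q + 1), |((P.coeff l : ℤ) : ℝ)|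
  have hnm : ∀ P, 0 ≤ nm P := fun P => Finset.sum_nonneg fun _ _ => abs_nonneg _
  obtain ⟨a, ha1, haT, haA⟩ : ∃ a : ℝ, 1 ≤ a ∧ L1 q a T ∧ ∀ i j, L1 q a (A i j) := by
    have h0 : 0 ≤ ∑ i, ∑ j, nm (A i j) := Finset.sum_nonneg fun i _ => Finset.sum_nonneg fun j _ => hnm _
    refine ⟨1 + nm T + ∑ i, ∑ j, nm (A i j), ?_, ⟨hqT, ?_⟩, fun i j => ⟨hqA i j, ?_⟩⟩
    · have := hnm T
      linarith
    · show nm T ≤ _
      linarith
    · show nm (A i j) ≤ _
      have h1 : nm (A i j) ≤ ∑ j, nm (A i j) :=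
        Finset.single_le_sum (f := fun j => nm (A i j)) (fun _ _ => hnm _) (Finset.mem_univ j)
      have h2 : ∑ j, nm (A i j) ≤ ∑ i, ∑ j, nm (A i j) :=
        Finset.single_le_sum (f := fun i => ∑ j, nm (A i j)) (fun _ _ => Finset.sum_nonneg fun _ _ => hnm _)
          (Finset.mem_univ i)
      have := hnm T
      linarith
  set K : ℝ := (2 * q + Fintype.card ι + 1) * a with hK
  have hK1 : 1 ≤ K := by
    have h1 : (1 : ℝ) ≤ 2 * q + Fintype.card ι + 1 := by
      have a1 : (0 : ℝ) ≤ q := by positivity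
      have a2 : (0 : ℝ) ≤ (Fintype.card ι : ℝ) := by positivity
      linarith
    calc (1 : ℝ) = 1 * 1 := by ring
      _ ≤ _ := mul_le_mul h1 ha1 (by norm_num) (by linarith)
  set Q : ℝ := |C₁| + |C₂| + |C₃| + 1 with hQ
  have hQ1 : 1 ≤ Q := by
    have := abs_nonneg C₁
    have := abs_nonneg C₂
    have := abs_nonneg C₃
    linarith
  have hQ0 : 0 < Q := by linarith
  have hCpow : ∀ {c x : ℝ} (m : ℕ), |c| ≤ Q → x ≤ c ^ (m + 1) → x ≤ Q ^ (m + 1) := by
    intro c x m hc hxc
    calc x ≤ c ^ (m + 1) := hxc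
      _ ≤ |c ^ (m + 1)| := le_abs_self _
      _ = |c| ^ (m + 1) := abs_pow _ _
      _ ≤ Q ^ (m + 1) := pow_le_pow_left₀ (abs_nonneg _) hc _
  have hc1 : |C₁| ≤ Q := by
    have := abs_nonneg C₂
    have := abs_nonneg C₃
    linarith
  have hc2 : |C₂| ≤ Q := by
    have := abs_nonneg C₁
    have := abs_nonneg C₃
    linarith
  have hc3 : |C₃| ≤ Q := by
    have := abs_nonneg C₁
    have := abs_nonneg C₂
    linarith
  have hpw : ∀ m : ℕ, Q ^ (m + 1) ≤ (Q * K) ^ (m + 1) := fun m =>
    pow_le_pow_left₀ hQ0.le (le_mul_of_one_le_right hQ0.le hK1) _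
  have haK : a ≤ K := by
    rw [hK]
    refine le_mul_of_one_le_left (by linarith) ?_
    have a1 : (0 : ℝ) ≤ q := by positivity
    have a2 : (0 : ℝ) ≤ (Fintype.card ι : ℝ) := by positivity
    linarith
  refine ⟨q, Q * K, ?_, hqT, fun l => ?_, fun i m => ?_, fun m => ?_, fun k => ?_⟩
  · exact one_le_mul_of_one_le_of_one_le hQ1 hK1
  · refine (haT.coeff_le l).trans (haK.trans ?_)
    exact le_mul_of_one_le_left (by linarith) hQ1
  · exact (hCpow m hc1 (hC₁ i m)).trans (hpw m)
  · obtain ⟨d, hd0, hd, hd'⟩ := hC₂ m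
    exact ⟨d, hd0, (hCpow m hc2 hd).trans (hpw m), hd'⟩
  · obtain ⟨d, hd0, hdC, hd'⟩ := hC₃ k
    have hdQ := hCpow k hc3 hdC
    refine ⟨d, hd0, hdQ.trans (hpw k), fun s hs => ?_⟩
    choose H hH using hd' s hs
    have hcoef : ∀ i j l, (d : ℤ) * (itm T A s i j).coeff l = (s.factorial : ℤ) * (H i j).coeff l := by
      intro i j l
      have h1 := congrArg (fun P => Polynomial.coeff P l) (hH i j)
      have e1 : (d : Polynomial ℤ) = Polynomial.C (d : ℤ) := by simp
      have e2 : (s.factorial : Polynomial ℤ) = Polynomial.C (s.factorial : ℤ) := by simp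
      rw [e1, e2] at h1
      simpa only [Polynomial.coeff_C_mul] using h1
    have hsf : ((s.factorial : ℕ) : ℤ) ≠ 0 := by exact_mod_cast Nat.factorial_ne_zero s
    have hsR : (0 : ℝ) < (s.factorial : ℝ) := by exact_mod_cast Nat.factorial_pos s
    refine ⟨H, fun i j => ?_, fun i j l => ?_, fun i => ?_⟩
    · rw [Polynomial.natDegree_le_iff_coeff_eq_zero]
      intro l hl
      have h1 := hcoef i j l
      rw [Polynomial.coeff_eq_zero_of_natDegree_lt (lt_of_le_of_lt (itm_L1 ha1 haT haA s i j).1 hl), mul_zero] at h1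
      exact (mul_eq_zero.1 h1.symm).resolve_left hsf
    · have h1 : (d : ℝ) * (((itm T A s i j).coeff l : ℤ) : ℝ) = (s.factorial : ℝ) * (((H i j).coeff l : ℤ) : ℝ) := by
        exact_mod_cast hcoef i j l
      have h2 := (itm_L1 ha1 haT haA s i j).coeff_le l
      have h3 : (s.factorial : ℝ) * |(((H i j).coeff l : ℤ) : ℝ)| ≤ (s.factorial : ℝ) * (Q ^ (k + 1) * K ^ (k + 1)) := by
        have e1 : |(s.factorial : ℝ) * (((H i j).coeff l : ℤ) : ℝ)| = (s.factorial : ℝ) * |(((H i j).coeff l : ℤ) : ℝ)| := by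
          rw [abs_mul, abs_of_pos hsR]
        rw [← e1, ← h1, abs_mul, abs_of_nonneg (by positivity)]
        calc (d : ℝ) * |(((itm T A s i j).coeff l : ℤ) : ℝ)| ≤ Q ^ (k + 1) * (K ^ s * s.factorial) :=
              mul_le_mul hdQ h2 (abs_nonneg _) (by positivity)
          _ ≤ Q ^ (k + 1) * (K ^ (k + 1) * s.factorial) := by
              have : K ^ s ≤ K ^ (k + 1) := pow_le_pow_right₀ hK1 (by omega)
              gcongr
          _ = _ := by ring
      rw [mul_pow]
      exact le_of_mul_le_mul_left h3 hsR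
    · have h1 := itm_spec hode s i
      have hne : (s.factorial : ℚ⟦X⟧) ≠ 0 := by
        intro h0
        have h5 := congrArg (coeff 0) h0
        have h6 : (s.factorial : ℚ⟦X⟧) = PowerSeries.C (s.factorial : ℚ) := by simp
        rw [h6, coeff_zero_C, map_zero] at h5
        exact Nat.factorial_ne_zero s (by exact_mod_cast h5)
      refine mul_left_cancel₀ hne ?_
      calc (s.factorial : ℚ⟦X⟧) * ((d : ℚ⟦X⟧) * (ps T ^ s * hd s (y i))) =
            (d : ℚ⟦X⟧) * ((s.factorial : ℚ⟦X⟧) * (ps T ^ s * hd s (y i))) := by ring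
        _ = (s.factorial : ℚ⟦X⟧) * ∑ j, ps (H i j) * y j := by
            rw [h1, Finset.mul_sum, Finset.mul_sum]
            refine Finset.sum_congr rfl fun j _ => ?_
            have h2 := congrArg ps (hH i j)
            have e1 : ps (d : Polynomial ℤ) = (d : ℚ⟦X⟧) := by
              have : (d : Polynomial ℤ) = Polynomial.C (d : ℤ) := by simp
              rw [this, ps_C]
              push_cast
              rfl
            have e2 : ps (s.factorial : Polynomial ℤ) = (s.factorial : ℚ⟦X⟧) := by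
              have : (s.factorial : Polynomial ℤ) = Polynomial.C (s.factorial : ℤ) := by simp
              rw [this, ps_C]
              push_cast
              rfl
            rw [ps_mul, ps_mul, e1, e2] at h2
            linear_combination y j * h2

omit [DecidableEq ι] in
/-- adjoining the constant function -/
theorem gsys_opt {q : ℕ} {C : ℝ} {T : Polynomial ℤ} {y : ι → ℚ⟦X⟧} (h : GSys q C T y) :
    GSys q C T (fun o : Option ι => o.elim 1 y) := by
  have hC := h.one_le
  have hC0 : 0 ≤ C := by linarith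
  refine ⟨hC, h.degT, h.sizeT, ?_, fun m => ?_, fun k => ?_⟩
  · rintro (_ | i) m
    · show |((coeff m (1 : ℚ⟦X⟧) : ℚ) : ℝ)| ≤ _
      rw [coeff_one]
      split_ifs
      · simpa using one_le_pow₀ hC
      · simp
        positivity
    · exact h.size i m
  · obtain ⟨d, hd0, hd, hd'⟩ := h.den m
    refine ⟨d, hd0, hd, ?_⟩
    rintro (_ | i) j hj
    · show ∃ a : ℤ, (d : ℚ) * coeff j (1 : ℚ⟦X⟧) = a
      rw [coeff_one]
      split_ifs
      · exact ⟨d, by simp⟩
      · exact ⟨0, by simp⟩
    · exact hd' i j hj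
  · obtain ⟨d, hd0, hdC, hd'⟩ := h.der k
    refine ⟨d, hd0, hdC, fun s hs => ?_⟩
    obtain ⟨G, g1, g2, g3⟩ := hd' s hs
    refine ⟨fun o o' => o.elim (o'.elim (if s = 0 then Polynomial.C (d : ℤ) else 0) fun _ => 0)
      fun i => o'.elim 0 fun j => G i j, ?_, ?_, ?_⟩
    · rintro (_ | i) (_ | j)
      · show (if s = 0 then Polynomial.C (d : ℤ) else 0).natDegree ≤ _
        split_ifs <;> simp
      · simp
      · simp
      · exact g1 i j
    · rintro (_ | i) (_ | j) l
      · show |(((if s = 0 then Polynomial.C (d : ℤ) else 0).coeff l : ℤ) : ℝ)| ≤ _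
        split_ifs
        · rw [Polynomial.coeff_C]
          split_ifs
          · push_cast
            rw [abs_of_nonneg (by positivity)]
            exact hdC
          · simp
            positivity
        · simp
          positivity
      · simp
        positivity
      · simp
        positivity
      · exact g2 i j l
    · rintro (_ | i)
      · rw [Fintype.sum_option]
        show (d : ℚ⟦X⟧) * (ps T ^ s * hd s (1 : ℚ⟦X⟧)) = ps (if s = 0 then Polynomial.C (d : ℤ) else 0) * 1 +
          ∑ j, ps 0 * y j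
        rcases Nat.eq_zero_or_pos s with rfl | hs0
        · rw [if_pos rfl, hd_zero, ps_C, ps_zero]
          simp
        · have h1 : hd s (1 : ℚ⟦X⟧) = 0 := by
            ext m
            rw [coeff_hd, coeff_one, if_neg (by omega)]
            simp
          rw [h1, if_neg (by omega), ps_zero]
          simp
      · rw [Fintype.sum_option]
        show (d : ℚ⟦X⟧) * (ps T ^ s * hd s (y i)) = ps 0 * 1 + ∑ j, ps (G i j) * y j
        rw [g3 i, ps_zero]
        simp

omit [DecidableEq ι] in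
/-- all products of `δ` functions -/
theorem gsys_tens {q : ℕ} {C : ℝ} {T : Polynomial ℤ} {y : ι → ℚ⟦X⟧} (h : GSys q C T y) (δ : ℕ) :
    ∃ C' : ℝ, GSys q C' T (fun b : Fin δ → ι => ∏ j, y (b j)) := by
  obtain ⟨E, hE⟩ := t_prod q
  induction δ with
  | zero =>
    refine ⟨C, ?_⟩
    have h1 := GSys.const (ι := Fin 0 → ι) h.one_le h.degT h.sizeT
    simpa using h1
  | succ δ ih =>
    obtain ⟨C', hC'⟩ := ih
    have h1 : GSys q (max C C') T y := h.mono le_rfl (le_max_left _ _)
    have h2 := hC'.mono le_rfl (le_max_right C C')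
    have h3 := (hE _ _ _ _ _ _ h1 h2).reindex (Fin.consEquiv fun _ => ι).symm
    refine ⟨(2 * max C C') ^ E, ?_⟩
    have h4 : (fun b : Fin (δ + 1) → ι => ∏ j, y (b j)) = fun j =>
        y ((Fin.consEquiv fun _ => ι).symm j).1 * ∏ l : Fin δ, y (((Fin.consEquiv fun _ => ι).symm j).2 l) := by
      funext b
      rw [Fin.prod_univ_succ]
      rfl
    rw [h4]
    exact h3

end

end Pool.Agent.Y120.GH
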