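import Mathlib

/-!
# Descent of linear relations along a fundamental matrix

`F` is a differential field with two subfields `F₁` and `F₂`; if a vector `y` which solves a linear differential system
over `F₁` with a fundamental matrix over `F₂` has a linear relation over `F₁`, it has one over the intersection.
-/

set_option autoImplicit false

namespace Pool.Agent.Y120.GH

section
variable {k F : Type} [Field k] [Field F] [Algebra k F] (D : Derivation k F F) {σ : Type} [Fintype σ]

open Classical in
/-- the support -/
noncomputable def spp (v : σ → F) : Finset σ := Finset.univ.filter fun i => v i ≠ 0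

lemma mem_spp {v : σ → F} {i : σ} : i ∈ spp v ↔ v i ≠ 0 := by
  simp [spp]

lemma spp_empty {v : σ → F} (h : spp v = ∅) : v = 0 := by
  funext i
  by_contra h0
  have : i ∈ spp v := mem_spp.2 h0
  rw [h] at this
  simp at this

/-- a subspace which is stable under the derivation is spanned by constant vectors -/
theorem const_span (N : Submodule F (σ → F)) (hN : ∀ v ∈ N, (fun i => D (v i)) ∈ N) :
    ∀ v ∈ N, v ∈ Submodule.span F {w : σ → F | w ∈ N ∧ ∀ i, D (w i) = 0} := by
  classical
  have key : ∀ n : ℕ, ∀ v ∈ N, (spp v).card = n → v ∈ Submodule.span F {w : σ → F | w ∈ N ∧ ∀ i, D (w i) = 0} := by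
    intro n
    induction n using Nat.strong_induction_on with
    | _ n ih =>
      intro v hv hn
      by_cases hv0 : v = 0
      · rw [hv0]
        exact Submodule.zero_mem _
      · -- a vector of minimal support
        have hex : ∃ m : ℕ, ∃ w ∈ N, w ≠ 0 ∧ spp w ⊆ spp v ∧ (spp w).card = m := ⟨_, v, hv, hv0, subset_rfl, rfl⟩
        obtain ⟨w, hw, hw0, hwv, hwc⟩ := Nat.find_spec hex
        have hmin : ∀ u ∈ N, spp u ⊆ spp v → (spp u).card < (spp w).card → u = 0 := by
          intro u hu huv hlt
          by_contra hu0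
          exact Nat.find_min hex (by rw [← hwc]; exact hlt) ⟨u, hu, hu0, huv, rfl⟩
        obtain ⟨a, ha⟩ : ∃ a, w a ≠ 0 := by
          by_contra h
          push Not at h
          exact hw0 (funext h)
        set w' : σ → F := (w a)⁻¹ • w with hw'
        have hw'N : w' ∈ N := N.smul_mem _ hw
        have hw'a : w' a = 1 := by simp [hw', ha]
        have hw's : ∀ i, w' i ≠ 0 → i ∈ spp w := by
          intro i hi
          rw [mem_spp]
          intro h
          exact hi (by simp [hw', h])
        have hconst : (fun i => D (w' i)) = 0 := by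
          refine hmin _ (hN _ hw'N) ?_ ?_
          · intro i hi
            refine hwv (hw's i ?_)
            intro h
            rw [mem_spp] at hi
            exact hi (by simp only [h, map_zero])
          · refine Finset.card_lt_card ?_
            rw [Finset.ssubset_iff_of_subset]
            · refine ⟨a, mem_spp.2 ha, ?_⟩
              rw [mem_spp, not_not]
              simp only [hw'a]
              exact D.map_one_eq_zero
            · intro i hi
              refine hw's i ?_
              intro h
              rw [mem_spp] at hi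
              exact hi (by simp only [h, map_zero])
        have hv' : v - v a • w' ∈ Submodule.span F {w : σ → F | w ∈ N ∧ ∀ i, D (w i) = 0} := by
          refine ih (spp (v - v a • w')).card ?_ _ (N.sub_mem hv (N.smul_mem _ hw'N)) rfl
          rw [← hn]
          refine Finset.card_lt_card ?_
          rw [Finset.ssubset_iff_of_subset]
          · refine ⟨a, hwv (mem_spp.2 ha), ?_⟩
            rw [mem_spp, not_not]
            simp [hw'a]
          · intro i hi
            by_contra hiv
            rw [mem_spp] at hi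
            rw [mem_spp, not_not] at hiv
            have h1 : w' i = 0 := by
              by_contra h
              exact absurd (hwv (hw's i h)) (by rw [mem_spp, not_not]; exact hiv)
            exact hi (by simp [hiv, h1])
        have h2 : v = (v - v a • w') + v a • w' := by abel
        rw [h2]
        exact Submodule.add_mem _ hv' (Submodule.smul_mem _ _ (Submodule.subset_span
          ⟨hw'N, fun i => congrFun hconst i⟩))
  intro v hv
  exact key _ v hv rfl

omit [Fintype σ] in
/-- linear functionals over a subfield preserve the vectors over the subfield in a subspace -/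
theorem functional_mem (K : Subfield F) (S : Set (σ → F)) (hS : ∀ w ∈ S, ∀ i, w i ∈ K) (P : (σ → F) → Prop)
    (hPS : ∀ w ∈ S, ∀ c : K, P ((c : F) • w)) (hPadd : ∀ u v, P u → P v → P (u + v)) (hP0 : P 0) (v : σ → F)
    (hv : v ∈ Submodule.span F S) (l : F →ₗ[K] K) : P fun i => ((l (v i) : K) : F) := by
  induction hv using Submodule.span_induction generalizing l with
  | mem x hx =>
    have h := hPS x hx (l 1)
    have h1 : (fun i => ((l (x i) : K) : F)) = ((l 1 : K) : F) • x := by
      funext i
      have h2 : x i = (⟨x i, hS x hx i⟩ : K) • (1 : F) := by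
        show x i = x i * 1
        rw [mul_one]
      rw [h2, map_smul]
      show x i * ((l 1 : K) : F) = ((l 1 : K) : F) * x i
      ring
    rw [h1]
    exact h
  | zero =>
    have h1 : (fun i => ((l ((0 : σ → F) i) : K) : F)) = 0 := by
      funext i
      simp
    rw [h1]
    exact hP0
  | add x y _ _ hx hy =>
    have h1 : (fun i => ((l ((x + y) i) : K) : F)) = (fun i => ((l (x i) : K) : F)) + fun i => ((l (y i) : K) : F) := by
      funext i
      simp
    rw [h1]
    exact hPadd _ _ (hx l) (hy l)
  | smul a x _ hx =>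
    have h1 := hx (l ∘ₗ (LinearMap.mulLeft K a))
    exact h1

/-- a functional which is nonzero at a given element -/
theorem exists_functional (K : Subfield F) {x : F} (hx : x ≠ 0) : ∃ l : F →ₗ[K] K, l x = 1 := by
  obtain ⟨l, hl⟩ := LinearMap.exists_leftInverse_of_injective (LinearMap.toSpanSingleton K F x)
    (by
      rw [LinearMap.ker_eq_bot]
      intro a b hab
      simp only [LinearMap.toSpanSingleton_apply] at hab
      have h1 : (a : F) * x = (b : F) * x := hab
      exact Subtype.ext (mul_right_cancel₀ hx h1))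
  refine ⟨l, ?_⟩
  have h1 := congrArg (fun f : K →ₗ[K] K => f 1) hl
  simpa using h1

/-- descent of relations -/
theorem descent (F₁ F₂ : Subfield F) (hD : ∀ x ∈ F₁, D x ∈ F₁) (hconst : ∀ x, D x = 0 → x ∈ F₂) (y : σ → F)
    (A Φ Ψ : σ → σ → F) (hA : ∀ i j, A i j ∈ F₁) (hy : ∀ i, D (y i) = ∑ j, A i j * y j) (hΨ : ∀ i j, Ψ i j ∈ F₂)
    (hDΨ : ∀ i j, D (Ψ i j) = - ∑ l, Ψ i l * A l j)
    (hΦΨ : ∀ i j, ∑ l, Φ i l * Ψ l j = open Classical in if i = j then 1 else 0)
    (B : Set σ) (c : σ → F) (hc1 : ∀ i, c i ∈ F₁) (hcB : ∀ i, i ∉ B → c i = 0) (hc0 : c ≠ 0) (hc : ∑ i, c i * y i = 0) :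
    ∃ c' : σ → F, (∀ i, c' i ∈ F₁ ∧ c' i ∈ F₂) ∧ (∀ i, i ∉ B → c' i = 0) ∧ c' ≠ 0 ∧ ∑ i, c' i * y i = 0 := by
  classical
  -- a relation of minimal support
  set R : Set (σ → F) := {v | (∀ i, v i ∈ F₁) ∧ ∑ i, v i * y i = 0} with hR
  have hex : ∃ m : ℕ, ∃ w ∈ R, w ≠ 0 ∧ (∀ i, i ∉ B → w i = 0) ∧ (spp w).card = m := ⟨_, c, ⟨hc1, hc⟩, hc0, hcB, rfl⟩
  obtain ⟨w, hw, hw0, hwB, hwc⟩ := Nat.find_spec hex
  have hmin : ∀ u ∈ R, (∀ i, i ∉ B → u i = 0) → (spp u).card < (spp w).card → u = 0 := by
    intro u hu huB hlt
    by_contra hu0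
    exact Nat.find_min hex (by rw [← hwc]; exact hlt) ⟨u, hu, hu0, huB, rfl⟩
  obtain ⟨a, ha⟩ : ∃ a, w a ≠ 0 := by
    by_contra h
    push Not at h
    exact hw0 (funext h)
  set c' : σ → F := fun i => (w a)⁻¹ * w i with hc'
  have hc'1 : ∀ i, c' i ∈ F₁ := fun i => F₁.mul_mem (F₁.inv_mem (hw.1 a)) (hw.1 i)
  have hc'a : c' a = 1 := by simp [hc', ha]
  have hc'r : ∑ i, c' i * y i = 0 := by
    simp only [hc', mul_assoc]
    rw [← Finset.mul_sum, hw.2, mul_zero]
  have hc's : ∀ i, w i = 0 → c' i = 0 := by
    intro i hi
    simp [hc', hi]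
  set N := Submodule.span F R with hN
  have hc'N : c' ∈ N := Submodule.subset_span ⟨hc'1, hc'r⟩
  -- stability
  have hstab : ∀ v ∈ N, (fun i => D (v i) + ∑ j, A j i * v j) ∈ N := by
    intro v hv
    induction hv using Submodule.span_induction with
    | mem x hx =>
      refine Submodule.subset_span ⟨fun i => F₁.add_mem (hD _ (hx.1 i))
        (F₁.sum_mem fun j _ => F₁.mul_mem (hA j i) (hx.1 j)), ?_⟩
      have h1 : D (∑ i, x i * y i) = 0 := by
        rw [hx.2, map_zero]
      rw [map_sum] at h1
      simp only [D.leibniz, smul_eq_mul, hy] at h1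
      rw [← h1, Finset.sum_add_distrib]
      simp only [add_mul, Finset.sum_add_distrib, Finset.mul_sum, Finset.sum_mul]
      rw [add_comm, Finset.sum_comm]
      congr 1
      · refine Finset.sum_congr rfl fun i _ => Finset.sum_congr rfl fun j _ => ?_
        ring
      · refine Finset.sum_congr rfl fun i _ => ?_
        ring
    | zero =>
      have h1 : (fun i => D ((0 : σ → F) i) + ∑ j, A j i * (0 : σ → F) j) = 0 := by
        funext i
        simp
      rw [h1]
      exact Submodule.zero_mem _
    | add u v _ _ hu hv =>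
      have h1 : (fun i => D ((u + v) i) + ∑ j, A j i * (u + v) j) =
          (fun i => D (u i) + ∑ j, A j i * u j) + fun i => D (v i) + ∑ j, A j i * v j := by
        funext i
        simp only [Pi.add_apply, map_add, mul_add, Finset.sum_add_distrib]
        ring
      rw [h1]
      exact Submodule.add_mem _ hu hv
    | smul f v hv' hv =>
      have h1 : (fun i => D ((f • v) i) + ∑ j, A j i * (f • v) j) =
          f • (fun i => D (v i) + ∑ j, A j i * v j) + D f • v := by
        funext i
        simp only [Pi.add_apply, Pi.smul_apply, smul_eq_mul, D.leibniz, mul_add, Finset.mul_sum]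
        have h2 : ∀ j, A j i * (f * v j) = f * (A j i * v j) := fun j => by ring
        simp only [h2]
        ring
      rw [h1]
      exact Submodule.add_mem _ (Submodule.smul_mem _ _ hv) (Submodule.smul_mem _ _ hv')
  -- the transformed space
  let L : (σ → F) →ₗ[F] (σ → F) :=
    { toFun := fun u i => ∑ j, Ψ j i * u j
      map_add' := fun u v => by
        funext i
        simp only [Pi.add_apply, mul_add, Finset.sum_add_distrib]
      map_smul' := fun f u => by
        funext i
        simp only [Pi.smul_apply, smul_eq_mul, RingHom.id_apply, Finset.mul_sum]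
        refine Finset.sum_congr rfl fun j _ => ?_
        ring }
  have hL : ∀ u i, L u i = ∑ j, Ψ j i * u j := fun u i => rfl
  have hcs := const_span D (N.comap L) (by
    intro u hu
    have hu' : L u ∈ N := hu
    show L (fun i => D (u i)) ∈ N
    have h1 := hstab _ hu'
    have h2 : (fun i => D (L u i) + ∑ j, A j i * L u j) = L fun i => D (u i) := by
      funext i
      simp only [hL, map_sum, D.leibniz, smul_eq_mul, hDΨ]
      rw [Finset.sum_add_distrib]
      have h3 : ∑ j, A j i * ∑ l, Ψ l j * u l = - ∑ j, u j * -∑ l, Ψ j l * A l i := by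
        simp only [Finset.mul_sum, mul_neg, Finset.sum_neg_distrib, neg_neg]
        rw [Finset.sum_comm]
        refine Finset.sum_congr rfl fun j _ => Finset.sum_congr rfl fun l _ => ?_
        ring
      rw [h3]
      ring
    rw [h2] at h1
    exact h1)
  -- the preimage of c'
  set u : σ → F := fun i => ∑ j, Φ j i * c' j with hu
  have hLu : L u = c' := by
    funext i
    rw [hL]
    simp only [hu, Finset.mul_sum]
    rw [Finset.sum_comm]
    have h1 : ∀ j, ∑ l, Ψ l i * (Φ j l * c' j) = (if j = i then 1 else 0) * c' j := by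
      intro j
      rw [← hΦΨ j i, Finset.sum_mul]
      refine Finset.sum_congr rfl fun l _ => ?_
      ring
    simp only [h1]
    simp
  have hucs := hcs u (by
    show L u ∈ N
    rw [hLu]
    exact hc'N)
  -- c' is in the span of the vectors over F₂ in N
  set S₂ : Set (σ → F) := {v | v ∈ N ∧ ∀ i, v i ∈ F₂} with hS₂
  have hc'S : c' ∈ Submodule.span F S₂ := by
    rw [← hLu]
    have h1 : L u ∈ (Submodule.span F {w : σ → F | w ∈ N.comap L ∧ ∀ i, D (w i) = 0}).map L := ⟨u, hucs, rfl⟩
    rw [Submodule.map_span] at h1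
    refine Submodule.span_mono ?_ h1
    rintro _ ⟨v, ⟨hv1, hv2⟩, rfl⟩
    refine ⟨hv1, fun i => ?_⟩
    rw [hL]
    exact F₂.sum_mem fun j _ => F₂.mul_mem (hΨ j i) (hconst _ (hv2 j))
  obtain ⟨l₂, hl₂⟩ := exists_functional F₂ (one_ne_zero (α := F))
  have h2 := functional_mem F₂ S₂ (fun w hw => hw.2) (fun v => v ∈ N) (fun w hw c => N.smul_mem _ hw.1)
    (fun u v hu hv => N.add_mem hu hv) N.zero_mem c' hc'S l₂
  set c₂ : σ → F := fun i => ((l₂ (c' i) : F₂) : F) with hc₂
  have hd : c₂ - c' = 0 := by
    by_contra hd
    obtain ⟨b, hb⟩ : ∃ b, (c₂ - c') b ≠ 0 := by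
      by_contra h
      push Not at h
      exact hd (funext h)
    obtain ⟨l₁, hl₁⟩ := exists_functional F₁ hb
    have h3 := functional_mem F₁ R (fun w hw => hw.1) (fun v => v ∈ R) (by
        intro w hw c
        refine ⟨fun i => F₁.mul_mem c.2 (hw.1 i), ?_⟩
        simp only [Pi.smul_apply, smul_eq_mul, mul_assoc]
        rw [← Finset.mul_sum, hw.2, mul_zero])
      (by
        intro u v hu hv
        refine ⟨fun i => F₁.add_mem (hu.1 i) (hv.1 i), ?_⟩
        simp only [Pi.add_apply, add_mul, Finset.sum_add_distrib]
        rw [hu.2, hv.2, add_zero])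
      ⟨fun i => F₁.zero_mem, by simp⟩ (c₂ - c') (N.sub_mem h2 hc'N) l₁
    have hdz : ∀ i, w i = 0 → (c₂ - c') i = 0 := by
      intro i hi
      show c₂ i - c' i = 0
      rw [hc₂]
      simp only [hc's i hi, map_zero, ZeroMemClass.coe_zero, sub_zero]
    have hda : (c₂ - c') a = 0 := by
      show c₂ a - c' a = 0
      rw [hc₂]
      simp only [hc'a, hl₂, OneMemClass.coe_one, sub_self]
    have h4 := hmin _ h3 (by
      intro i hi
      simp only [hdz i (hwB i hi), map_zero, ZeroMemClass.coe_zero]) (by
      refine Finset.card_lt_card ?_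
      rw [Finset.ssubset_iff_of_subset]
      · refine ⟨a, mem_spp.2 ha, ?_⟩
        rw [mem_spp, not_not]
        simp only [hda, map_zero, ZeroMemClass.coe_zero]
      · intro i hi
        rw [mem_spp] at hi ⊢
        intro h
        exact hi (by simp only [hdz i h, map_zero, ZeroMemClass.coe_zero]))
    have h5 := congrFun h4 b
    simp only [hl₁, OneMemClass.coe_one, Pi.zero_apply] at h5
    exact one_ne_zero h5
  have hcc : c₂ = c' := sub_eq_zero.1 hd
  refine ⟨c', fun i => ⟨hc'1 i, ?_⟩, fun i hi => hc's i (hwB i hi), ?_, hc'r⟩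
  · rw [← hcc]
    exact (l₂ (c' i)).2
  · intro h
    have := congrFun h a
    rw [hc'a] at this
    exact one_ne_zero this

end

end Pool.Agent.Y120.GH
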