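import Pool.Agent.Y120.G.Cnt

/-!
# Counting tuples for several families
-/

set_option autoImplicit false

open Pool.Agent.Y113 Pool.Agent.Y120.GF

namespace Pool.Agent.Y120.GH

/-- few bad tuples in every box -/
theorem count_ks (D k : ℕ) : ∀ (σ : Fin k → Type) [∀ i, Fintype (σ i)] (X : ∀ i, ℕ → σ i → ℂ) (_ : ∀ i, One (X i)),
    ∃ c C : ℝ, 0 < c ∧ 0 ≤ C ∧
    ∀ (V : Submodule ℚ ℂ) [Module.Finite ℚ V], Module.finrank ℚ V ≤ D → ∀ (x : Fin k → ℕ) (N : ℕ), 1 ≤ N →
      ∀ S : Finset (Fin k → ℕ),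
      (∀ t ∈ S, (∀ i, x i < t i ∧ t i ≤ x i + N) ∧ Bad V fun b : (∀ i, σ i) => ∏ i, X i (t i) (b i)) →
      (S.card : ℝ) ≤ C * (N : ℝ) ^ (k - 1) * ∑ i, (1 + N / ((x i : ℝ) + N) ^ c) := by
  classical
  induction k with
  | zero =>
    intro σ _ X h1
    refine ⟨1, 0, one_pos, le_rfl, ?_⟩
    intro V _ hV x N hN S hS
    have : S = ∅ := by
      rw [Finset.eq_empty_iff_forall_notMem]
      intro t ht
      obtain ⟨-, v, -, hv0, hv⟩ := hS t ht
      apply hv0
      funext b
      simp only [Finset.univ_eq_empty, Finset.prod_empty, mul_one, Finset.univ_unique, Finset.sum_singleton] at hv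
      rw [Subsingleton.elim b default]
      exact hv
    rw [this]
    simp
  | succ k ih =>
    intro σ _ X h1
    obtain ⟨c₁, C₁, hc₁, hC₁, h₁⟩ := ih (fun i => σ i.succ) (fun i => X i.succ) fun i => h1 i.succ
    obtain ⟨c₂, C₂, hc₂, hC₂, h₂⟩ := h1 0 (Fintype.card (∀ i : Fin k, σ i.succ) * D)
    set c := min c₁ c₂ with hc
    have hc0 : 0 < c := lt_min hc₁ hc₂
    refine ⟨c, C₁ + C₂, hc0, by positivity, ?_⟩
    intro V _ hV x N hN S hS
    have hN1 : (1 : ℝ) ≤ N := by exact_mod_cast hN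
    have hN0 : (0 : ℝ) < N := by linarith
    have hcmp : ∀ (y : ℕ) (c' : ℝ), c ≤ c' → 1 + (N : ℝ) / ((y : ℝ) + N) ^ c' ≤ 1 + (N : ℝ) / ((y : ℝ) + N) ^ c := by
      intro y c' hcc
      have hy : (0 : ℝ) ≤ y := by positivity
      have e1 : (1 : ℝ) ≤ (y : ℝ) + N := by linarith
      have e2 : ((y : ℝ) + N) ^ c ≤ ((y : ℝ) + N) ^ c' := Real.rpow_le_rpow_of_exponent_le e1 hcc
      have e3 : (0 : ℝ) < ((y : ℝ) + N) ^ c := by positivity
      have e4 : (N : ℝ) / ((y : ℝ) + N) ^ c' ≤ N / ((y : ℝ) + N) ^ c := div_le_div_of_nonneg_left hN0.le e3 e2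
      linarith
    -- the tails
    let Pt : (Fin k → ℕ) → (∀ i : Fin k, σ i.succ) → ℂ := fun τ b => ∏ i, X i.succ (τ i) (b i)
    set Sa := S.filter fun t => Bad V (Pt (Fin.tail t)) with hSa
    set Sb := S.filter fun t => ¬ Bad V (Pt (Fin.tail t)) with hSb
    have hsum : Sa.card + Sb.card = S.card :=
      Finset.card_filter_add_card_filter_not (s := S) (fun t => Bad V (Pt (Fin.tail t)))
    -- the alternative
    have halt : ∀ t ∈ Sb, Bad (Ext V (Pt (Fin.tail t))) (X 0 (t 0)) := by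
      intro t ht
      obtain ⟨htS, hnb⟩ := Finset.mem_filter.1 ht
      obtain ⟨-, v, hvV, hv0, hv⟩ := hS t htS
      set cf : σ 0 → ℂ := fun β => ∑ b' : (∀ i : Fin k, σ i.succ), v (Fin.cons β b') * Pt (Fin.tail t) b' with hcf
      refine ⟨cf, fun β => mem_Ext V _ fun b' => hvV _, ?_, ?_⟩
      · intro h0
        apply hnb
        obtain ⟨b, hb⟩ : ∃ b, v b ≠ 0 := by
          by_contra hno
          push Not at hno
          exact hv0 (funext hno)
        refine ⟨fun b' => v (Fin.cons (b 0) b'), fun b' => hvV _, ?_, congrFun h0 (b 0)⟩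
        intro h2
        apply hb
        have h3 := congrFun h2 (Fin.tail b)
        simp only [Fin.cons_self_tail, Pi.zero_apply] at h3
        exact h3
      · rw [← hv, ← Equiv.sum_comp (Fin.consEquiv σ), Fintype.sum_prod_type]
        refine Finset.sum_congr rfl fun β _ => ?_
        rw [hcf]
        simp only
        rw [Finset.sum_mul]
        refine Finset.sum_congr rfl fun b' _ => ?_
        have e0 : (Fin.consEquiv σ) (β, b') = Fin.cons β b' := rfl
        rw [e0, Fin.prod_univ_succ]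
        simp only [Fin.cons_zero, Fin.cons_succ]
        have : Pt (Fin.tail t) b' = ∏ i : Fin k, X i.succ (t i.succ) (b' i) := rfl
        rw [this]
        ring
    -- bad tails
    have hA : (Sa.card : ℝ) ≤ C₁ * (N : ℝ) ^ k * ∑ i : Fin k, (1 + N / ((x i.succ : ℝ) + N) ^ c) := by
      have e1 : Sa.card ≤ N * (Sa.image Fin.tail).card := by
        refine Finset.card_le_mul_card_image Sa N fun τ _ => ?_
        have e2 : ((Sa.filter fun t => Fin.tail t = τ).image fun t => t 0).card =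
            (Sa.filter fun t => Fin.tail t = τ).card := by
          refine Finset.card_image_of_injOn ?_
          intro t ht t' ht' heq
          have f1 := (Finset.mem_filter.1 ht).2
          have f2 := (Finset.mem_filter.1 ht').2
          rw [← Fin.cons_self_tail t, ← Fin.cons_self_tail t', f1, f2]
          simp only at heq
          rw [heq]
        rw [← e2]
        have e3 : ((Sa.filter fun t => Fin.tail t = τ).image fun t => t 0) ⊆ Finset.Ioc (x 0) (x 0 + N) := by
          intro y hy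
          obtain ⟨t, ht, rfl⟩ := Finset.mem_image.1 hy
          exact Finset.mem_Ioc.2 ((hS t (Finset.mem_filter.1 (Finset.mem_filter.1 ht).1).1).1 0)
        simpa using Finset.card_le_card e3
      have e4 : ((Sa.image Fin.tail).card : ℝ) ≤ C₁ * (N : ℝ) ^ (k - 1) * ∑ i : Fin k, (1 + N / ((x i.succ : ℝ) + N) ^ c₁) := by
        refine h₁ V hV (fun i => x i.succ) N hN _ fun τ hτ => ?_
        obtain ⟨t, ht, rfl⟩ := Finset.mem_image.1 hτ
        obtain ⟨htS, hb⟩ := Finset.mem_filter.1 ht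
        exact ⟨fun i => (hS t htS).1 i.succ, hb⟩
      have e5 : (Sa.card : ℝ) ≤ (N : ℝ) * ((Sa.image Fin.tail).card : ℝ) := by exact_mod_cast e1
      rcases Nat.eq_zero_or_pos k with rfl | hk
      · simp only [Finset.univ_eq_empty, Finset.sum_empty, mul_zero] at e4 ⊢
        nlinarith
      · have e6 : (N : ℝ) ^ k = N * (N : ℝ) ^ (k - 1) := by
          rw [← pow_succ']
          congr 1
          omega
        calc (Sa.card : ℝ) ≤ (N : ℝ) * (C₁ * (N : ℝ) ^ (k - 1) * ∑ i : Fin k, (1 + N / ((x i.succ : ℝ) + N) ^ c₁)) :=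
              e5.trans (mul_le_mul_of_nonneg_left e4 hN0.le)
          _ = C₁ * (N : ℝ) ^ k * ∑ i : Fin k, (1 + N / ((x i.succ : ℝ) + N) ^ c₁) := by
              rw [e6]
              ring
          _ ≤ C₁ * (N : ℝ) ^ k * ∑ i : Fin k, (1 + N / ((x i.succ : ℝ) + N) ^ c) := by
              refine mul_le_mul_of_nonneg_left ?_ (by positivity)
              exact Finset.sum_le_sum fun i _ => hcmp _ _ (min_le_left _ _)
    -- good tails
    have hB : (Sb.card : ℝ) ≤ C₂ * (N : ℝ) ^ k * (1 + N / ((x 0 : ℝ) + N) ^ c) := by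
      set N' : ℕ := ⌊C₂ * (1 + N / ((x 0 : ℝ) + N) ^ c₂)⌋₊ with hN'
      have hN1' : (N' : ℝ) ≤ C₂ * (1 + N / ((x 0 : ℝ) + N) ^ c₂) := Nat.floor_le (by positivity)
      have e1 : Sb.card ≤ N' * (Sb.image Fin.tail).card := by
        refine Finset.card_le_mul_card_image Sb N' fun τ _ => ?_
        have e2 : ((Sb.filter fun t => Fin.tail t = τ).image fun t => t 0).card =
            (Sb.filter fun t => Fin.tail t = τ).card := by
          refine Finset.card_image_of_injOn ?_
          intro t ht t' ht' heq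
          have f1 := (Finset.mem_filter.1 ht).2
          have f2 := (Finset.mem_filter.1 ht').2
          rw [← Fin.cons_self_tail t, ← Fin.cons_self_tail t', f1, f2]
          simp only at heq
          rw [heq]
        rw [← e2, hN']
        refine Nat.le_floor ?_
        refine h₂ (Ext V (Pt τ)) ((finrank_Ext V _).trans (Nat.mul_le_mul_left _ hV)) (x 0) N hN _ fun y hy => ?_
        obtain ⟨t, ht, rfl⟩ := Finset.mem_image.1 hy
        obtain ⟨htb, htail⟩ := Finset.mem_filter.1 ht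
        have h6 := (hS t (Finset.mem_filter.1 htb).1).1 0
        refine ⟨h6.1, h6.2, ?_⟩
        have := halt t htb
        rw [htail] at this
        exact this
      have e4 : ((Sb.image Fin.tail).card : ℝ) ≤ (N : ℝ) ^ k := by
        have f1 : (Sb.image Fin.tail) ⊆ Fintype.piFinset fun i : Fin k => Finset.Ioc (x i.succ) (x i.succ + N) := by
          intro τ hτ
          obtain ⟨t, ht, rfl⟩ := Finset.mem_image.1 hτ
          rw [Fintype.mem_piFinset]
          intro i
          exact Finset.mem_Ioc.2 ((hS t (Finset.mem_filter.1 ht).1).1 i.succ)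
        have f2 := Finset.card_le_card f1
        rw [Fintype.card_piFinset] at f2
        simp only [Nat.card_Ioc, Nat.add_sub_cancel_left, Finset.prod_const, Finset.card_univ, Fintype.card_fin] at f2
        exact_mod_cast f2
      have e5 : (Sb.card : ℝ) ≤ (N' : ℝ) * ((Sb.image Fin.tail).card : ℝ) := by exact_mod_cast e1
      calc (Sb.card : ℝ) ≤ (C₂ * (1 + N / ((x 0 : ℝ) + N) ^ c₂)) * (N : ℝ) ^ k :=
            e5.trans (mul_le_mul hN1' e4 (by positivity) (by positivity))
        _ ≤ (C₂ * (1 + N / ((x 0 : ℝ) + N) ^ c)) * (N : ℝ) ^ k := by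
            refine mul_le_mul_of_nonneg_right ?_ (by positivity)
            exact mul_le_mul_of_nonneg_left (hcmp _ _ (min_le_right _ _)) hC₂
        _ = C₂ * (N : ℝ) ^ k * (1 + N / ((x 0 : ℝ) + N) ^ c) := by ring
    have h5 : (S.card : ℝ) = Sa.card + Sb.card := by exact_mod_cast hsum.symm
    have h6 : 0 ≤ ∑ i : Fin k, (1 + (N : ℝ) / ((x i.succ : ℝ) + N) ^ c) := Finset.sum_nonneg fun i _ => by positivity
    have h7 : 0 ≤ 1 + (N : ℝ) / ((x 0 : ℝ) + N) ^ c := by positivity
    have h8 : 0 ≤ (N : ℝ) ^ k := by positivity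
    rw [h5, Nat.add_sub_cancel, Fin.sum_univ_succ]
    calc (Sa.card : ℝ) + Sb.card ≤ C₁ * (N : ℝ) ^ k * ∑ i : Fin k, (1 + N / ((x i.succ : ℝ) + N) ^ c) +
          C₂ * (N : ℝ) ^ k * (1 + N / ((x 0 : ℝ) + N) ^ c) := add_le_add hA hB
      _ ≤ (C₁ + C₂) * (N : ℝ) ^ k * ((1 + N / ((x 0 : ℝ) + N) ^ c) + ∑ i : Fin k, (1 + N / ((x i.succ : ℝ) + N) ^ c)) := by
          have g1 : 0 ≤ C₁ * (N : ℝ) ^ k * (1 + N / ((x 0 : ℝ) + N) ^ c) := by positivity
          have g2 : 0 ≤ C₂ * (N : ℝ) ^ k * ∑ i : Fin k, (1 + (N : ℝ) / ((x i.succ : ℝ) + N) ^ c) := by positivity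
          linarith


end Pool.Agent.Y120.GH
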