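import Pool.Agent.Y120.H.Log

/-!
# Relations with coefficients which are holomorphic in a disc are rational
-/

set_option autoImplicit false

open Filter Topology Metric Set

namespace Pool.Agent.Y120.GH

/-! ## descent with a fundamental matrix -/

section
variable {k F : Type} [Field k] [Field F] [Algebra k F] (D : Derivation k F F) {σ : Type} [Fintype σ] [DecidableEq σ]

theorem descent_matrix (F₁ F₂ : Subfield F) (hD : ∀ x ∈ F₁, D x ∈ F₁) (hconst : ∀ x, D x = 0 → x ∈ F₂) (y : σ → F)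
    (A : σ → σ → F) (Φ : Matrix σ σ F) (hA : ∀ i j, A i j ∈ F₁) (hy : ∀ i, D (y i) = ∑ j, A i j * y j)
    (hΦ : ∀ i j, Φ i j ∈ F₂) (hDΦ : ∀ i j, D (Φ i j) = ∑ l, A i l * Φ l j) (hdet : Φ.det ≠ 0)
    (B : Set σ) (c : σ → F) (hc1 : ∀ i, c i ∈ F₁) (hcB : ∀ i, i ∉ B → c i = 0) (hc0 : c ≠ 0) (hc : ∑ i, c i * y i = 0) :
    ∃ c' : σ → F, (∀ i, c' i ∈ F₁ ∧ c' i ∈ F₂) ∧ (∀ i, i ∉ B → c' i = 0) ∧ c' ≠ 0 ∧ ∑ i, c' i * y i = 0 := by
  classical
  let Φ' : Matrix σ σ F₂ := fun i j => ⟨Φ i j, hΦ i j⟩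
  have h1 : Φ'.map F₂.subtype = Φ := by
    ext i j
    rfl
  have h2 : Φ'.det ≠ 0 := by
    intro h
    apply hdet
    rw [← h1, ← RingHom.mapMatrix_apply, ← RingHom.map_det, h, map_zero]
  have hu : IsUnit Φ'.det := isUnit_iff_ne_zero.2 h2
  set Ψ : Matrix σ σ F := Φ'⁻¹.map F₂.subtype with hΨ
  have h3 : Φ * Ψ = 1 := by
    rw [hΨ, ← h1, ← Matrix.map_mul, Matrix.mul_nonsing_inv _ hu]
    exact Matrix.map_one _ (map_zero _) (map_one _)
  have h4 : Ψ * Φ = 1 := by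
    rw [hΨ, ← h1, ← Matrix.map_mul, Matrix.nonsing_inv_mul _ hu]
    exact Matrix.map_one _ (map_zero _) (map_one _)
  have h5 : (Ψ.map D + Ψ * (Matrix.of A)) * Φ = 0 := by
    ext i j
    have h6 := congrArg D (congrFun (congrFun h4 i) j)
    rw [Matrix.mul_apply, map_sum] at h6
    simp only [D.leibniz, smul_eq_mul, hDΦ] at h6
    have h7 : D ((1 : Matrix σ σ F) i j) = 0 := by
      rw [Matrix.one_apply]
      split_ifs
      · exact D.map_one_eq_zero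
      · exact map_zero D
    rw [h7, Finset.sum_add_distrib] at h6
    rw [Matrix.zero_apply, ← h6, Matrix.add_mul, Matrix.add_apply, Matrix.mul_apply, Matrix.mul_assoc, Matrix.mul_apply, add_comm]
    congr 1
    refine Finset.sum_congr rfl fun l _ => ?_
    rw [Matrix.map_apply, mul_comm]
  have h6 : Ψ.map D + Ψ * (Matrix.of A) = 0 := by
    have := congrArg (fun X => X * Ψ) h5
    simpa only [Matrix.mul_assoc, h3, Matrix.mul_one, Matrix.zero_mul] using this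
  refine descent D F₁ F₂ hD hconst y A Φ Ψ hA hy (fun i j => (Φ'⁻¹ i j).2) (fun i j => ?_) (fun i j => ?_) B c hc1 hcB hc0 hc
  · have h7 := congrFun (congrFun h6 i) j
    rw [Matrix.add_apply, Matrix.map_apply, Matrix.mul_apply, Matrix.zero_apply] at h7
    exact eq_neg_of_add_eq_zero_left h7
  · have h7 := congrFun (congrFun h3 i) j
    rw [Matrix.mul_apply, Matrix.one_apply] at h7
    rw [h7]
    split_ifs <;> rfl

end

/-! ## the germs at a point outside the disc -/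

section
variable {ρ ρ' : ℝ} {p : ℂ}

/-- outer functions at `p` -/
noncomputable def ouA (hρ : 0 < ρ) (hp : ρ < ‖p‖) (f : Cw ρ) : An {p} :=
  ⟨ou f.1, fun z hz => by
    rw [Set.mem_singleton_iff] at hz
    rw [hz]
    exact ou_an hρ.le f.2 p hp⟩

lemma ev_out (hp : ρ < ‖p‖) : ∀ᶠ z in 𝓝 p, ρ < ‖z‖ := (isOpen_lt continuous_const continuous_norm).mem_nhds hp

/-- the germs of the outer functions -/
noncomputable def ouH (hρ : 0 < ρ) (hp : ρ < ‖p‖) : Cw ρ →+* FF where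
  toFun f := em p (ouA hρ hp f)
  map_one' := by
    have h : ouA hρ hp 1 = 1 := Subtype.ext (funext fun z => ou_one z)
    rw [h, map_one]
  map_mul' := fun f g => by
    rw [← map_mul]
    refine em_congr ?_
    filter_upwards [ev_out hp] with z hz
    exact ou_mul hρ.le f.2 g.2 hz
  map_zero' := by
    have h : ouA hρ hp 0 = 0 := Subtype.ext (funext fun z => ou_zero z)
    rw [h, map_zero]
  map_add' := fun f g => by
    rw [← map_add]
    refine em_congr ?_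
    filter_upwards [ev_out hp] with z hz
    exact ou_add hρ.le f.2 g.2 hz

lemma ouH_apply (hρ : 0 < ρ) (hp : ρ < ‖p‖) (f : Cw ρ) : ouH hρ hp f = em p (ouA hρ hp f) := rfl

lemma ouH_inj (hρ : 0 < ρ) (hp : ρ < ‖p‖) {f : Cw ρ} (h : ouH hρ hp f = 0) : f = 0 := by
  rw [ouH_apply, em_zero_iff] at h
  exact Subtype.ext (ou_inj hρ.le f.2 hp h)

/-- `1 / z` -/
noncomputable def ww (hρ : 0 < ρ) (hp : ρ < ‖p‖) : FF := ouH hρ hp ⟨PowerSeries.X, X_mem⟩

/-- the derivative -/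
noncomputable def dCw (hρ : 0 < ρ) (f : Cw ρ) : Cw ρ := ⟨PowerSeries.derivative ℂ f.1, deriv_mem_Cw hρ.le f.2⟩

lemma DD_ouH (hρ : 0 < ρ) (hp : ρ < ‖p‖) (f : Cw ρ) : DD (ouH hρ hp f) = - (ww hρ hp) ^ 2 * ouH hρ hp (dCw hρ f) := by
  rw [ouH_apply, DD_em, ww, ← map_pow, ← map_neg, ← map_mul, ouH_apply]
  refine em_congr ?_
  filter_upwards [ev_out hp] with z hz
  have h1 : (⟨PowerSeries.X, X_mem⟩ ^ 2 : Cw ρ).1 = PowerSeries.X ^ 2 := rfl
  show deriv (ou f.1) z = ou ((-(⟨PowerSeries.X, X_mem⟩ ^ 2 : Cw ρ) * dCw hρ f).1) z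
  rw [ou_deriv hρ.le f.2 hz]
  have h2 : ((-(⟨PowerSeries.X, X_mem⟩ ^ 2 : Cw ρ) * dCw hρ f).1) =
      (PowerSeries.C (-1) * (PowerSeries.X * PowerSeries.X)) * PowerSeries.derivative ℂ f.1 := by
    show -(PowerSeries.X ^ 2) * PowerSeries.derivative ℂ f.1 = _
    rw [map_neg, map_one, pow_two]
    ring
  rw [h2, ou_mul hρ.le (Subring.mul_mem _ (C_mem _) (Subring.mul_mem _ X_mem X_mem)) (deriv_mem_Cw hρ.le f.2) hz,
    ou_mul hρ.le (C_mem _) (Subring.mul_mem _ X_mem X_mem) hz, ou_mul hρ.le X_mem X_mem hz, ou_C, ou_X]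
  ring

lemma slit (hpim : 0 < p.im) : p ∈ Complex.slitPlane := Complex.mem_slitPlane_iff.2 (Or.inr hpim.ne')

/-- `- log z` -/
noncomputable def lgA (hpim : 0 < p.im) : An {p} :=
  ⟨fun z => -Complex.log z, fun z hz => by
    rw [Set.mem_singleton_iff] at hz
    rw [hz]
    exact (analyticAt_clog (slit hpim)).neg⟩

/-- the germ of `- log z` -/
noncomputable def lgF (hpim : 0 < p.im) : FF := em p (lgA hpim)

lemma DD_lgF (hρ : 0 < ρ) (hp : ρ < ‖p‖) (hpim : 0 < p.im) : DD (lgF hpim) = - ww hρ hp := by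
  rw [lgF, DD_em, ww, ← map_neg, ouH_apply]
  refine em_congr ?_
  have h0 : ∀ᶠ z : ℂ in 𝓝 p, 0 < z.im := (isOpen_lt continuous_const Complex.continuous_im).mem_nhds hpim
  filter_upwards [h0] with z hz
  have h1 : ((-(⟨PowerSeries.X, X_mem⟩ : Cw ρ)).1) = PowerSeries.C (-1) * PowerSeries.X := by
    show -PowerSeries.X = _
    rw [map_neg, map_one]
    ring
  show deriv (fun z => -Complex.log z) z = ou ((-(⟨PowerSeries.X, X_mem⟩ : Cw ρ)).1) z
  rw [deriv.fun_neg, (Complex.hasDerivAt_log (slit hz)).deriv, h1]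
  unfold ou inn
  rw [tsum_eq_single 1]
  · rw [PowerSeries.coeff_C_mul, PowerSeries.coeff_X, if_pos rfl]
    simp
  · intro m hm
    rw [PowerSeries.coeff_C_mul, PowerSeries.coeff_X, if_neg hm]
    simp

/-- the evaluation of polynomials in the logarithm -/
noncomputable def E2 (hρ : 0 < ρ) (hp : ρ < ‖p‖) (hpim : 0 < p.im) : Polynomial (Cw ρ) →+* FF :=
  Polynomial.eval₂RingHom (ouH hρ hp) (lgF hpim)

lemma E2_eq (hρ : 0 < ρ) (hp : ρ < ‖p‖) (hpim : 0 < p.im) (Q : Polynomial (Cw ρ)) {m : ℕ} (hm : Q.natDegree < m) :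
    E2 hρ hp hpim Q = ∑ j ∈ Finset.range m, ouH hρ hp (Q.coeff j) * lgF hpim ^ j := by
  show Polynomial.eval₂ _ _ Q = _
  rw [Polynomial.eval₂_eq_sum_range' _ hm]

lemma E2_em (hρ : 0 < ρ) (hp : ρ < ‖p‖) (hpim : 0 < p.im) (Q : Polynomial (Cw ρ)) {m : ℕ} (hm : Q.natDegree < m) :
    E2 hρ hp hpim Q = em p (∑ j ∈ Finset.range m, ouA hρ hp (Q.coeff j) * lgA hpim ^ j) := by
  rw [E2_eq hρ hp hpim Q hm, map_sum]
  refine Finset.sum_congr rfl fun j _ => ?_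
  rw [map_mul, map_pow]
  rfl

lemma E2_fun (hρ : 0 < ρ) (hp : ρ < ‖p‖) (hpim : 0 < p.im) (Q : Polynomial (Cw ρ)) (m : ℕ) (z : ℂ) :
    (∑ j ∈ Finset.range m, ouA hρ hp (Q.coeff j) * lgA hpim ^ j : An {p}).1 z =
      ∑ j ∈ Finset.range m, ou (Q.coeff j).1 z * (-Complex.log z) ^ j := by
  have h : (∑ j ∈ Finset.range m, ouA hρ hp (Q.coeff j) * lgA hpim ^ j : An {p}).1 =
      ∑ j ∈ Finset.range m, (ouA hρ hp (Q.coeff j)).1 * (lgA hpim).1 ^ j := by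
    rw [AddSubmonoidClass.coe_finsetSum]
    rfl
  rw [h, Finset.sum_apply]
  rfl

/-- the germ of a function on the disc -/
noncomputable def E1 (hp' : ‖p‖ < ρ') : An (ball (0 : ℂ) ρ') →+* FF :=
  (em p).comp (Subring.inclusion (S := An (ball (0 : ℂ) ρ')) (T := An {p}) (by
    intro f hf z hz
    rw [Set.mem_singleton_iff] at hz
    rw [hz]
    exact hf p (mem_ball_zero_iff.2 hp')))

lemma E1_apply (hp' : ‖p‖ < ρ') (f : An (ball (0 : ℂ) ρ')) (hf : f.1 ∈ An {p}) : E1 hp' f = em p ⟨f.1, hf⟩ := rfl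

lemma mem_p (hp' : ‖p‖ < ρ') (f : An (ball (0 : ℂ) ρ')) : f.1 ∈ An {p} := by
  intro z hz
  rw [Set.mem_singleton_iff] at hz
  rw [hz]
  exact f.2 p (mem_ball_zero_iff.2 hp')

/-- cross relations hold coefficientwise -/
theorem cross (hρ : 0 < ρ) (hp : ρ < ‖p‖) (hp' : ‖p‖ < ρ') (hpim : 0 < p.im) (c₁ c₂ : An (ball (0 : ℂ) ρ'))
    (P Q : Polynomial (Cw ρ)) (h : E1 hp' c₁ * E2 hρ hp hpim Q = E1 hp' c₂ * E2 hρ hp hpim P) :
    ∀ j, ∀ z ∈ Ann ρ ρ', c₁.1 z * ou (Q.coeff j).1 z = c₂.1 z * ou (P.coeff j).1 z := by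
  intro j
  set m := max (max P.natDegree Q.natDegree) j + 1 with hm
  have hP : P.natDegree < m := by omega
  have hQ : Q.natDegree < m := by omega
  have hj : j < m := by omega
  rw [E2_em hρ hp hpim Q hQ, E2_em hρ hp hpim P hP, E1_apply hp' c₁ (mem_p hp' c₁), E1_apply hp' c₂ (mem_p hp' c₂),
    ← map_mul, ← map_mul, ← sub_eq_zero, ← map_sub, em_zero_iff] at h
  have h2 := log_sep hρ m (fun j z => c₁.1 z * ou (Q.coeff j).1 z - c₂.1 z * ou (P.coeff j).1 z) (fun j z hz => by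
    have hzb : z ∈ ball (0 : ℂ) ρ' := mem_ball_zero_iff.2 hz.2
    exact ((c₁.2 z hzb).mul (ou_an hρ.le (Q.coeff j).2 z hz.1)).sub ((c₂.2 z hzb).mul (ou_an hρ.le (P.coeff j).2 z hz.1)))
    p ⟨hp, hp'⟩ hpim (by
    filter_upwards [h] with z hz
    have h3 : (⟨c₁.1, mem_p hp' c₁⟩ * (∑ j ∈ Finset.range m, ouA hρ hp (Q.coeff j) * lgA hpim ^ j) -
        ⟨c₂.1, mem_p hp' c₂⟩ * (∑ j ∈ Finset.range m, ouA hρ hp (P.coeff j) * lgA hpim ^ j) : An {p}).1 z =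
        c₁.1 z * (∑ j ∈ Finset.range m, ouA hρ hp (Q.coeff j) * lgA hpim ^ j : An {p}).1 z -
        c₂.1 z * (∑ j ∈ Finset.range m, ouA hρ hp (P.coeff j) * lgA hpim ^ j : An {p}).1 z := rfl
    rw [h3, E2_fun, E2_fun, Finset.mul_sum, Finset.mul_sum, ← Finset.sum_sub_distrib] at hz
    refine Eq.trans ?_ hz
    refine Finset.sum_congr rfl fun j _ => ?_
    ring)
  intro z hz
  exact sub_eq_zero.1 (h2 j hj z hz)

lemma E2_inj (hρ : 0 < ρ) (hp : ρ < ‖p‖) (hpim : 0 < p.im) {Q : Polynomial (Cw ρ)} (h : E2 hρ hp hpim Q = 0) : Q = 0 := by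
  have hp' : ‖p‖ < ‖p‖ + 1 := by linarith
  have h1 := cross (ρ' := ‖p‖ + 1) hρ hp hp' hpim 1 0 0 Q (by rw [h, mul_zero, map_zero, zero_mul])
  ext1 j
  rw [Polynomial.coeff_zero]
  refine Subtype.ext (ou_inj hρ.le (Q.coeff j).2 hp ?_)
  have h2 : ∀ᶠ z in 𝓝 p, z ∈ Ann ρ (‖p‖ + 1) :=
    ((isOpen_lt continuous_const continuous_norm).inter (isOpen_lt continuous_norm continuous_const)).mem_nhds ⟨hp, hp'⟩
  filter_upwards [h2] with z hz
  have h3 := h1 j z hz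
  have h4 : (1 : An (ball (0 : ℂ) (‖p‖ + 1))).1 z = 1 := rfl
  have h5 : (0 : An (ball (0 : ℂ) (‖p‖ + 1))).1 z = 0 := rfl
  rw [h4, h5, one_mul, zero_mul] at h3
  exact h3

end

end Pool.Agent.Y120.GH
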