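import Pool.Agent.Y120.H.Core

/-!
# Relations with coefficients which are holomorphic in a disc are rational, end of the proof
-/

set_option autoImplicit false

open Filter Topology Metric Set

namespace Pool.Agent.Y120.GH

section
variable {ρ ρ' : ℝ} {p : ℂ}

/-- quotients -/
lemma mem_closure_range {R : Type} [CommRing R] (f : R →+* FF) {x : FF} (h : x ∈ Subfield.closure (Set.range f)) :
    ∃ a b : R, x = f a / f b := by
  rw [Subfield.mem_closure_iff] at h
  obtain ⟨y, hy, z, hz, rfl⟩ := h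
  have h1 : Subring.closure (Set.range f) = f.range := by
    have : (Set.range f) = (f.range : Set FF) := (RingHom.coe_range f).symm
    rw [this, Subring.closure_eq]
  rw [h1] at hy hz
  obtain ⟨a, rfl⟩ := hy
  obtain ⟨b, rfl⟩ := hz
  exact ⟨a, b, rfl⟩

/-- the polynomial functions -/
noncomputable def pA (U : Set ℂ) (P : Polynomial ℂ) : An U := ⟨fun z => P.eval z, fun z _ => P.differentiable.analyticAt z⟩

lemma E1_pA (hp' : ‖p‖ < ρ') (P : Polynomial ℂ) :
    E1 hp' (pA _ P) = Polynomial.aeval (E1 hp' (pA _ Polynomial.X)) P := by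
  have key : ((E1 hp').comp (RingHom.mk' ⟨⟨pA (ball (0 : ℂ) ρ'), Subtype.ext (funext fun z => by
      show (1 : Polynomial ℂ).eval z = 1
      simp)⟩, fun P Q => Subtype.ext (funext fun z => by
      show (P * Q).eval z = P.eval z * Q.eval z
      simp)⟩ (fun P Q => Subtype.ext (funext fun z => by
      show (P + Q).eval z = P.eval z + Q.eval z
      simp)))) = (Polynomial.aeval (E1 hp' (pA _ Polynomial.X)) : Polynomial ℂ →ₐ[ℂ] FF).toRingHom := by
    refine Polynomial.ringHom_ext (fun c => ?_) ?_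
    · show E1 hp' (pA _ (Polynomial.C c)) = Polynomial.aeval (E1 hp' (pA _ Polynomial.X)) (Polynomial.C c)
      rw [Polynomial.aeval_C, ← em_const (p := p), E1_apply hp' _ (mem_p hp' _)]
      congr 1
      refine Subtype.ext (funext fun z => ?_)
      show (Polynomial.C c).eval z = c
      simp
    · show E1 hp' (pA _ Polynomial.X) = Polynomial.aeval (E1 hp' (pA _ Polynomial.X)) Polynomial.X
      rw [Polynomial.aeval_X]
  exact congrArg (fun f : Polynomial ℂ →+* FF => f P) key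

/-- the polynomial as an outer function -/
noncomputable def pC (ρ : ℝ) (P : Polynomial ℂ) : Cw ρ := ⟨P, poly_mem P⟩

lemma ouH_pC (hρ : 0 < ρ) (hp : ρ < ‖p‖) (P : Polynomial ℂ) : ouH hρ hp (pC ρ P) = Polynomial.aeval (ww hρ hp) P := by
  have key : ((ouH hρ hp).comp (RingHom.mk' ⟨⟨pC ρ, Subtype.ext (by
      show ((1 : Polynomial ℂ) : PowerSeries ℂ) = 1
      simp)⟩, fun P Q => Subtype.ext (by
      show ((P * Q : Polynomial ℂ) : PowerSeries ℂ) = (P : PowerSeries ℂ) * (Q : PowerSeries ℂ)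
      simp)⟩ (fun P Q => Subtype.ext (by
      show ((P + Q : Polynomial ℂ) : PowerSeries ℂ) = (P : PowerSeries ℂ) + (Q : PowerSeries ℂ)
      simp)))) = (Polynomial.aeval (ww hρ hp) : Polynomial ℂ →ₐ[ℂ] FF).toRingHom := by
    refine Polynomial.ringHom_ext (fun c => ?_) ?_
    · show ouH hρ hp (pC ρ (Polynomial.C c)) = Polynomial.aeval (ww hρ hp) (Polynomial.C c)
      rw [Polynomial.aeval_C, ← em_const (p := p), ouH_apply]
      congr 1
      refine Subtype.ext (funext fun z => ?_)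
      show ou ((Polynomial.C c : Polynomial ℂ) : PowerSeries ℂ) z = c
      rw [Polynomial.coe_C, ou_C]
    · show ouH hρ hp (pC ρ Polynomial.X) = Polynomial.aeval (ww hρ hp) Polynomial.X
      rw [Polynomial.aeval_X, ww]
      congr 1
      exact Subtype.ext (by
        show ((Polynomial.X : Polynomial ℂ) : PowerSeries ℂ) = PowerSeries.X
        simp)
  exact congrArg (fun f : Polynomial ℂ →+* FF => f P) key

lemma zeta_ww (hρ : 0 < ρ) (hp : ρ < ‖p‖) (hp' : ‖p‖ < ρ') : E1 hp' (pA _ Polynomial.X) * ww hρ hp = 1 := by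
  rw [E1_apply hp' _ (mem_p hp' _), ww, ouH_apply, ← map_mul, ← map_one (em p)]
  refine em_congr ?_
  filter_upwards [ev_out hp] with z hz
  show Polynomial.eval z Polynomial.X * ou PowerSeries.X z = 1
  rw [ou_X, Polynomial.eval_X]
  have hz0 : z ≠ 0 := by
    intro h
    rw [h, norm_zero] at hz
    linarith
  field_simp

lemma ww_ne (hρ : 0 < ρ) (hp : ρ < ‖p‖) : ww hρ hp ≠ 0 := by
  have hp' : ‖p‖ < ‖p‖ + 1 := by linarith
  exact right_ne_zero_of_mul_eq_one (zeta_ww hρ hp hp')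

lemma const_F1 (hp' : ‖p‖ < ρ') (c : ℂ) : algebraMap ℂ FF c ∈ Subfield.closure (Set.range (E1 (p := p) hp')) := by
  refine Subfield.subset_closure ⟨pA _ (Polynomial.C c), ?_⟩
  rw [E1_pA, Polynomial.aeval_C]

lemma F1_stable (hp' : ‖p‖ < ρ') {x : FF} (h : x ∈ Subfield.closure (Set.range (E1 (p := p) hp'))) :
    DD x ∈ Subfield.closure (Set.range (E1 (p := p) hp')) := by
  induction h using Subfield.closure_induction with
  | mem x hx =>
    obtain ⟨f, rfl⟩ := hx
    refine Subfield.subset_closure ⟨⟨deriv f.1, f.2.deriv⟩, ?_⟩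
    rw [E1_apply hp' f (mem_p hp' f), DD_em]
    rfl
  | one =>
    rw [DD.map_one_eq_zero]
    exact zero_mem _
  | add x y _ _ hx hy =>
    rw [map_add]
    exact add_mem hx hy
  | neg x _ hx =>
    rw [map_neg]
    exact neg_mem hx
  | inv x hx' hx =>
    rw [Derivation.leibniz_inv, smul_eq_mul]
    exact mul_mem (neg_mem (pow_mem (inv_mem hx') 2)) hx
  | mul x y hx' hy' hx hy =>
    rw [Derivation.leibniz, smul_eq_mul, smul_eq_mul]
    exact add_mem (mul_mem hx' hy) (mul_mem hy' hx)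

lemma aeval_mem (K : Subfield FF) (hK : ∀ c : ℂ, algebraMap ℂ FF c ∈ K) {x : FF} (hx : x ∈ K) (P : Polynomial ℂ) :
    Polynomial.aeval x P ∈ K := by
  rw [Polynomial.aeval_eq_sum_range]
  refine sum_mem fun i _ => ?_
  rw [Algebra.smul_def]
  exact mul_mem (hK _) (pow_mem hx _)

/-- elements of both fields are rational functions -/
lemma inter (hρ : 0 < ρ) (hp : ρ < ‖p‖) (hp' : ‖p‖ < ρ') (hpim : 0 < p.im) {x : FF}
    (h1 : x ∈ Subfield.closure (Set.range (E1 (p := p) hp')))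
    (h2 : x ∈ Subfield.closure (Set.range (E2 hρ hp hpim))) :
    ∃ R S : Polynomial ℂ, Polynomial.aeval (E1 hp' (pA _ Polynomial.X)) S ≠ 0 ∧
      x * Polynomial.aeval (E1 hp' (pA _ Polynomial.X)) S = Polynomial.aeval (E1 hp' (pA _ Polynomial.X)) R := by
  obtain ⟨c₁, c₂, hc⟩ := mem_closure_range _ h1
  obtain ⟨P, Q, hPQ⟩ := mem_closure_range _ h2
  have hzero : x = 0 → ∃ R S : Polynomial ℂ, Polynomial.aeval (E1 hp' (pA _ Polynomial.X)) S ≠ 0 ∧
      x * Polynomial.aeval (E1 hp' (pA _ Polynomial.X)) S = Polynomial.aeval (E1 hp' (pA _ Polynomial.X)) R := by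
    intro h0
    refine ⟨0, 1, ?_, ?_⟩
    · rw [map_one]
      exact one_ne_zero
    · rw [h0, zero_mul, map_zero]
  by_cases hc20 : E1 (p := p) hp' c₂ = 0
  · exact hzero (by rw [hc, hc20, div_zero])
  by_cases hQ0 : E2 hρ hp hpim Q = 0
  · exact hzero (by rw [hPQ, hQ0, div_zero])
  have hcr : E1 hp' c₁ * E2 hρ hp hpim Q = E1 hp' c₂ * E2 hρ hp hpim P := by
    rw [hc, div_eq_div_iff hc20 hQ0] at hPQ
    rw [hPQ]
    ring
  have hcr' := cross hρ hp hp' hpim c₁ c₂ P Q hcr
  have hQne : Q ≠ 0 := by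
    intro h
    apply hQ0
    rw [h, map_zero]
  obtain ⟨j, hj⟩ : ∃ j, Q.coeff j ≠ 0 := by
    by_contra hno
    push Not at hno
    exact hQne (Polynomial.ext fun j => by rw [hno j, Polynomial.coeff_zero])
  obtain ⟨R, S, hS, hRS⟩ := rational_of hρ (hp.trans hp') c₁.1 c₂.1 c₁.2 c₂.2 (P.coeff j).1 (Q.coeff j).1 (P.coeff j).2
    (Q.coeff j).2 (fun h => hj (Subtype.ext h)) (by
      by_contra hno
      push Not at hno
      apply hc20
      rw [E1_apply hp' c₂ (mem_p hp' c₂), em_zero_iff]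
      filter_upwards [(isOpen_ball (x := (0 : ℂ)) (ε := ρ')).mem_nhds (mem_ball_zero_iff.2 hp')] with z hz
      exact hno z hz) (fun z hz hz' => hcr' j z ⟨hz, hz'⟩)
  have hSne : Polynomial.aeval (E1 hp' (pA _ Polynomial.X)) S ≠ 0 := by
    rw [← E1_pA, E1_apply hp' _ (mem_p hp' _)]
    intro h
    rw [em_zero_iff] at h
    apply hS
    refine Polynomial.eq_zero_of_infinite_isRoot S ?_
    have h3 : ∀ᶠ z in 𝓝 p, S.IsRoot z := h
    exact infinite_of_mem_nhds p h3
  refine ⟨R, S, hSne, ?_⟩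
  have h4 : Polynomial.aeval (E1 hp' (pA _ Polynomial.X)) S * E1 hp' c₁ =
      Polynomial.aeval (E1 hp' (pA _ Polynomial.X)) R * E1 hp' c₂ := by
    rw [← E1_pA, ← E1_pA, ← map_mul, ← map_mul, E1_apply hp' _ (mem_p hp' _), E1_apply hp' _ (mem_p hp' _)]
    refine em_congr ?_
    filter_upwards [(isOpen_ball (x := (0 : ℂ)) (ε := ρ')).mem_nhds (mem_ball_zero_iff.2 hp')] with z hz
    exact hRS z hz
  rw [hc, div_mul_eq_mul_div, div_eq_iff hc20, mul_comm (E1 hp' c₁), h4]

end

end Pool.Agent.Y120.GH
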