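import Pool.Agent.Y120.H.Core2

/-!
# The core lemma: relations with coefficients which are holomorphic in a disc
-/

set_option autoImplicit false

open Filter Topology Metric Set

namespace Pool.Agent.Y120.GH

section
variable {ρ ρ' : ℝ} {p : ℂ}

/-- the variable -/
noncomputable def Xc (ρ : ℝ) : Cw ρ := ⟨PowerSeries.X, X_mem⟩

lemma ww_eq (hρ : 0 < ρ) (hp : ρ < ‖p‖) : ww hρ hp = ouH hρ hp (Xc ρ) := rfl

lemma DD_ww (hρ : 0 < ρ) (hp : ρ < ‖p‖) : DD (ww hρ hp) = - (ww hρ hp) ^ 2 := by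
  rw [ww_eq, DD_ouH]
  have h : dCw hρ (Xc ρ) = 1 := Subtype.ext (by
    show PowerSeries.derivative ℂ PowerSeries.X = 1
    ext m
    rw [PowerSeries.coeff_derivative, PowerSeries.coeff_X, PowerSeries.coeff_one]
    rcases Nat.eq_zero_or_pos m with rfl | hm
    · simp
    · rw [if_neg (by omega), if_neg (by omega), zero_mul])
  rw [h, map_one, mul_one, ww_eq]

lemma DD_zeta_pow (hρ : 0 < ρ) (hp : ρ < ‖p‖) (M : ℕ) :
    DD ((ww hρ hp)⁻¹ ^ M) = M * (ww hρ hp)⁻¹ ^ M * ww hρ hp := by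
  have hw := ww_ne hρ hp
  have h1 : DD (ww hρ hp)⁻¹ = 1 := by
    rw [Derivation.leibniz_inv, DD_ww, smul_eq_mul]
    field_simp
  induction M with
  | zero => simp
  | succ M ih =>
    rw [pow_succ, Derivation.leibniz, h1, ih, smul_eq_mul, smul_eq_mul]
    push_cast
    field_simp
    ring

lemma DD_lg_pow (hρ : 0 < ρ) (hp : ρ < ‖p‖) (hpim : 0 < p.im) (k : ℕ) :
    DD (lgF hpim ^ k) = k * lgF hpim ^ (k - 1) * (- ww hρ hp) := by
  rw [Derivation.leibniz_pow, DD_lgF hρ hp hpim, nsmul_eq_mul, smul_eq_mul]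
  ring

lemma DD_E2 (hρ : 0 < ρ) (hp : ρ < ‖p‖) (hpim : 0 < p.im) (P : Polynomial (Cw ρ)) {m : ℕ} (hm : P.natDegree < m) :
    DD (E2 hρ hp hpim P) = - ww hρ hp * ∑ k ∈ Finset.range m,
      (ww hρ hp * ouH hρ hp (dCw hρ (P.coeff k)) + (k + 1) * ouH hρ hp (P.coeff (k + 1))) * lgF hpim ^ k := by
  rw [E2_eq hρ hp hpim P hm, map_sum]
  obtain ⟨m', rfl⟩ := Nat.exists_eq_succ_of_ne_zero (by omega : m ≠ 0)
  have h1 : ∑ k ∈ Finset.range (m' + 1), ouH hρ hp (P.coeff k) * (k * lgF hpim ^ (k - 1)) =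
      ∑ k ∈ Finset.range (m' + 1), (k + 1) * ouH hρ hp (P.coeff (k + 1)) * lgF hpim ^ k := by
    rw [Finset.sum_range_succ', Finset.sum_range_succ (fun k : ℕ => ((k : FF) + 1) * ouH hρ hp (P.coeff (k + 1)) * lgF hpim ^ k)]
    rw [Polynomial.coeff_eq_zero_of_natDegree_lt (n := m' + 1) (by omega), map_zero]
    simp only [Nat.cast_zero, zero_mul, mul_zero, add_zero]
    refine Finset.sum_congr rfl fun k _ => ?_
    rw [Nat.add_sub_cancel]
    push_cast
    ring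
  simp only [Derivation.leibniz, smul_eq_mul, DD_ouH, DD_lg_pow hρ hp hpim]
  rw [Finset.sum_add_distrib]
  have h2 : ∑ k ∈ Finset.range (m' + 1), ouH hρ hp (P.coeff k) * (k * lgF hpim ^ (k - 1) * - ww hρ hp) =
      - ww hρ hp * ∑ k ∈ Finset.range (m' + 1), ouH hρ hp (P.coeff k) * (k * lgF hpim ^ (k - 1)) := by
    rw [Finset.mul_sum]
    refine Finset.sum_congr rfl fun k _ => ?_
    ring
  rw [h2, h1]
  simp only [Finset.mul_sum]
  rw [← Finset.sum_add_distrib]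
  refine Finset.sum_congr rfl fun k _ => ?_
  ring

lemma aeval_ww_ne (hρ : 0 < ρ) (hp : ρ < ‖p‖) {T : Polynomial ℂ} (hT : T ≠ 0) : Polynomial.aeval (ww hρ hp) T ≠ 0 := by
  rw [← ouH_pC hρ hp]
  intro h
  have h1 := ouH_inj hρ hp h
  have h2 : (T : PowerSeries ℂ) = 0 := congrArg Subtype.val h1
  exact hT (by exact_mod_cast h2)

/-- a relation between outer functions with coefficients which are rational functions -/
lemma no_rational (hρ : 0 < ρ) (hp : ρ < ‖p‖) (hp' : ‖p‖ < ρ') {σ : Type} [Fintype σ] (y : σ → Cw ρ) (B : Set σ)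
    (hLI : ∀ G : σ → Polynomial ℂ, (∀ i, i ∉ B → G i = 0) → ∑ i, pC ρ (G i) * y i = 0 → ∀ i, G i = 0)
    (c : σ → FF) (R S : σ → Polynomial ℂ)
    (hS : ∀ i, Polynomial.aeval (E1 hp' (pA _ Polynomial.X)) (S i) ≠ 0)
    (hR : ∀ i, c i * Polynomial.aeval (E1 (p := p) hp' (pA _ Polynomial.X)) (S i) =
      Polynomial.aeval (E1 hp' (pA _ Polynomial.X)) (R i))
    (hcB : ∀ i, i ∉ B → c i = 0) (hc : ∑ i, c i * ouH hρ hp (y i) = 0) : c = 0 := by
  classical
  set ζ : FF := E1 hp' (pA _ Polynomial.X) with hζ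
  have hζw : ζ * ww hρ hp = 1 := zeta_ww hρ hp hp'
  have hζ0 : ζ ≠ 0 := left_ne_zero_of_mul_eq_one hζw
  have hwζ : ww hρ hp = ζ⁻¹ := by
    field_simp
    rw [mul_comm]
    exact hζw
  -- common denominator
  set G : σ → Polynomial ℂ := fun i => R i * ∏ j ∈ Finset.univ.erase i, S j with hG
  have hGe : ∀ i, Polynomial.aeval ζ (G i) = c i * ∏ j, Polynomial.aeval ζ (S j) := by
    intro i
    rw [hG]
    simp only
    rw [map_mul, map_prod, ← hR, ← Finset.mul_prod_erase Finset.univ _ (Finset.mem_univ i)]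
    ring
  have hprod : ∏ j, Polynomial.aeval ζ (S j) ≠ 0 := Finset.prod_ne_zero_iff.2 fun j _ => hS j
  obtain ⟨d, hd⟩ : ∃ d, ∀ i, (G i).natDegree ≤ d := ⟨∑ i, (G i).natDegree, fun i =>
    Finset.single_le_sum (f := fun i => (G i).natDegree) (fun _ _ => Nat.zero_le _) (Finset.mem_univ i)⟩
  have hrefl : ∀ i, Polynomial.aeval (ww hρ hp) (Polynomial.reflect d (G i)) * ζ ^ d = Polynomial.aeval ζ (G i) := by
    intro i
    let _ : Invertible ζ := invertibleOfNonzero hζ0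
    have h := Polynomial.eval₂_reflect_mul_pow (algebraMap ℂ FF) ζ d (G i) (hd i)
    rw [invOf_eq_inv, ← hwζ] at h
    exact h
  have hz : ∀ i, Polynomial.aeval ζ (G i) = 0 → G i = 0 := by
    intro i h
    rw [← hrefl i, mul_eq_zero] at h
    rcases h with h | h
    · by_contra hne
      refine aeval_ww_ne hρ hp (T := Polynomial.reflect d (G i)) ?_ h
      rw [ne_eq, Polynomial.reflect_eq_zero_iff]
      exact hne
    · exact absurd h (pow_ne_zero _ hζ0)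
  have hsum : ∑ i, pC ρ (Polynomial.reflect d (G i)) * y i = 0 := by
    apply ouH_inj hρ hp
    rw [map_sum]
    have h1 : ∀ i, ouH hρ hp (pC ρ (Polynomial.reflect d (G i)) * y i) * ζ ^ d =
        (c i * ouH hρ hp (y i)) * ∏ j, Polynomial.aeval ζ (S j) := by
      intro i
      rw [map_mul, ouH_pC]
      have h2 : Polynomial.aeval (ww hρ hp) (Polynomial.reflect d (G i)) * ouH hρ hp (y i) * ζ ^ d =
          (Polynomial.aeval (ww hρ hp) (Polynomial.reflect d (G i)) * ζ ^ d) * ouH hρ hp (y i) := by ring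
      rw [h2, hrefl, hGe]
      ring
    have h3 : (∑ i, ouH hρ hp (pC ρ (Polynomial.reflect d (G i)) * y i)) * ζ ^ d = 0 := by
      rw [Finset.sum_mul]
      simp only [h1]
      rw [← Finset.sum_mul, hc, zero_mul]
    exact (mul_eq_zero.1 h3).resolve_right (pow_ne_zero _ hζ0)
  have h4 := hLI (fun i => Polynomial.reflect d (G i)) (by
    intro i hi
    rw [Polynomial.reflect_eq_zero_iff]
    apply hz
    rw [hGe, hcB i hi, zero_mul]) hsum
  funext i
  have h5 := h4 i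
  rw [Polynomial.reflect_eq_zero_iff] at h5
  have h6 := hGe i
  rw [h5, map_zero] at h6
  exact (mul_eq_zero.1 h6.symm).resolve_right hprod

theorem core (hρ : 0 < ρ) (hp : ρ < ‖p‖) (hp' : ‖p‖ < ρ') (hpim : 0 < p.im) {σ : Type} [Fintype σ] [DecidableEq σ]
    (y : σ → Cw ρ) (T : Polynomial ℂ) (hT : T ≠ 0) (A : σ → σ → Polynomial ℂ)
    (hode : ∀ i, pC ρ T * dCw hρ (y i) = ∑ j, pC ρ (A i j) * y j)
    (Φ : Matrix σ σ (Polynomial (Cw ρ))) (M : ℕ)
    (hΦ : ∀ i j k, pC ρ T * (Xc ρ * dCw hρ ((Φ i j).coeff k) + (k + 1) * (Φ i j).coeff (k + 1) - M * (Φ i j).coeff k) =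
      Xc ρ * ∑ l, pC ρ (A i l) * (Φ l j).coeff k) (hdet : Φ.det ≠ 0) (B : Set σ)
    (hLI : ∀ G : σ → Polynomial ℂ, (∀ i, i ∉ B → G i = 0) → ∑ i, pC ρ (G i) * y i = 0 → ∀ i, G i = 0)
    (c : σ → An (ball (0 : ℂ) ρ')) (hcB : ∀ i, i ∉ B → c i = 0)
    (hrel : ∑ i, E1 (p := p) hp' (c i) * ouH hρ hp (y i) = 0) : ∀ i, E1 (p := p) hp' (c i) = 0 := by
  by_contra hno
  set w := ww hρ hp with hw
  have hw0 : w ≠ 0 := ww_ne hρ hp
  set t := Polynomial.aeval w T with ht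
  have ht0 : t ≠ 0 := aeval_ww_ne hρ hp hT
  set F₁ := Subfield.closure (Set.range (E1 (p := p) hp')) with hF₁
  set F₂ := Subfield.closure (Set.range (E2 hρ hp hpim)) with hF₂
  set 𝔸 : σ → σ → FF := fun i l => - w ^ 2 * (Polynomial.aeval w (A i l) / t) with h𝔸
  -- constants
  have hcF1 : ∀ c : ℂ, algebraMap ℂ FF c ∈ F₁ := fun c => const_F1 hp' c
  have hcF2 : ∀ c : ℂ, algebraMap ℂ FF c ∈ F₂ := by
    intro c
    refine Subfield.subset_closure ⟨Polynomial.C (pC ρ (Polynomial.C c)), ?_⟩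
    show Polynomial.eval₂ (ouH hρ hp) (lgF hpim) (Polynomial.C (pC ρ (Polynomial.C c))) = _
    rw [Polynomial.eval₂_C, ouH_pC, Polynomial.aeval_C]
  have hwF1 : w ∈ F₁ := by
    have h1 : w = (E1 (p := p) hp' (pA _ Polynomial.X))⁻¹ := by
      have := zeta_ww hρ hp hp'
      have h0 : E1 (p := p) hp' (pA _ Polynomial.X) ≠ 0 := left_ne_zero_of_mul_eq_one this
      field_simp
      rw [mul_comm]
      exact this
    rw [h1]
    exact inv_mem (Subfield.subset_closure ⟨_, rfl⟩)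
  have hwF2 : w ∈ F₂ := by
    refine Subfield.subset_closure ⟨Polynomial.C (Xc ρ), ?_⟩
    show Polynomial.eval₂ (ouH hρ hp) (lgF hpim) (Polynomial.C (Xc ρ)) = _
    rw [Polynomial.eval₂_C]
    rfl
  -- the solution
  have hyF : ∀ i, DD (ouH hρ hp (y i)) = ∑ j, 𝔸 i j * ouH hρ hp (y j) := by
    intro i
    have h1 := congrArg (ouH hρ hp) (hode i)
    rw [map_mul, ouH_pC, map_sum] at h1
    simp only [map_mul, ouH_pC] at h1
    have h2 : ouH hρ hp (dCw hρ (y i)) = (∑ j, Polynomial.aeval w (A i j) * ouH hρ hp (y j)) / t := by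
      rw [eq_div_iff ht0, ← h1, mul_comm]
    rw [DD_ouH, h2, mul_div_assoc', Finset.mul_sum, Finset.sum_div]
    refine Finset.sum_congr rfl fun j _ => ?_
    rw [h𝔸]
    simp only
    ring
  -- the fundamental matrix
  obtain ⟨m, hm⟩ : ∃ m, ∀ i j, (Φ i j).natDegree < m := ⟨(∑ i, ∑ j, (Φ i j).natDegree) + 1, fun i j => by
    have h1 : (Φ i j).natDegree ≤ ∑ j, (Φ i j).natDegree :=
      Finset.single_le_sum (f := fun j => (Φ i j).natDegree) (fun _ _ => Nat.zero_le _) (Finset.mem_univ j)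
    have h2 : ∑ j, (Φ i j).natDegree ≤ ∑ i, ∑ j, (Φ i j).natDegree :=
      Finset.single_le_sum (f := fun i => ∑ j, (Φ i j).natDegree) (fun _ _ => Nat.zero_le _) (Finset.mem_univ i)
    omega⟩
  set ΦF : Matrix σ σ FF := fun i j => w⁻¹ ^ M * E2 hρ hp hpim (Φ i j) with hΦF
  have hDΦ : ∀ i j, DD (ΦF i j) = ∑ l, 𝔸 i l * ΦF l j := by
    intro i j
    have h1 := DD_E2 hρ hp hpim (Φ i j) (hm i j)
    set s := ∑ k ∈ Finset.range m, (w * ouH hρ hp (dCw hρ ((Φ i j).coeff k)) + (k + 1) * ouH hρ hp ((Φ i j).coeff (k + 1))) *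
      lgF hpim ^ k with hs
    have h2 : t * (s - M * E2 hρ hp hpim (Φ i j)) = w * ∑ l, Polynomial.aeval w (A i l) * E2 hρ hp hpim (Φ l j) := by
      have h3 : ∀ l, E2 hρ hp hpim (Φ l j) = ∑ k ∈ Finset.range m, ouH hρ hp ((Φ l j).coeff k) * lgF hpim ^ k :=
        fun l => E2_eq hρ hp hpim _ (hm l j)
      rw [h3 i]
      simp only [h3]
      rw [hs, Finset.mul_sum, ← Finset.sum_sub_distrib, Finset.mul_sum]
      simp only [Finset.mul_sum]
      rw [Finset.sum_comm]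
      refine Finset.sum_congr rfl fun k _ => ?_
      have h4 := congrArg (ouH hρ hp) (hΦ i j k)
      simp only [map_mul, map_sub, map_add, map_sum, map_natCast, map_one, ouH_pC, ← ww_eq] at h4
      rw [← hw, ← ht] at h4
      have h5 : t * ((w * ouH hρ hp (dCw hρ ((Φ i j).coeff k)) + (↑k + 1) * ouH hρ hp ((Φ i j).coeff (k + 1))) *
          lgF hpim ^ k - ↑M * (ouH hρ hp ((Φ i j).coeff k) * lgF hpim ^ k)) =
          t * (w * ouH hρ hp (dCw hρ ((Φ i j).coeff k)) + (↑k + 1) * ouH hρ hp ((Φ i j).coeff (k + 1)) -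
            ↑M * ouH hρ hp ((Φ i j).coeff k)) * lgF hpim ^ k := by ring
      rw [h5, h4, Finset.mul_sum, Finset.sum_mul]
      refine Finset.sum_congr rfl fun l _ => ?_
      ring
    have h6 : s - M * E2 hρ hp hpim (Φ i j) = (w * ∑ l, Polynomial.aeval w (A i l) * E2 hρ hp hpim (Φ l j)) / t := by
      rw [eq_div_iff ht0, ← h2, mul_comm]
    show DD (w⁻¹ ^ M * E2 hρ hp hpim (Φ i j)) = ∑ l, (- w ^ 2 * (Polynomial.aeval w (A i l) / t)) * (w⁻¹ ^ M * E2 hρ hp hpim (Φ l j))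
    rw [Derivation.leibniz, h1, hw, DD_zeta_pow hρ hp M, smul_eq_mul, smul_eq_mul, ← hw]
    have h7 : w⁻¹ ^ M * (-w * s) + E2 hρ hp hpim (Φ i j) * (↑M * w⁻¹ ^ M * w) =
        - w⁻¹ ^ M * w * (s - M * E2 hρ hp hpim (Φ i j)) := by ring
    rw [h7, h6, Finset.mul_sum, Finset.sum_div, Finset.mul_sum]
    refine Finset.sum_congr rfl fun l _ => ?_
    ring
  have hdetF : ΦF.det ≠ 0 := by
    have h1 : ΦF = (w⁻¹ ^ M) • (E2 hρ hp hpim).mapMatrix Φ := by
      ext i j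
      rfl
    rw [h1, Matrix.det_smul, ← RingHom.map_det]
    refine mul_ne_zero (pow_ne_zero _ (pow_ne_zero _ (inv_ne_zero hw0))) ?_
    intro h
    exact hdet (E2_inj hρ hp hpim h)
  push Not at hno
  obtain ⟨i₀, hi₀⟩ := hno
  obtain ⟨c', hc', hc'B, hc'0, hc'r⟩ := descent_matrix DD F₁ F₂ (fun x hx => F1_stable hp' hx)
    (fun x hx => by
      obtain ⟨a, rfl⟩ := DD_const hx
      exact hcF2 a) (fun i => ouH hρ hp (y i)) 𝔸 ΦF
    (fun i j => mul_mem (neg_mem (pow_mem hwF1 2)) (div_mem (aeval_mem F₁ hcF1 hwF1 _) (aeval_mem F₁ hcF1 hwF1 _)))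
    hyF (fun i j => mul_mem (pow_mem (inv_mem hwF2) _) (Subfield.subset_closure ⟨_, rfl⟩)) hDΦ hdetF B
    (fun i => E1 (p := p) hp' (c i)) (fun i => Subfield.subset_closure ⟨_, rfl⟩) (fun i hi => by
      show E1 (p := p) hp' (c i) = 0
      rw [hcB i hi, map_zero])
    (fun h => hi₀ (congrFun h i₀)) hrel
  have hRS := fun i => inter hρ hp hp' hpim (hc' i).1 (hc' i).2
  choose R S hS hR using hRS
  exact hc'0 (no_rational hρ hp hp' y B hLI c' R S hS hR hc'B hc'r)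

end

end Pool.Agent.Y120.GH
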