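import Pool.Agent.Y120.H.Out

/-!
# Functions which are meromorphic in a disc and outside a smaller disc are rational
-/

set_option autoImplicit false

open Filter Topology Metric Set MeromorphicOn

namespace Pool.Agent.Y120.GH

/-- extraction of the zeros in a closed disc -/
theorem factor {f : ℂ → ℂ} {R : ℝ} (hR : 0 < R) (hf : AnalyticOnNhd ℂ f (closedBall 0 R))
    (hne : ∃ z ∈ closedBall (0 : ℂ) R, f z ≠ 0) :
    ∃ (Q : Polynomial ℂ) (g : ℂ → ℂ), Q ≠ 0 ∧
      AnalyticOnNhd ℂ g (closedBall 0 R) ∧ (∀ z ∈ closedBall (0 : ℂ) R, g z ≠ 0) ∧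
      ∀ z ∈ closedBall (0 : ℂ) R, f z = Q.eval z * g z := by
  have hm : MeromorphicOn f (closedBall 0 R) := hf.meromorphicOn
  have h2 : ∀ u : closedBall (0 : ℂ) R, meromorphicOrderAt f u ≠ ⊤ := by
    rw [← hm.exists_meromorphicOrderAt_ne_top_iff_forall
      ⟨⟨0, by simp [hR.le]⟩, (convex_closedBall 0 R).isPreconnected⟩]
    obtain ⟨z, hz, hz0⟩ := hne
    refine ⟨⟨z, hz⟩, ?_⟩
    have ha := hf z hz
    rw [ha.meromorphicOrderAt_eq, ha.analyticOrderAt_eq_zero.2 hz0]
    simp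
  have h3 : (divisor f (closedBall 0 R)).support.Finite :=
    (divisor f (closedBall 0 R)).finiteSupport (isCompact_closedBall 0 R)
  obtain ⟨g, hg, hg0, hfg⟩ := hm.extract_zeros_poles h2 h3
  set D := divisor f (closedBall 0 R) with hD
  have hDnn : 0 ≤ D := hf.divisor_nonneg
  have hsup : (Function.mulSupport fun u : ℂ => ((· - u) ^ D u : ℂ → ℂ)) ⊆ h3.toFinset := by
    intro u hu
    simp only [Finite.coe_toFinset, Function.mem_support]
    intro h0
    apply hu
    show ((· - u) ^ D u : ℂ → ℂ) = 1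
    rw [h0, zpow_zero]
  rw [finprod_eq_prod_of_mulSupport_subset _ hsup] at hfg
  refine ⟨∏ u ∈ h3.toFinset, (Polynomial.X - Polynomial.C u) ^ (D u).toNat, g,
    Finset.prod_ne_zero_iff.2 fun u _ => pow_ne_zero _ (Polynomial.X_sub_C_ne_zero u), hg, fun z hz => hg0 ⟨z, hz⟩, ?_⟩
  have hQ : ∀ z : ℂ, (∏ u ∈ h3.toFinset, (Polynomial.X - Polynomial.C u) ^ (D u).toNat).eval z =
      ∏ u ∈ h3.toFinset, (z - u) ^ (D u).toNat := by
    intro z
    rw [Polynomial.eval_prod]
    simp
  have hF2 : ∀ z, (∏ u ∈ h3.toFinset, ((· - u) ^ D u : ℂ → ℂ)) z =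
      ∏ u ∈ h3.toFinset, (z - u) ^ (D u).toNat := by
    intro z
    rw [Finset.prod_apply]
    refine Finset.prod_congr rfl fun u _ => ?_
    rw [Pi.pow_apply, ← zpow_natCast, Int.toNat_of_nonneg (hDnn u)]
  intro x hx
  rw [hQ]
  rw [EventuallyEq, Filter.Eventually, mem_codiscreteWithin_iff_forall_mem_nhdsNE] at hfg
  have h4 := hfg x hx
  have h5 : ∀ᶠ z in 𝓝[closedBall (0 : ℂ) R \ {x}] x,
      f z = (∏ u ∈ h3.toFinset, (z - u) ^ (D u).toNat) * g z := by
    have h6 : 𝓝[closedBall (0 : ℂ) R \ {x}] x ≤ 𝓝[≠] x :=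
      nhdsWithin_mono _ fun z hz => hz.2
    filter_upwards [h6 h4, self_mem_nhdsWithin] with z hz hz'
    rcases hz with hz | hz
    · have hz2 : f z = ((∏ u ∈ h3.toFinset, ((· - u) ^ D u : ℂ → ℂ)) • g) z := hz
      rw [hz2, Pi.smul_apply', hF2, smul_eq_mul]
    · exact absurd hz'.1 hz
  have hbot : (𝓝[closedBall (0 : ℂ) R \ {x}] x).NeBot := by
    have hnt : (closedBall (0 : ℂ) R).Nontrivial :=
      ⟨(R : ℂ), by simp [abs_of_pos hR], 0, by simp [hR.le], by
        intro h; apply hR.ne'; exact_mod_cast h⟩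
    have h7 := (convex_closedBall (0 : ℂ) R).isPreconnected.preperfect_of_nontrivial hnt x hx
    rw [accPt_principal_iff_nhdsWithin] at h7
    exact h7
  have hfc : Tendsto f (𝓝[closedBall (0 : ℂ) R \ {x}] x) (𝓝 (f x)) :=
    (hf x hx).continuousAt.tendsto.mono_left nhdsWithin_le_nhds
  have hgc : Tendsto (fun z => (∏ u ∈ h3.toFinset, (z - u) ^ (D u).toNat) * g z)
      (𝓝[closedBall (0 : ℂ) R \ {x}] x) (𝓝 ((∏ u ∈ h3.toFinset, (x - u) ^ (D u).toNat) * g x)) := by
    refine Tendsto.mono_left ?_ nhdsWithin_le_nhds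
    refine Tendsto.mul ?_ (hg x hx).continuousAt.tendsto
    have hc : Continuous fun z : ℂ => ∏ u ∈ h3.toFinset, (z - u) ^ (D u).toNat := by fun_prop
    exact hc.tendsto x
  exact tendsto_nhds_unique hfc (hgc.congr' (h5.mono fun z hz => hz.symm))

/-- an entire function of polynomial growth is a polynomial -/
theorem poly_of_growth {f : ℂ → ℂ} (hf : Differentiable ℂ f) (K : ℝ) (d : ℕ)
    (h : ∀ z, ‖f z‖ ≤ K * (1 + ‖z‖) ^ d) : ∃ P : Polynomial ℂ, ∀ z, f z = P.eval z := by
  have hK : 0 ≤ K := by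
    have := (norm_nonneg _).trans (h 0)
    simpa using this
  have hz : ∀ n, d < n → iteratedDeriv n f 0 = 0 := by
    intro n hn
    have h1 : ∀ R : ℝ, 1 ≤ R → ‖iteratedDeriv n f 0‖ ≤ (n.factorial * (K * 2 ^ d)) * (1 / R) := by
      intro R hR
      have hR0 : 0 < R := by linarith
      have h2 := Complex.norm_iteratedDeriv_le_of_forall_mem_sphere_norm_le (c := 0) (R := R) (C := K * (1 + R) ^ d) n hR0
        hf.diffContOnCl (by
          intro z hz
          rw [mem_sphere_zero_iff_norm] at hz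
          have := h z
          rwa [hz] at this)
      refine h2.trans ?_
      have h3 : (1 + R) ^ d ≤ 2 ^ d * R ^ d := by
        rw [← mul_pow]
        exact pow_le_pow_left₀ (by positivity) (by linarith) _
      have h4 : R ^ (d + 1) ≤ R ^ n := pow_le_pow_right₀ hR hn
      rw [div_le_iff₀ (by positivity)]
      calc (n.factorial : ℝ) * (K * (1 + R) ^ d) ≤ n.factorial * (K * (2 ^ d * R ^ d)) := by gcongr
        _ = n.factorial * (K * 2 ^ d) * (1 / R) * R ^ (d + 1) := by
            rw [pow_succ]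
            field_simp
        _ ≤ n.factorial * (K * 2 ^ d) * (1 / R) * R ^ n := by gcongr
    have h5 : Tendsto (fun R : ℝ => (n.factorial * (K * 2 ^ d)) * (1 / R)) atTop (𝓝 0) := by
      have : Tendsto (fun R : ℝ => 1 / R) atTop (𝓝 0) := by
        simpa using tendsto_inv_atTop_zero (𝕜 := ℝ)
      simpa using this.const_mul _
    have h6 : ‖iteratedDeriv n f 0‖ ≤ 0 :=
      ge_of_tendsto h5 ((eventually_ge_atTop 1).mono h1)
    exact norm_le_zero_iff.1 h6
  refine ⟨∑ n ∈ Finset.range (d + 1), Polynomial.C ((n.factorial : ℂ)⁻¹ * iteratedDeriv n f 0) * Polynomial.X ^ n, ?_⟩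
  intro z
  have h1 := Complex.hasSum_taylorSeries_of_entire hf 0 z
  have h2 := h1.unique (hasSum_sum_of_ne_finset_zero (s := Finset.range (d + 1)) (by
    intro n hn
    rw [Finset.mem_range, not_lt] at hn
    rw [hz n (by omega)]
    simp))
  rw [h2, Polynomial.eval_finsetSum]
  refine Finset.sum_congr rfl fun n _ => ?_
  simp only [sub_zero, smul_eq_mul, Polynomial.eval_mul, Polynomial.eval_C, Polynomial.eval_pow, Polynomial.eval_X]
  ring

end Pool.Agent.Y120.GH
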