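import Pool.Agent.Y120.H.Log

/-!
# From one disc to several shifts
-/

set_option autoImplicit false

open Filter Topology Metric Set

namespace Pool.Agent.Y120.GH

/-- there are no relations with coefficients which are holomorphic in the disc -/
def Disc (ρ ρ' : ℝ) {κ : Type} [Fintype κ] (y : κ → PowerSeries ℂ) : Prop :=
  ∀ p : ℂ, ρ < ‖p‖ → ‖p‖ < ρ' → 0 < p.im → ∀ c : κ → ℂ → ℂ, (∀ i, AnalyticOnNhd ℂ (c i) (ball 0 ρ')) →
    (∀ᶠ z in 𝓝 p, ∑ i, c i z * ou (y i) z = 0) → ∀ i, ∀ᶠ z in 𝓝 p, c i z = 0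

section
variable {ρ ρ' : ℝ} {κ : Type} [Fintype κ] {y : κ → PowerSeries ℂ}

lemma log_div {z : ℂ} (hz : 0 < z.im) {g : ℝ} (hg : 0 < g) :
    Complex.log (1 - g / (z + g)) = Complex.log z - Complex.log (z + g) := by
  have hzg : 0 < (z + g).im := by simpa using hz
  have hz0 : z ≠ 0 := by
    rintro rfl
    simp at hz
  have hzg0 : z + g ≠ 0 := by
    intro h
    rw [h] at hzg
    simp at hzg
  have h1 : 1 - (g : ℂ) / (z + g) = z / (z + g) := by
    field_simp
    ring
  have harg1 : ∀ w : ℂ, 0 < w.im → 0 < w.arg ∧ w.arg < Real.pi := by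
    intro w hw
    constructor
    · rcases (Complex.arg_nonneg_iff.2 hw.le).eq_or_lt with h2 | h2
      · exfalso
        have h3 := Complex.arg_eq_zero_iff.1 h2.symm
        rw [h3.2] at hw
        exact lt_irrefl _ hw
      · exact h2
    · refine lt_of_le_of_ne (Complex.arg_le_pi w) fun h2 => ?_
      have h3 := Complex.arg_eq_pi_iff.1 h2
      rw [h3.2] at hw
      exact lt_irrefl _ hw
  obtain ⟨a1, a2⟩ := harg1 z hz
  obtain ⟨b1, b2⟩ := harg1 _ hzg
  have h2 : Complex.exp (Complex.log z - Complex.log (z + g)) = z / (z + g) := by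
    rw [Complex.exp_sub, Complex.exp_log hz0, Complex.exp_log hzg0]
  rw [h1, ← h2, Complex.log_exp]
  · rw [Complex.sub_im, Complex.log_im, Complex.log_im]
    linarith
  · rw [Complex.sub_im, Complex.log_im, Complex.log_im]
    linarith

/-- relations with powers of the logarithm -/
theorem disc_log (hρ : 0 < ρ) (hy : ∀ i, y i ∈ Cw ρ) (hD : Disc ρ ρ' y) {g : ℝ} (hg : ρ' < g) (n : ℕ)
    (c : κ → ℕ → ℂ → ℂ) (hc : ∀ i ε, AnalyticOnNhd ℂ (c i ε) (ball 0 ρ')) {p : ℂ} (hp : ρ < ‖p‖) (hp' : ‖p‖ < ρ')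
    (hpim : 0 < p.im) (hrel : ∀ᶠ z in 𝓝 p, ∑ i, ∑ ε ∈ Finset.range n,
      c i ε z * (ou (y i) z * Complex.log (1 - g / (z + g)) ^ ε) = 0) :
    ∀ i, ∀ ε < n, ∀ᶠ z in 𝓝 p, c i ε z = 0 := by
  induction n with
  | zero =>
    intro i ε hε
    omega
  | succ n ih =>
    have hg0 : 0 < g := by
      have := norm_nonneg p
      linarith
    -- the coefficients
    let s : ℕ → ℂ → ℂ := fun ε z => ∑ i, c i ε z * ou (y i) z
    let lam : ℂ → ℂ := fun z => Complex.log (z + g)
    let a : ℕ → ℂ → ℂ := fun j z => ∑ ε ∈ Finset.range (n + 1), s ε z * ((-1) ^ ε * (lam z ^ (ε - j) * (ε.choose j : ℂ)))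
    have hlam : AnalyticOnNhd ℂ lam (ball 0 ρ') := by
      intro z hz
      rw [mem_ball_zero_iff] at hz
      have h1 : z + g ∈ Complex.slitPlane := by
        refine Complex.mem_slitPlane_iff.2 (Or.inl ?_)
        have h2 : |z.re| ≤ ‖z‖ := Complex.abs_re_le_norm z
        have h3 := neg_abs_le z.re
        simp only [Complex.add_re, Complex.ofReal_re]
        linarith
      exact AnalyticAt.clog (analyticAt_id.add analyticAt_const) h1
    have hs : ∀ ε, AnalyticOnNhd ℂ (s ε) (Ann ρ ρ') := by
      intro ε z hz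
      show AnalyticAt ℂ (fun z => ∑ i, c i ε z * ou (y i) z) z
      refine Finset.analyticAt_fun_sum _ fun i _ => ?_
      exact (hc i ε z (mem_ball_zero_iff.2 hz.2)).mul (ou_an hρ.le (hy i) z hz.1)
    have ha : ∀ j, AnalyticOnNhd ℂ (a j) (Ann ρ ρ') := by
      intro j z hz
      show AnalyticAt ℂ (fun z => ∑ ε ∈ Finset.range (n + 1), s ε z * ((-1) ^ ε * (lam z ^ (ε - j) * (ε.choose j : ℂ)))) z
      refine Finset.analyticAt_fun_sum _ fun ε _ => ?_
      exact (hs ε z hz).mul (analyticAt_const.mul (((hlam z (mem_ball_zero_iff.2 hz.2)).pow _).mul analyticAt_const))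
    have hup : ∀ᶠ z in 𝓝 p, 0 < z.im := (isOpen_lt continuous_const Complex.continuous_im).mem_nhds hpim
    have hpoly : ∀ z : ℂ, 0 < z.im → ∑ j ∈ Finset.range (n + 1), a j z * (-Complex.log z) ^ j =
        ∑ i, ∑ ε ∈ Finset.range (n + 1), c i ε z * (ou (y i) z * Complex.log (1 - g / (z + g)) ^ ε) := by
      intro z hz
      rw [log_div hz hg0]
      have h1 : ∀ ε ∈ Finset.range (n + 1), ∑ j ∈ Finset.range (n + 1),
          ((-1) ^ ε * (lam z ^ (ε - j) * (ε.choose j : ℂ))) * (-Complex.log z) ^ j = (Complex.log z - lam z) ^ ε := by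
        intro ε hε
        rw [Finset.mem_range] at hε
        have h2 : Complex.log z - lam z = (-1) * (-Complex.log z + lam z) := by ring
        rw [h2, mul_pow, add_pow, Finset.mul_sum]
        rw [← Finset.sum_subset (Finset.range_subset_range.2 (show ε + 1 ≤ n + 1 by omega))]
        · refine Finset.sum_congr rfl fun j _ => ?_
          ring
        · intro j _ hj
          rw [Finset.mem_range, not_lt] at hj
          rw [Nat.choose_eq_zero_of_lt (by omega)]
          simp
      show ∑ j ∈ Finset.range (n + 1), (∑ ε ∈ Finset.range (n + 1), s ε z * ((-1) ^ ε * (lam z ^ (ε - j) * (ε.choose j : ℂ)))) *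
        (-Complex.log z) ^ j = _
      simp only [Finset.sum_mul]
      rw [Finset.sum_comm, Finset.sum_comm (s := Finset.univ)]
      refine Finset.sum_congr rfl fun ε hε => ?_
      have h3 : ∑ j ∈ Finset.range (n + 1), s ε z * ((-1) ^ ε * (lam z ^ (ε - j) * (ε.choose j : ℂ))) * (-Complex.log z) ^ j =
          s ε z * (Complex.log z - lam z) ^ ε := by
        rw [← h1 ε hε, Finset.mul_sum]
        refine Finset.sum_congr rfl fun j _ => ?_
        ring
      rw [h3]
      show (∑ i, c i ε z * ou (y i) z) * _ = _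
      rw [Finset.sum_mul]
      refine Finset.sum_congr rfl fun i _ => ?_
      show _ = c i ε z * (ou (y i) z * (Complex.log z - lam z) ^ ε)
      ring
    have hsep := log_sep hρ (n + 1) a ha p ⟨hp, hp'⟩ hpim (by
      filter_upwards [hrel, hup] with z hz hz2
      rw [hpoly z hz2]
      exact hz) n (Nat.lt_succ_self n)
    have hAnn : Ann ρ ρ' ∈ 𝓝 p := by
      have h1 : IsOpen (Ann ρ ρ') := (isOpen_lt continuous_const continuous_norm).inter
        (isOpen_lt continuous_norm continuous_const)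
      exact h1.mem_nhds ⟨hp, hp'⟩
    have htop : ∀ᶠ z in 𝓝 p, ∑ i, c i n z * ou (y i) z = 0 := by
      filter_upwards [hAnn] with z hz
      have h1 := hsep z hz
      have h2 : a n z = s n z * (-1) ^ n := by
        show ∑ ε ∈ Finset.range (n + 1), s ε z * ((-1) ^ ε * (lam z ^ (ε - n) * (ε.choose n : ℂ))) = _
        rw [Finset.sum_range_succ, Finset.sum_eq_zero, zero_add]
        · rw [Nat.sub_self, Nat.choose_self]
          push_cast
          ring
        · intro ε hε
          rw [Finset.mem_range] at hε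
          rw [Nat.choose_eq_zero_of_lt hε]
          simp
      rw [h2] at h1
      exact (mul_eq_zero.1 h1).resolve_right (pow_ne_zero _ (by norm_num))
    have hcn := hD p hp hp' hpim (fun i => c i n) (fun i => hc i n) htop
    have hall : ∀ᶠ z in 𝓝 p, ∀ i, c i n z = 0 := eventually_all.2 hcn
    have hih := ih (by
      filter_upwards [hrel, hall] with z hz hz2
      refine Eq.trans ?_ hz
      refine Finset.sum_congr rfl fun i _ => ?_
      rw [Finset.sum_range_succ, hz2 i, zero_mul, add_zero])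
    intro i ε hε
    rcases Nat.lt_succ_iff_lt_or_eq.1 hε with h1 | rfl
    · exact hih i ε h1
    · exact hcn i

/-- the upper half plane -/
def Up (ρ : ℝ) : Set ℂ := {t | ρ < t.im}

lemma Up_open : IsOpen (Up ρ) := isOpen_lt continuous_const Complex.continuous_im

lemma Up_conv : Convex ℝ (Up ρ) := convex_halfSpace_im_gt ρ

lemma Up_norm {t : ℂ} (ht : t ∈ Up ρ) (g : ℝ) : ρ < ‖t - g‖ := by
  have h1 : ρ < t.im := ht
  have h2 : (t - g).im = t.im := by simp
  have h3 := Complex.abs_im_le_norm (t - g)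
  rw [h2] at h3
  exact lt_of_lt_of_le (lt_of_lt_of_le h1 (le_abs_self _)) h3

lemma im_frac {t : ℂ} (ht : 0 < t.im) {g : ℝ} (hg : 0 < g) : 0 < (1 - g / t : ℂ).im := by
  have ht0 : 0 < Complex.normSq t := by
    refine Complex.normSq_pos.2 ?_
    rintro rfl
    simp at ht
  rw [Complex.sub_im, Complex.one_im, Complex.div_im]
  simp only [Complex.ofReal_im, Complex.ofReal_re, zero_mul, zero_div, zero_sub, neg_neg]
  positivity

lemma log_an_up {t : ℂ} (hρ : 0 < ρ) (ht : t ∈ Up ρ) {g : ℝ} (hg : 0 < g) :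
    AnalyticAt ℂ (fun t : ℂ => Complex.log (1 - g / t)) t := by
  have h1 : 0 < t.im := hρ.trans ht
  have ht0 : t ≠ 0 := by
    rintro rfl
    simp at h1
  exact AnalyticAt.clog (analyticAt_const.sub (analyticAt_const.div analyticAt_id ht0))
    (Complex.mem_slitPlane_iff.2 (Or.inr (im_frac h1 hg).ne'))

/-- the extension of the logarithm to the disc with centre `g₀` -/
noncomputable def Lx (g₀ g : ℝ) (t : ℂ) : ℂ :=
  if g < g₀ then Complex.log (1 - g / t) else Complex.log (g / t - 1) + Real.pi * Complex.I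

lemma Lx_eq (g₀ : ℝ) {g : ℝ} (hg : 0 < g) {t : ℂ} (ht : 0 < t.im) : Lx g₀ g t = Complex.log (1 - g / t) := by
  unfold Lx
  split_ifs with h
  · rfl
  · have h1 := im_frac ht hg
    have h2 : (g : ℂ) / t - 1 = -(1 - g / t) := by ring
    set w : ℂ := 1 - g / t with hw
    have hw0 : w ≠ 0 := by
      intro h0
      rw [h0] at h1
      simp at h1
    rw [h2, Complex.log, Complex.log, norm_neg, Complex.arg_neg_eq_arg_sub_pi_of_im_pos h1]
    push_cast
    ring

lemma Lx_an {g₀ g r : ℝ} (hr : r < g₀) (hsep : r < |g₀ - g|) (hg : 0 < g) {t : ℂ} (ht : ‖t - g₀‖ < r) :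
    AnalyticAt ℂ (Lx g₀ g) t := by
  have hre : |(t - g₀).re| ≤ ‖t - g₀‖ := Complex.abs_re_le_norm _
  rw [Complex.sub_re, Complex.ofReal_re] at hre
  have hre2 := abs_le.1 hre
  have ht0 : t ≠ 0 := by
    rintro rfl
    simp only [Complex.zero_re] at hre2
    linarith [hre2.1]
  have hns : 0 < Complex.normSq t := Complex.normSq_pos.2 ht0
  have htre : 0 < t.re := by linarith [hre2.1]
  have him : ∀ t : ℂ, ((g : ℂ) / t).im = - (g * t.im / Complex.normSq t) := by
    intro t
    rw [Complex.div_im]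
    simp
  have hrefr : ((g : ℂ) / t).re = g * t.re / Complex.normSq t := by
    rw [Complex.div_re]
    simp
  have hnsq : Complex.normSq t = t.re * t.re + t.im * t.im := Complex.normSq_apply t
  by_cases h : g < g₀
  · have hfun : Lx g₀ g = fun t => Complex.log (1 - g / t) := by
      funext t
      unfold Lx
      rw [if_pos h]
    rw [hfun]
    refine AnalyticAt.clog (analyticAt_const.sub (analyticAt_const.div analyticAt_id ht0)) ?_
    refine Complex.mem_slitPlane_iff.2 ?_
    left
    rw [Complex.sub_re, Complex.one_re, hrefr]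
    have h1 : |g₀ - g| = g₀ - g := abs_of_pos (by linarith)
    rw [h1] at hsep
    have h2 : g < t.re := by linarith [hre2.1]
    have h3 : g * t.re / Complex.normSq t < 1 := by
      rw [div_lt_one hns, hnsq]
      nlinarith [mul_self_nonneg t.im]
    linarith
  · have hfun : Lx g₀ g = fun t => Complex.log (g / t - 1) + Real.pi * Complex.I := by
      funext t
      unfold Lx
      rw [if_neg h]
    rw [hfun]
    refine AnalyticAt.add (AnalyticAt.clog ((analyticAt_const.div analyticAt_id ht0).sub analyticAt_const) ?_) analyticAt_const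
    refine Complex.mem_slitPlane_iff.2 ?_
    by_cases him0 : t.im = 0
    · left
      rw [Complex.sub_re, Complex.one_re, hrefr]
      push Not at h
      have h1 : |g₀ - g| = g - g₀ := by rw [abs_sub_comm]; exact abs_of_nonneg (by linarith)
      rw [h1] at hsep
      have h2 : t.re < g := by linarith [hre2.2]
      have h3 : 1 < g * t.re / Complex.normSq t := by
        rw [lt_div_iff₀ hns, hnsq, him0]
        nlinarith
      linarith
    · right
      rw [Complex.sub_im, Complex.one_im, him, sub_zero]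
      simp only [ne_eq, neg_eq_zero, div_eq_zero_iff, mul_eq_zero, not_or]
      exact ⟨⟨hg.ne', him0⟩, hns.ne'⟩

/-- linear independence of the products over several shifts -/
theorem ind_shift (hρ : 0 < ρ) (hρρ : ρ < ρ') (hy : ∀ i, y i ∈ Cw ρ) (hD : Disc ρ ρ' y) {R : ℝ} (hR : ρ + ρ' < R) (n : ℕ)
    (k : ℕ) : ∀ (g : Fin k → ℝ), (∀ l, R ≤ g l) → (∀ l l', l ≠ l' → R ≤ |g l - g l'|) →
    ∀ a : (Fin k → κ × Fin n) → ℂ → ℂ, (∀ b, AnalyticOnNhd ℂ (a b) {t | t ≠ 0}) →
    (∀ t ∈ Up ρ, ∑ b, a b t * ∏ l, (ou (y (b l).1) (t - g l) * Complex.log (1 - g l / t) ^ ((b l).2 : ℕ)) = 0) →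
    ∀ b, ∀ t ∈ Up ρ, a b t = 0 := by
  classical
  induction k with
  | zero =>
    intro g _ _ a _ hrel b t ht
    have h1 := hrel t ht
    rw [Fintype.sum_eq_single b (fun b' hb' => absurd (Subsingleton.elim b' b) hb')] at h1
    simpa using h1
  | succ k ih =>
    intro g hgR hsep a ha hrel
    set g₀ : ℝ := g 0 with hg₀
    have hg₀R : R ≤ g₀ := hgR 0
    have hpos : ∀ l, 0 < g l := fun l => by
      have := hgR l
      linarith
    -- the coefficients
    let tl : (κ × Fin n) → ℂ → ℂ := fun β t => ∑ b' : Fin k → κ × Fin n, a (Fin.cons β b') t *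
      ∏ l, (ou (y (b' l).1) (t - g l.succ) * Complex.log (1 - g l.succ / t) ^ ((b' l).2 : ℕ))
    let tlx : (κ × Fin n) → ℂ → ℂ := fun β t => ∑ b' : Fin k → κ × Fin n, a (Fin.cons β b') t *
      ∏ l, (ou (y (b' l).1) (t - g l.succ) * Lx g₀ (g l.succ) t ^ ((b' l).2 : ℕ))
    have htlx : ∀ β (t : ℂ), 0 < t.im → tlx β t = tl β t := by
      intro β t ht
      show ∑ b' : Fin k → κ × Fin n, a (Fin.cons β b') t *
        ∏ l, (ou (y (b' l).1) (t - g l.succ) * Lx g₀ (g l.succ) t ^ ((b' l).2 : ℕ)) = _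
      refine Finset.sum_congr rfl fun b' _ => ?_
      congr 1
      refine Finset.prod_congr rfl fun l _ => ?_
      rw [Lx_eq g₀ (hpos _) ht]
    have htlx_an : ∀ β, ∀ z ∈ ball (0 : ℂ) ρ', AnalyticAt ℂ (fun z => tlx β (z + g₀)) z := by
      intro β z hz
      rw [mem_ball_zero_iff] at hz
      have hsh : AnalyticAt ℂ (fun z : ℂ => z + g₀) z := analyticAt_id.add analyticAt_const
      have hz0 : z + (g₀ : ℂ) ≠ 0 := by
        intro h0
        have h1 : z = -(g₀ : ℂ) := by linear_combination h0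
        rw [h1, norm_neg, Complex.norm_real, Real.norm_of_nonneg (by linarith)] at hz
        linarith
      have hmain : AnalyticAt ℂ (tlx β) (z + g₀) := by
        show AnalyticAt ℂ (fun t => ∑ b' : Fin k → κ × Fin n, a (Fin.cons β b') t *
          ∏ l, (ou (y (b' l).1) (t - g l.succ) * Lx g₀ (g l.succ) t ^ ((b' l).2 : ℕ))) (z + g₀)
        refine Finset.analyticAt_fun_sum _ fun b' _ => ?_
        refine (ha _ _ hz0).mul (Finset.analyticAt_fun_prod _ fun l _ => ?_)
        have hs := hsep 0 l.succ (Fin.succ_ne_zero l).symm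
        refine AnalyticAt.mul ?_ ((Lx_an (r := ρ') (by linarith) (by linarith) (hpos _) (by
          rw [add_sub_cancel_right]
          exact hz)).pow _)
        have hn : ρ < ‖z + (g₀ : ℂ) - g l.succ‖ := by
          have h1 : ‖((g₀ - g l.succ : ℝ) : ℂ)‖ ≤ ‖z + (g₀ : ℂ) - g l.succ‖ + ‖z‖ := by
            have h2 : ((g₀ - g l.succ : ℝ) : ℂ) = (z + (g₀ : ℂ) - g l.succ) - z := by
              push_cast
              ring
            rw [h2]
            exact norm_sub_le _ _
          rw [Complex.norm_real, Real.norm_eq_abs] at h1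
          linarith
        have h3 := ou_an hρ.le (hy (b' l).1) (z + (g₀ : ℂ) - g l.succ) hn
        exact AnalyticAt.comp (g := ou (y (b' l).1)) (f := fun t : ℂ => t - g l.succ) h3
          (analyticAt_id.sub analyticAt_const)
      exact AnalyticAt.comp (g := tlx β) (f := fun z : ℂ => z + g₀) hmain hsh
    have htl_an : ∀ β, AnalyticOnNhd ℂ (tl β) (Up ρ) := by
      intro β t ht
      have h1 : 0 < t.im := hρ.trans ht
      have ht0 : t ≠ 0 := by
        rintro rfl
        simp at h1
      show AnalyticAt ℂ (fun t => ∑ b' : Fin k → κ × Fin n, a (Fin.cons β b') t *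
        ∏ l, (ou (y (b' l).1) (t - g l.succ) * Complex.log (1 - g l.succ / t) ^ ((b' l).2 : ℕ))) t
      refine Finset.analyticAt_fun_sum _ fun b' _ => ?_
      refine (ha _ _ ht0).mul (Finset.analyticAt_fun_prod _ fun l _ => ?_)
      refine AnalyticAt.mul ?_ ((log_an_up hρ ht (hpos _)).pow _)
      have h3 := ou_an hρ.le (hy (b' l).1) (t - g l.succ) (Up_norm ht _)
      exact AnalyticAt.comp (g := ou (y (b' l).1)) (f := fun t : ℂ => t - g l.succ) h3
        (analyticAt_id.sub analyticAt_const)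
    -- the splitting
    have hsplit : ∀ t : ℂ, ∑ b, a b t * ∏ l, (ou (y (b l).1) (t - g l) * Complex.log (1 - g l / t) ^ ((b l).2 : ℕ)) =
        ∑ β : κ × Fin n, tl β t * (ou (y β.1) (t - g₀) * Complex.log (1 - g₀ / t) ^ (β.2 : ℕ)) := by
      intro t
      rw [← Equiv.sum_comp (Fin.consEquiv fun _ => κ × Fin n), Fintype.sum_prod_type]
      refine Finset.sum_congr rfl fun β _ => ?_
      show _ = (∑ b' : Fin k → κ × Fin n, a (Fin.cons β b') t *
        ∏ l, (ou (y (b' l).1) (t - g l.succ) * Complex.log (1 - g l.succ / t) ^ ((b' l).2 : ℕ))) * _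
      rw [Finset.sum_mul]
      refine Finset.sum_congr rfl fun b' _ => ?_
      have e0 : (Fin.consEquiv fun _ => κ × Fin n) (β, b') = Fin.cons β b' := rfl
      rw [e0, Fin.prod_univ_succ]
      simp only [Fin.cons_zero, Fin.cons_succ]
      rw [← hg₀]
      ring
    -- the point
    set η : ℝ := (ρ + ρ') / 2 with hη
    set p : ℂ := η * Complex.I with hp
    have hη1 : ρ < η := by linarith
    have hη2 : η < ρ' := by linarith
    have hη0 : 0 < η := by linarith
    have hpn : ‖p‖ = η := by
      rw [hp, norm_mul, Complex.norm_I, mul_one, Complex.norm_real, Real.norm_of_nonneg hη0.le]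
    have hpim : p.im = η := by
      rw [hp]
      simp
    have hnear : ∀ᶠ z in 𝓝 p, z ∈ Up ρ := Up_open.mem_nhds (show ρ < p.im by rw [hpim]; exact hη1)
    have hup : ∀ z : ℂ, z ∈ Up ρ → z + g₀ ∈ Up ρ := by
      intro z hz
      show ρ < (z + g₀).im
      have : ρ < z.im := hz
      simpa using this
    let c : κ → ℕ → ℂ → ℂ := fun i ε z => if h : ε < n then tlx (i, ⟨ε, h⟩) (z + g₀) else 0
    have hc : ∀ i ε, AnalyticOnNhd ℂ (c i ε) (ball 0 ρ') := by
      intro i ε z hz
      by_cases h : ε < n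
      · have : c i ε = fun z => tlx (i, ⟨ε, h⟩) (z + g₀) := by
          funext z
          show (if h : ε < n then tlx (i, ⟨ε, h⟩) (z + g₀) else 0) = _
          rw [dif_pos h]
        rw [this]
        exact htlx_an _ z hz
      · have : c i ε = fun z => 0 := by
          funext z
          show (if h : ε < n then tlx (i, ⟨ε, h⟩) (z + g₀) else 0) = _
          rw [dif_neg h]
        rw [this]
        exact analyticAt_const
    have hdisc := disc_log hρ hy hD (g := g₀) (by linarith) n c hc (p := p) (by rw [hpn]; exact hη1)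
      (by rw [hpn]; exact hη2) (by rw [hpim]; exact hη0) (by
      filter_upwards [hnear] with z hz
      have h1 := hrel (z + g₀) (hup z hz)
      rw [hsplit, Fintype.sum_prod_type] at h1
      refine Eq.trans ?_ h1
      refine Finset.sum_congr rfl fun i _ => ?_
      rw [Finset.sum_range]
      refine Finset.sum_congr rfl fun ε _ => ?_
      have h2 : c i (ε : ℕ) z = tlx (i, ε) (z + g₀) := by
        show (if h : (ε : ℕ) < n then tlx (i, ⟨ε, h⟩) (z + g₀) else 0) = _
        rw [dif_pos ε.2]
      rw [h2, htlx _ _ (hρ.trans (hup z hz)), add_sub_cancel_right])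
    -- vanishing of the tails
    have hzero : ∀ β, ∀ t ∈ Up ρ, tl β t = 0 := by
      rintro ⟨i, ε⟩ t ht
      have h1 := hdisc i ε ε.2
      have h2 : ∀ᶠ z in 𝓝 p, tl (i, ε) (z + g₀) = 0 := by
        filter_upwards [h1, hnear] with z hz hz2
        have h3 : c i (ε : ℕ) z = tlx (i, ε) (z + g₀) := by
          show (if h : (ε : ℕ) < n then tlx (i, ⟨ε, h⟩) (z + g₀) else 0) = _
          rw [dif_pos ε.2]
        rw [h3, htlx _ _ (hρ.trans (hup z hz2))] at hz
        exact hz
      have h3 : ∀ᶠ t in 𝓝 (p + g₀), tl (i, ε) t = 0 := by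
        have h4 : Tendsto (fun t : ℂ => t - g₀) (𝓝 (p + g₀)) (𝓝 p) := by
          have h5 : Continuous fun t : ℂ => t - g₀ := continuous_id.sub continuous_const
          have h6 := h5.tendsto (p + g₀)
          simpa using h6
        filter_upwards [h4.eventually h2] with t ht
        simpa using ht
      have hpU : p + (g₀ : ℂ) ∈ Up ρ := hup p (show ρ < p.im by rw [hpim]; exact hη1)
      exact AnalyticOnNhd.eqOn_zero_of_preconnected_of_eventuallyEq_zero (htl_an (i, ε)) Up_conv.isPreconnected hpU h3 ht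
    intro b t ht
    have h1 := ih (fun l => g l.succ) (fun l => hgR _) (fun l l' hl => hsep _ _ (fun h => hl (Fin.succ_injective _ h)))
      (fun b' => a (Fin.cons (b 0) b')) (fun b' => ha _) (fun t ht => hzero (b 0) t ht) (Fin.tail b) t ht
    rw [Fin.cons_self_tail] at h1
    exact h1

end

end Pool.Agent.Y120.GH
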