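import Pool.Agent.Y120.H.Pull
import Pool.Agent.Y120.H.Step

/-!
# Products of solutions; adjoining the constant function
-/

set_option autoImplicit false

open Filter Topology Metric Set PowerSeries

namespace Pool.Agent.Y120.GH

section
variable {R ι : Type} [CommRing R] [Fintype ι] [DecidableEq ι]

/-- the system of the products -/
def AT {δ : ℕ} {S : Type} [AddCommMonoid S] (A : ι → ι → S) (b b' : Fin δ → ι) : S :=
  ∑ j, ∑ c, if Function.update b j c = b' then A (b j) c else 0

lemma prod_leib {δ : Type} [DecidableEq δ] (D : R → R) (h1 : D 1 = 0) (hmul : ∀ a b, D (a * b) = a * D b + b * D a)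
    (s : Finset δ) (f : δ → R) : D (∏ j ∈ s, f j) = ∑ j ∈ s, (∏ j' ∈ s.erase j, f j') * D (f j) := by
  induction s using Finset.induction_on with
  | empty => simp [h1]
  | insert a s ha ih =>
    rw [Finset.prod_insert ha, hmul, Finset.sum_insert ha, Finset.erase_insert ha, ih, Finset.mul_sum, add_comm]
    congr 1
    refine Finset.sum_congr rfl fun l hl => ?_
    have hne : a ≠ l := fun h => ha (h ▸ hl)
    rw [Finset.erase_insert_of_ne hne, Finset.prod_insert (fun h => ha (Finset.mem_of_mem_erase h))]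
    ring

theorem tens_der {δ : ℕ} (D : R → R) (h1 : D 1 = 0) (hmul : ∀ a b, D (a * b) = a * D b + b * D a) (T m : R)
    (A : ι → ι → R) (h : Fin δ → ι → R) (hh : ∀ j i, T * D (h j i) = m * h j i + ∑ l, A i l * h j l) (b : Fin δ → ι) :
    T * D (∏ j, h j (b j)) = (δ * m) * ∏ j, h j (b j) + ∑ b', AT A b b' * ∏ j, h j (b' j) := by
  classical
  have hprod : ∀ (j : Fin δ) (c : ι), ∏ j', h j' (Function.update b j c j') =
      (∏ j' ∈ Finset.univ.erase j, h j' (b j')) * h j c := by
    intro j c
    rw [← Finset.mul_prod_erase _ _ (Finset.mem_univ j), Function.update_self, mul_comm]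
    congr 1
    refine Finset.prod_congr rfl fun j' hj' => ?_
    rw [Function.update_of_ne (Finset.ne_of_mem_erase hj')]
  have hR : ∑ b', AT A b b' * ∏ j, h j (b' j) = ∑ j, ∑ c, A (b j) c * ((∏ j' ∈ Finset.univ.erase j, h j' (b j')) * h j c) := by
    unfold AT
    simp only [Finset.sum_mul]
    rw [Finset.sum_comm]
    refine Finset.sum_congr rfl fun j _ => ?_
    rw [Finset.sum_comm]
    refine Finset.sum_congr rfl fun c _ => ?_
    rw [Finset.sum_eq_single (Function.update b j c)]
    · rw [if_pos rfl, hprod]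
    · intro b' _ hne
      rw [if_neg hne.symm, zero_mul]
    · intro h2
      exact absurd (Finset.mem_univ _) h2
  rw [hR, prod_leib D h1 hmul, Finset.mul_sum]
  have hterm : ∀ j : Fin δ, T * ((∏ j' ∈ Finset.univ.erase j, h j' (b j')) * D (h j (b j))) =
      m * ∏ j, h j (b j) + ∑ c, A (b j) c * ((∏ j' ∈ Finset.univ.erase j, h j' (b j')) * h j c) := by
    intro j
    have e1 : T * ((∏ j' ∈ Finset.univ.erase j, h j' (b j')) * D (h j (b j))) =
        (∏ j' ∈ Finset.univ.erase j, h j' (b j')) * (T * D (h j (b j))) := by ring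
    rw [e1, hh, mul_add, Finset.mul_sum, ← Finset.mul_prod_erase _ (fun j => h j (b j)) (Finset.mem_univ j)]
    congr 1
    · ring
    · refine Finset.sum_congr rfl fun c _ => ?_
      ring
  rw [Finset.sum_congr rfl fun j _ => hterm j, Finset.sum_add_distrib, Finset.sum_const, Finset.card_univ,
    Fintype.card_fin, nsmul_eq_mul]
  congr 1
  ring

lemma AT_map {δ : ℕ} {S S' : Type} [AddCommMonoid S] [AddCommMonoid S'] (f : S →+ S') (A : ι → ι → S) (b b' : Fin δ → ι) :
    f (AT A b b') = AT (fun i j => f (A i j)) b b' := by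
  unfold AT
  rw [map_sum]
  refine Finset.sum_congr rfl fun j _ => ?_
  rw [map_sum]
  refine Finset.sum_congr rfl fun c _ => ?_
  split_ifs
  · rfl
  · exact map_zero f

lemma det_ne_of_mul [IsDomain R] {P Q : Matrix ι ι R} {s : R} (hs : s ≠ 0) (h : P * Q = s • (1 : Matrix ι ι R)) :
    P.det ≠ 0 := by
  intro h0
  have h1 := congrArg Matrix.det h
  rw [Matrix.det_mul, h0, zero_mul, Matrix.det_smul, Matrix.det_one, mul_one] at h1
  exact pow_ne_zero _ hs h1.symm

/-- the tensor power of a matrix -/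
def MT (δ : ℕ) (Φ : Matrix ι ι R) : Matrix (Fin δ → ι) (Fin δ → ι) R := fun b c => ∏ j, Φ (b j) (c j)

lemma MT_mul (δ : ℕ) (Φ Ψ : Matrix ι ι R) : MT δ Φ * MT δ Ψ = MT δ (Φ * Ψ) := by
  ext b c
  rw [Matrix.mul_apply]
  unfold MT
  simp only [Matrix.mul_apply]
  rw [Finset.prod_univ_sum, Fintype.piFinset_univ]
  refine Finset.sum_congr rfl fun a _ => ?_
  rw [← Finset.prod_mul_distrib]

lemma MT_smul_one (δ : ℕ) (s : R) : MT δ (s • (1 : Matrix ι ι R)) = s ^ δ • (1 : Matrix (Fin δ → ι) (Fin δ → ι) R) := by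
  ext b c
  unfold MT
  rw [Matrix.smul_apply, Matrix.one_apply]
  by_cases h : b = c
  · subst h
    rw [if_pos rfl]
    simp
  · rw [if_neg h, smul_zero]
    obtain ⟨j, hj⟩ : ∃ j, b j ≠ c j := by
      by_contra hno
      push Not at hno
      exact h (funext hno)
    refine Finset.prod_eq_zero (Finset.mem_univ j) ?_
    rw [Matrix.smul_apply, Matrix.one_apply_ne hj, smul_zero]

lemma MT_det [IsDomain R] (δ : ℕ) {Φ : Matrix ι ι R} (h : Φ.det ≠ 0) : (MT δ Φ).det ≠ 0 := by
  refine det_ne_of_mul (Q := MT δ Φ.adjugate) (pow_ne_zero δ h) ?_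
  rw [MT_mul, Matrix.mul_adjugate, MT_smul_one]

end

/-! ## the derivation on polynomials in the logarithm -/

/-- the derivation of the coefficients -/
noncomputable def th0 (P : Polynomial (PowerSeries ℂ)) : Polynomial (PowerSeries ℂ) :=
  ∑ k ∈ Finset.range (P.natDegree + 1), Polynomial.C (X * PowerSeries.derivative ℂ (P.coeff k)) * Polynomial.X ^ k

lemma coeff_th0 (P : Polynomial (PowerSeries ℂ)) (k : ℕ) : (th0 P).coeff k = X * PowerSeries.derivative ℂ (P.coeff k) := by
  rw [th0, Polynomial.finsetSum_coeff]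
  rcases Nat.lt_or_ge k (P.natDegree + 1) with hm | hm
  · rw [Finset.sum_eq_single k]
    · rw [Polynomial.coeff_C_mul, Polynomial.coeff_X_pow_self, mul_one]
    · intro l _ hne
      rw [Polynomial.coeff_C_mul, Polynomial.coeff_X_pow, if_neg hne.symm, mul_zero]
    · intro h2
      exact absurd (Finset.mem_range.2 hm) h2
  · rw [Finset.sum_eq_zero]
    · rw [Polynomial.coeff_eq_zero_of_natDegree_lt (n := k) (by omega), map_zero, mul_zero]
    · intro l hl
      rw [Finset.mem_range] at hl
      rw [Polynomial.coeff_C_mul, Polynomial.coeff_X_pow, if_neg (by omega), mul_zero]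

lemma th0_mul (P Q : Polynomial (PowerSeries ℂ)) : th0 (P * Q) = P * th0 Q + Q * th0 P := by
  rw [mul_comm Q]
  ext1 k
  rw [coeff_th0, Polynomial.coeff_add, Polynomial.coeff_mul, Polynomial.coeff_mul, Polynomial.coeff_mul, map_sum,
    Finset.mul_sum, ← Finset.sum_add_distrib]
  refine Finset.sum_congr rfl fun q _ => ?_
  rw [Derivation.leibniz, coeff_th0, coeff_th0]
  simp only [smul_eq_mul]
  ring

/-- the derivation `u d/du` on the polynomials in the logarithm of `u` -/
noncomputable def th (P : Polynomial (PowerSeries ℂ)) : Polynomial (PowerSeries ℂ) := th0 P + Polynomial.derivative P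

lemma coeff_th (P : Polynomial (PowerSeries ℂ)) (k : ℕ) : (th P).coeff k =
    X * PowerSeries.derivative ℂ (P.coeff k) + ((k : PowerSeries ℂ) + 1) * P.coeff (k + 1) := by
  rw [th, Polynomial.coeff_add, coeff_th0, Polynomial.coeff_derivative]
  ring

lemma th_one : th 1 = 0 := by
  ext1 k
  rw [coeff_th, Polynomial.coeff_one, Polynomial.coeff_one, if_neg (Nat.succ_ne_zero k), mul_zero, add_zero,
    Polynomial.coeff_zero]
  split_ifs
  · rw [Derivation.map_one_eq_zero, mul_zero]
  · rw [map_zero, mul_zero]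

lemma th_mul (P Q : Polynomial (PowerSeries ℂ)) : th (P * Q) = P * th Q + Q * th P := by
  rw [th, th0_mul, Polynomial.derivative_mul, th, th]
  ring

section
variable {e : ℕ} (he : e ≠ 0) {σ : Type} [Fintype σ] [DecidableEq σ]

/-- there is a fundamental matrix of the form `u ^ (- M) Φ(u, log u)` with `u ^ e = x` -/
def QU (τ : ℝ) (T : Polynomial ℂ) (A : σ → σ → Polynomial ℂ) : Prop :=
  ∃ (M : ℕ) (Φ : Matrix σ σ (Polynomial (PowerSeries ℂ))), (∀ i j k, (Φ i j).coeff k ∈ Cw τ) ∧
    (∀ i j k, expand e he (T : PowerSeries ℂ) * ((X : PowerSeries ℂ) * PowerSeries.derivative ℂ ((Φ i j).coeff k) +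
        ((k : PowerSeries ℂ) + 1) * (Φ i j).coeff (k + 1) - (M : PowerSeries ℂ) * (Φ i j).coeff k) =
      (e : PowerSeries ℂ) * X ^ e * ∑ l, expand e he (A i l : PowerSeries ℂ) * (Φ l j).coeff k) ∧ Φ.det ≠ 0

/-- the equation in terms of the derivation -/
lemma qu_eqn {T : Polynomial ℂ} {A : σ → σ → Polynomial ℂ} {M : ℕ} {Φ : Matrix σ σ (Polynomial (PowerSeries ℂ))} :
    (∀ i j k, expand e he (T : PowerSeries ℂ) * ((X : PowerSeries ℂ) * PowerSeries.derivative ℂ ((Φ i j).coeff k) +
        ((k : PowerSeries ℂ) + 1) * (Φ i j).coeff (k + 1) - (M : PowerSeries ℂ) * (Φ i j).coeff k) =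
      (e : PowerSeries ℂ) * X ^ e * ∑ l, expand e he (A i l : PowerSeries ℂ) * (Φ l j).coeff k) ↔
    ∀ j i, Polynomial.C (expand e he (T : PowerSeries ℂ)) * th (Φ i j) =
      Polynomial.C (expand e he (T : PowerSeries ℂ) * (M : PowerSeries ℂ)) * Φ i j +
        ∑ l, Polynomial.C ((e : PowerSeries ℂ) * X ^ e * expand e he (A i l : PowerSeries ℂ)) * Φ l j := by
  constructor
  · intro h j i
    ext1 k
    have h1 := h i j k
    rw [Polynomial.coeff_C_mul, coeff_th, Polynomial.coeff_add, Polynomial.coeff_C_mul, Polynomial.finsetSum_coeff]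
    simp only [Polynomial.coeff_C_mul]
    rw [Finset.mul_sum] at h1
    have h2 : ∑ l, (e : PowerSeries ℂ) * X ^ e * expand e he (A i l : PowerSeries ℂ) * (Φ l j).coeff k =
        ∑ l, (e : PowerSeries ℂ) * X ^ e * (expand e he (A i l : PowerSeries ℂ) * (Φ l j).coeff k) :=
      Finset.sum_congr rfl fun l _ => by ring
    rw [h2, ← h1]
    ring
  · intro h i j k
    have h1 := congrArg (fun P => Polynomial.coeff P k) (h j i)
    simp only [Polynomial.coeff_C_mul, coeff_th, Polynomial.coeff_add, Polynomial.finsetSum_coeff] at h1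
    rw [Finset.mul_sum]
    have h2 : ∑ l, (e : PowerSeries ℂ) * X ^ e * expand e he (A i l : PowerSeries ℂ) * (Φ l j).coeff k =
        ∑ l, (e : PowerSeries ℂ) * X ^ e * (expand e he (A i l : PowerSeries ℂ) * (Φ l j).coeff k) :=
      Finset.sum_congr rfl fun l _ => by ring
    rw [← h2]
    linear_combination h1

lemma coeff_prod_mem {τ : ℝ} {δ : Type} (s : Finset δ) (f : δ → Polynomial (PowerSeries ℂ))
    (h : ∀ j ∈ s, ∀ k, (f j).coeff k ∈ Cw τ) (k : ℕ) : (∏ j ∈ s, f j).coeff k ∈ Cw τ := by
  classical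
  induction s using Finset.induction_on generalizing k with
  | empty =>
    rw [Finset.prod_empty, Polynomial.coeff_one]
    split_ifs
    · exact (Cw τ).one_mem
    · exact (Cw τ).zero_mem
  | insert a s ha ih =>
    rw [Finset.prod_insert ha, Polynomial.coeff_mul]
    refine (Cw τ).sum_mem fun q _ => (Cw τ).mul_mem (h a (Finset.mem_insert_self _ _) _) ?_
    exact ih (fun j hj => h j (Finset.mem_insert_of_mem hj)) _

theorem qu_tens {τ : ℝ} {T : Polynomial ℂ} {A : σ → σ → Polynomial ℂ} (δ : ℕ) (h : QU he τ T A) :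
    QU he τ T (AT (δ := δ) A) := by
  obtain ⟨M, Φ, hc, he1, hdet⟩ := h
  refine ⟨δ * M, MT δ Φ, ?_, ?_, MT_det δ hdet⟩
  · intro b c k
    exact coeff_prod_mem _ _ (fun j _ k => hc _ _ k) k
  · rw [qu_eqn] at he1 ⊢
    intro c b
    have h1 := tens_der (δ := δ) th th_one th_mul (Polynomial.C (expand e he (T : PowerSeries ℂ)))
      (Polynomial.C (expand e he (T : PowerSeries ℂ) * (M : PowerSeries ℂ)))
      (fun i l => Polynomial.C ((e : PowerSeries ℂ) * X ^ e * expand e he (A i l : PowerSeries ℂ)))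
      (fun j i => Φ i (c j)) (fun j i => he1 (c j) i) b
    refine Eq.trans h1 (congrArg₂ (fun a b => a + b) ?_ ?_)
    · show _ = _ * ∏ j, Φ (b j) (c j)
      have h2 : Polynomial.C (expand e he (T : PowerSeries ℂ) * ((δ * M : ℕ) : PowerSeries ℂ)) =
          (δ : Polynomial (PowerSeries ℂ)) * Polynomial.C (expand e he (T : PowerSeries ℂ) * (M : PowerSeries ℂ)) := by
        have h3 : (δ : Polynomial (PowerSeries ℂ)) = Polynomial.C (δ : PowerSeries ℂ) := by simp
        rw [h3, ← map_mul]
        congr 1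
        push_cast
        ring
      rw [h2]
    · refine Finset.sum_congr rfl fun b' _ => ?_
      show _ * ∏ j, Φ (b' j) (c j) = _ * ∏ j, Φ (b' j) (c j)
      refine congrArg (fun a => a * ∏ j, Φ (b' j) (c j)) ?_
      let f : Polynomial ℂ →+ Polynomial (PowerSeries ℂ) :=
        { toFun := fun P => Polynomial.C ((e : PowerSeries ℂ) * X ^ e * expand e he (P : PowerSeries ℂ))
          map_zero' := by simp
          map_add' := fun P Q => by
            rw [Polynomial.coe_add, map_add, mul_add, map_add] }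
      exact (AT_map f A b b').symm

/-- adjoining the constant function -/
def A1 {ι S : Type} [Zero S] (A : ι → ι → S) : Option ι → Option ι → S
  | some i, some j => A i j
  | _, _ => 0

theorem qu_one {τ : ℝ} {T : Polynomial ℂ} {A : σ → σ → Polynomial ℂ} (h : QU he τ T A) : QU he τ T (A1 A) := by
  obtain ⟨M, Φ, hc, he1, hdet⟩ := h
  let Φ' : Matrix (Option σ) (Option σ) (Polynomial (PowerSeries ℂ)) := fun i j =>
    match i, j with
    | some i, some j => Φ i j
    | none, none => Polynomial.C (X ^ M)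
    | _, _ => 0
  let Ψ' : Matrix (Option σ) (Option σ) (Polynomial (PowerSeries ℂ)) := fun i j =>
    match i, j with
    | some i, some j => Polynomial.C (X ^ M) * Φ.adjugate i j
    | none, none => Φ.det
    | _, _ => 0
  refine ⟨M, Φ', ?_, ?_, ?_⟩
  · rintro (_ | i) (_ | j) k
    · show (Polynomial.C ((X : PowerSeries ℂ) ^ M)).coeff k ∈ Cw τ
      rw [Polynomial.coeff_C]
      split_ifs
      · exact (Cw τ).pow_mem X_mem M
      · exact (Cw τ).zero_mem
    · exact (Cw τ).zero_mem
    · exact (Cw τ).zero_mem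
    · exact hc i j k
  · rintro (_ | i) (_ | j) k
    · have h0 : ∑ l : Option σ, expand e he ((A1 A none l : Polynomial ℂ) : PowerSeries ℂ) * (Φ' l none).coeff k = 0 := by
        refine Finset.sum_eq_zero fun l _ => ?_
        have : A1 A none l = 0 := by rcases l with _ | l <;> rfl
        rw [this]
        simp
      rw [h0, mul_zero]
      have h1 : X * PowerSeries.derivative ℂ ((Polynomial.C ((X : PowerSeries ℂ) ^ M)).coeff k) +
          ((k : PowerSeries ℂ) + 1) * (Polynomial.C ((X : PowerSeries ℂ) ^ M)).coeff (k + 1) -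
          (M : PowerSeries ℂ) * (Polynomial.C ((X : PowerSeries ℂ) ^ M)).coeff k = 0 := by
        rw [Polynomial.coeff_C, Polynomial.coeff_C, if_neg (Nat.succ_ne_zero k), mul_zero, add_zero]
        split_ifs
        · rw [Derivation.leibniz_pow, derivative_X, nsmul_eq_mul]
          simp only [smul_eq_mul, mul_one]
          rcases M with _ | M
          · simp
          · rw [Nat.add_sub_cancel, pow_succ]
            ring
        · simp
      show expand e he (T : PowerSeries ℂ) * (X * PowerSeries.derivative ℂ ((Polynomial.C ((X : PowerSeries ℂ) ^ M)).coeff k) +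
          ((k : PowerSeries ℂ) + 1) * (Polynomial.C ((X : PowerSeries ℂ) ^ M)).coeff (k + 1) -
          (M : PowerSeries ℂ) * (Polynomial.C ((X : PowerSeries ℂ) ^ M)).coeff k) = 0
      rw [h1, mul_zero]
    · have h0 : ∑ l : Option σ, expand e he ((A1 A none l : Polynomial ℂ) : PowerSeries ℂ) * (Φ' l (some j)).coeff k = 0 := by
        refine Finset.sum_eq_zero fun l _ => ?_
        have : A1 A none l = 0 := by rcases l with _ | l <;> rfl
        rw [this]
        simp
      rw [h0, mul_zero]
      show expand e he (T : PowerSeries ℂ) * (X * PowerSeries.derivative ℂ ((0 : Polynomial (PowerSeries ℂ)).coeff k) +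
        ((k : PowerSeries ℂ) + 1) * (0 : Polynomial (PowerSeries ℂ)).coeff (k + 1) -
        (M : PowerSeries ℂ) * (0 : Polynomial (PowerSeries ℂ)).coeff k) = 0
      simp
    · have h0 : ∑ l : Option σ, expand e he ((A1 A (some i) l : Polynomial ℂ) : PowerSeries ℂ) * (Φ' l none).coeff k = 0 := by
        refine Finset.sum_eq_zero fun l _ => ?_
        rcases l with _ | l
        · show expand e he ((0 : Polynomial ℂ) : PowerSeries ℂ) * _ = 0
          simp
        · show _ * (0 : Polynomial (PowerSeries ℂ)).coeff k = 0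
          simp
      rw [h0, mul_zero]
      show expand e he (T : PowerSeries ℂ) * (X * PowerSeries.derivative ℂ ((0 : Polynomial (PowerSeries ℂ)).coeff k) +
        ((k : PowerSeries ℂ) + 1) * (0 : Polynomial (PowerSeries ℂ)).coeff (k + 1) -
        (M : PowerSeries ℂ) * (0 : Polynomial (PowerSeries ℂ)).coeff k) = 0
      simp
    · rw [Fintype.sum_option]
      have h1 := he1 i j k
      show expand e he (T : PowerSeries ℂ) * (X * PowerSeries.derivative ℂ ((Φ i j).coeff k) +
        ((k : PowerSeries ℂ) + 1) * (Φ i j).coeff (k + 1) - (M : PowerSeries ℂ) * (Φ i j).coeff k) =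
        (e : PowerSeries ℂ) * X ^ e * (expand e he ((0 : Polynomial ℂ) : PowerSeries ℂ) * (0 : Polynomial (PowerSeries ℂ)).coeff k +
          ∑ l, expand e he (A i l : PowerSeries ℂ) * (Φ l j).coeff k)
      rw [h1]
      simp
  · have hX : Polynomial.C ((X : PowerSeries ℂ) ^ M) ≠ 0 := by
      rw [Ne, Polynomial.C_eq_zero]
      exact pow_ne_zero _ X_ne_zero
    refine det_ne_of_mul (Q := Ψ') (s := Polynomial.C ((X : PowerSeries ℂ) ^ M) * Φ.det) (mul_ne_zero hX hdet) ?_
    ext1 i j
    rw [Matrix.mul_apply, Fintype.sum_option, Matrix.smul_apply, Matrix.one_apply]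
    rcases i with _ | i <;> rcases j with _ | j
    · show Polynomial.C ((X : PowerSeries ℂ) ^ M) * Φ.det + ∑ l : σ, 0 * (0 : Polynomial (PowerSeries ℂ)) = _
      simp
    · show Polynomial.C ((X : PowerSeries ℂ) ^ M) * 0 + ∑ l : σ, 0 * (Polynomial.C (X ^ M) * Φ.adjugate l j) = _
      simp
    · show 0 * Φ.det + ∑ l : σ, Φ i l * 0 = _
      simp
    · show 0 * 0 + ∑ l : σ, Φ i l * (Polynomial.C (X ^ M) * Φ.adjugate l j) = _
      have h1 : ∑ l : σ, Φ i l * (Polynomial.C ((X : PowerSeries ℂ) ^ M) * Φ.adjugate l j) =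
          Polynomial.C ((X : PowerSeries ℂ) ^ M) * (Φ * Φ.adjugate) i j := by
        rw [Matrix.mul_apply, Finset.mul_sum]
        refine Finset.sum_congr rfl fun l _ => ?_
        ring
      rw [h1, Matrix.mul_adjugate, Matrix.smul_apply, Matrix.one_apply]
      by_cases h : i = j
      · subst h
        simp
      · rw [if_neg h, if_neg (by simpa using h)]
        simp

/-- the independence over the functions which are holomorphic in the disc -/
theorem disc_of_qu {τ τ' : ℝ} (hτ : 0 < τ) (hτ' : 0 < τ') (y : σ → PowerSeries ℂ) (hy : ∀ i, y i ∈ Cw (τ ^ e))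
    (T : Polynomial ℂ) (hT : T ≠ 0) (A : σ → σ → Polynomial ℂ)
    (hode : ∀ i, (T : PowerSeries ℂ) * PowerSeries.derivative ℂ (y i) = ∑ j, (A i j : PowerSeries ℂ) * y j)
    (hqu : QU he τ T A) (B : Set σ) [Fintype B]
    (hLI : ∀ G : B → Polynomial ℂ, ∑ i, (G i : PowerSeries ℂ) * y i = 0 → ∀ i, G i = 0) :
    Disc (τ ^ e) (τ' ^ e) fun b : B => y b := by
  classical
  obtain ⟨M, Φ, hc, he1, hdet⟩ := hqu
  intro p hp hp' hpim c hcan hrel
  have hsumB : ∀ {S : Type} [AddCommMonoid S] (F : σ → S), (∀ i, i ∉ B → F i = 0) → ∑ i, F i = ∑ i : B, F i := by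
    intro S _ F hF
    rw [← Finset.sum_subset (Finset.subset_univ (B.toFinset)) (fun i _ hi => hF i (by simpa using hi))]
    rw [← Finset.sum_coe_sort (B.toFinset)]
    exact Fintype.sum_equiv (Equiv.subtypeEquivRight fun i => by simp) _ _ fun i => rfl
  let c' : σ → ℂ → ℂ := fun i => if h : i ∈ B then c ⟨i, h⟩ else 0
  have hc'B : ∀ i : B, c' i = c i := fun i => by
    show (if h : (i : σ) ∈ B then c ⟨i, h⟩ else 0) = _
    rw [dif_pos i.2]
  have hc'0 : ∀ i, i ∉ B → c' i = 0 := fun i hi => by
    show (if h : i ∈ B then c ⟨i, h⟩ else 0) = _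
    rw [dif_neg hi]
  have h1 := coreq he hτ hτ' hp hp' hpim y hy T hT A hode Φ hc M he1 hdet B (by
    intro G hG hsum
    have h2 := hLI (fun i => G i) (by
      rw [← hsumB (fun i => (G i : PowerSeries ℂ) * y i) fun i hi => by rw [hG i hi]; simp]
      exact hsum)
    intro i
    by_cases hi : i ∈ B
    · exact h2 ⟨i, hi⟩
    · exact hG i hi) c' (by
      intro i
      by_cases hi : i ∈ B
      · have := hcan ⟨i, hi⟩
        rw [← hc'B ⟨i, hi⟩] at this
        exact this
      · rw [hc'0 i hi]
        exact analyticOnNhd_const) hc'0 (by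
      filter_upwards [hrel] with z hz
      rw [hsumB (fun i => c' i z * ou (y i) z) fun i hi => by rw [hc'0 i hi]; simp]
      refine Eq.trans ?_ hz
      refine Finset.sum_congr rfl fun i _ => ?_
      rw [hc'B])
  intro i
  have h2 := h1 i
  rw [hc'B] at h2
  exact h2

end

end Pool.Agent.Y120.GH
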