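import Pool.Agent.Y120.H.FamR
import Pool.Agent.Y120.H.Tens

/-!
# The main theorem for one family
-/

set_option autoImplicit false

open PowerSeries Pool.Agent.Y113 Pool.Agent.Y120.GF

namespace Pool.Agent.Y120.GH

/-- the products of `δ` factors, each of them `1` or one of the `z_i` -/
def yw {r δ : ℕ} {K : Type} [CommMonoid K] (z : Fin r → K) (b : Fin δ → Option (Fin r)) : K := ∏ j, (b j).elim 1 z

/-- the integer polynomials as complex power series -/
lemma cx_ps (P : Polynomial ℤ) : cx (ps P) = ((P.map (Int.castRingHom ℂ) : Polynomial ℂ) : PowerSeries ℂ) := by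
  unfold ps
  rw [cx_poly, Polynomial.map_map]
  congr 2

/-- the hypothesis at the point zero -/
def QU0 {ι : Type} [Fintype ι] [DecidableEq ι] (T : Polynomial ℤ) (A : ι → ι → Polynomial ℤ) : Prop :=
  ∃ (e : ℕ) (he : e ≠ 0) (M : ℕ) (K : ℝ) (Φ : Matrix ι ι (Polynomial (PowerSeries ℂ))),
    (∀ i j k m, ‖coeff m ((Φ i j).coeff k)‖ ≤ K ^ (m + 1)) ∧
    (∀ i j k, expand e he ((T.map (Int.castRingHom ℂ) : Polynomial ℂ) : PowerSeries ℂ) *
        ((X : PowerSeries ℂ) * PowerSeries.derivative ℂ ((Φ i j).coeff k) +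
        ((k : PowerSeries ℂ) + 1) * (Φ i j).coeff (k + 1) - (M : PowerSeries ℂ) * (Φ i j).coeff k) =
      (e : PowerSeries ℂ) * X ^ e * ∑ l, expand e he (((A i l).map (Int.castRingHom ℂ) : Polynomial ℂ) : PowerSeries ℂ) *
        (Φ l j).coeff k) ∧ Φ.det ≠ 0

lemma mem_Cw_of_bound {K τ : ℝ} (hτ : |K| ≤ τ) {f : PowerSeries ℂ} (h : ∀ m, ‖coeff m f‖ ≤ K ^ (m + 1)) : f ∈ Cw τ := by
  intro r hr hrτ
  have h1 : r * |K| < 1 := lt_of_le_of_lt (mul_le_mul_of_nonneg_left hτ hr) hrτ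
  refine Summable.of_nonneg_of_le (fun m => by positivity) (fun m => ?_)
    ((summable_geometric_of_lt_one (mul_nonneg hr (abs_nonneg K)) h1).mul_left |K|)
  have h2 : ‖coeff m f‖ ≤ |K| ^ (m + 1) := by
    refine (h m).trans ?_
    rw [← abs_pow]
    exact le_abs_self _
  calc ‖coeff m f‖ * r ^ m ≤ |K| ^ (m + 1) * r ^ m := mul_le_mul_of_nonneg_right h2 (by positivity)
    _ = |K| * (r * |K|) ^ m := by rw [mul_pow]; ring

theorem family_main {r : ℕ} {h : Fin r → ℚ⟦X⟧} {T : Polynomial ℤ} {A : Fin r → Fin r → Polynomial ℤ} (hT : T ≠ 0)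
    (hode : ∀ i, ps T * d⁄dX ℚ (h i) = ∑ j, ps (A i j) * h j)
    (hsize : ∃ C : ℝ, ∀ i m, |((coeff m (h i) : ℚ) : ℝ)| ≤ C ^ (m + 1))
    (hden : ∃ C : ℝ, ∀ m, ∃ d : ℕ, 0 < d ∧ (d : ℝ) ≤ C ^ (m + 1) ∧ ∀ i, ∀ j ≤ m, ∃ a : ℤ, (d : ℚ) * coeff j (h i) = a)
    (hgal : ∃ C : ℝ, ∀ m, ∃ d : ℕ, 0 < d ∧ (d : ℝ) ≤ C ^ (m + 1) ∧ ∀ s ≤ m, ∀ i j, ∃ H : Polynomial ℤ,
      (d : Polynomial ℤ) * itm T A s i j = (s.factorial : Polynomial ℤ) * H)
    (hqu : QU0 T A) (δ : ℕ) :
    ∃ (B : Finset (Fin δ → Option (Fin r))) (a : Polynomial ℤ) (M : (Fin δ → Option (Fin r)) → B → Polynomial ℤ),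
      a ≠ 0 ∧ (∀ b, ps a * yw h b = ∑ β, ps (M b β) * yw h β.1) ∧ One (XF δ fun β : B => yw h β.1) := by
  classical
  obtain ⟨q, C, hG⟩ := gsys_of hode hsize hden hgal
  obtain ⟨C', hG'⟩ := gsys_tens (gsys_opt hG) δ
  have hyw : (fun b : Fin δ → Option (Fin r) => ∏ j, (fun o : Option (Fin r) => o.elim 1 h) (b j)) = fun b => yw h b := rfl
  rw [hyw] at hG'
  have hone : yw h (fun _ : Fin δ => none) = 1 := by
    unfold yw
    exact Finset.prod_eq_one fun j _ => rfl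
  obtain ⟨B, hb₀, hLI, a, M, ha, hM⟩ := max_li (fun b : Fin δ → Option (Fin r) => yw h b) (fun _ => none) (by
    rw [hone]
    exact one_ne_zero)
  refine ⟨B, a, M, ha, hM, ?_⟩
  obtain ⟨q', C'', hG''⟩ := gsys_sub hG' (fun β : B => yw h β.1) (fun β => β.1) (fun β => rfl) a M hM
  obtain ⟨e, he, M₀, K, Φ, hΦc, hΦe, hΦd⟩ := hqu
  -- the radii
  set τ : ℝ := |K| + C' + 1 with hτd
  have hC'1 := hG'.one_le
  have hτ1 : 1 ≤ τ := by
    have := abs_nonneg K
    linarith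
  have hτ0 : 0 < τ := by linarith
  have hτe : τ ≤ τ ^ e := le_self_pow₀ hτ1 he
  set τ' : ℝ := τ + 1 with hτ'd
  have hmem : ∀ b, cx (yw h b : ℚ⟦X⟧) ∈ Cw (τ ^ e) := fun b =>
    Cw_mono (by
      have := abs_nonneg K
      linarith) (cx_mem (by linarith) (hG'.size b))
  set Tc : Polynomial ℂ := T.map (Int.castRingHom ℂ) with hTc
  set Ac : Fin r → Fin r → Polynomial ℂ := fun i j => (A i j).map (Int.castRingHom ℂ) with hAc
  have hTc0 : Tc ≠ 0 := (Polynomial.map_ne_zero_iff (Int.castRingHom ℂ).injective_int).2 hT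
  have hQU : QU he τ Tc (AT (δ := δ) (A1 Ac)) := by
    refine qu_tens he δ (qu_one he ⟨M₀, Φ, fun i j k => mem_Cw_of_bound ?_ (hΦc i j k), hΦe, hΦd⟩)
    linarith
  -- the differential equation of the products
  have hodeC : ∀ i, (Tc : PowerSeries ℂ) * PowerSeries.derivative ℂ (cx (h i)) = ∑ j, (Ac i j : PowerSeries ℂ) * cx (h j) := by
    intro i
    have h1 := congrArg cx (hode i)
    rw [map_mul, map_sum, cx_der, cx_ps] at h1
    rw [h1]
    refine Finset.sum_congr rfl fun j _ => ?_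
    rw [map_mul, cx_ps]
  have hodeT : ∀ b : Fin δ → Option (Fin r), (Tc : PowerSeries ℂ) * PowerSeries.derivative ℂ (cx (yw h b)) =
      ∑ b', ((AT (δ := δ) (A1 Ac) b b' : Polynomial ℂ) : PowerSeries ℂ) * cx (yw h b') := by
    intro b
    have h1 := tens_der (δ := δ) (fun f : PowerSeries ℂ => PowerSeries.derivative ℂ f) (Derivation.map_one_eq_zero _)
      (fun f g => by
        rw [Derivation.leibniz]
        rfl) (Tc : PowerSeries ℂ) 0
      (fun i l : Option (Fin r) => ((A1 Ac i l : Polynomial ℂ) : PowerSeries ℂ))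
      (fun _ o => cx (o.elim 1 h)) (fun j o => by
        rw [zero_mul, zero_add, Fintype.sum_option]
        rcases o with _ | i
        · show _ * PowerSeries.derivative ℂ (cx 1) = ((0 : Polynomial ℂ) : PowerSeries ℂ) * _ +
            ∑ j, ((0 : Polynomial ℂ) : PowerSeries ℂ) * _
          rw [map_one, Derivation.map_one_eq_zero]
          simp
        · show _ = ((0 : Polynomial ℂ) : PowerSeries ℂ) * _ + ∑ j, (Ac i j : PowerSeries ℂ) * cx (h j)
          rw [← hodeC i]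
          simp) b
    have h2 : ∀ b : Fin δ → Option (Fin r), cx (yw h b) = ∏ j, cx ((b j).elim 1 h) := fun b => map_prod _ _ _
    rw [h2 b]
    refine h1.trans ?_
    rw [mul_zero, zero_mul, zero_add]
    refine Finset.sum_congr rfl fun b' _ => ?_
    rw [h2 b']
    congr 1
    let f : Polynomial ℂ →+ PowerSeries ℂ := (Polynomial.coeToPowerSeries.ringHom (R := ℂ)).toAddMonoidHom
    exact (AT_map f (A1 Ac) b b').symm
  have hdisc : Disc (τ ^ e) (τ' ^ e) fun b : (B : Set (Fin δ → Option (Fin r))) => cx (yw h b.1) :=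
    disc_of_qu he hτ0 (by linarith) (fun b => cx (yw h b)) hmem Tc hTc0 _ hodeT hQU
      (B : Set (Fin δ → Option (Fin r))) (by
      intro G hG
      refine li_cx (κ := (B : Set (Fin δ → Option (Fin r)))) ?_ G hG
      exact hLI)
  have hρρ : τ ^ e < τ' ^ e := pow_lt_pow_left₀ (by linarith) hτ0.le he
  obtain ⟨R, hR⟩ := exists_nat_gt (τ ^ e + τ' ^ e)
  refine one_family hG'' (mul_ne_zero ha hT) ⟨fun _ => none, hb₀⟩ hone δ R fun k g hg => ?_
  obtain ⟨E, hE⟩ := gsys_shift hG''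
  refine li_shift (ρ := τ ^ e) (ρ' := τ' ^ e) (C := C'') (y := fun β : B => yw h β.1) (by positivity) hρρ
    (by have := hG''.one_le; linarith) (fun β => hmem _) hdisc hG''.size (fun g => ⟨((g : ℝ) + 2) ^ E, by positivity,
      (hE g).size⟩) hR (δ + 1) k g (fun l => by exact_mod_cast hg.1 l) fun l l' hl => ?_
  rcases hg.2 l l' hl with h1 | h1
  · have h2 : (g l : ℝ) + R ≤ g l' := by exact_mod_cast h1
    rw [abs_sub_comm]
    exact le_trans (by linarith) (le_abs_self _)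
  · have h2 : (g l' : ℝ) + R ≤ g l := by exact_mod_cast h1
    exact le_trans (by linarith) (le_abs_self _)

end Pool.Agent.Y120.GH
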