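import Pool.Agent.Y120.G.Win

/-!
# The sum norm of integer polynomials
-/

set_option autoImplicit false

open PowerSeries Pool.Agent.Y113

namespace Pool.Agent.Y120.GH

/-- degree `≤ n` and sum of the absolute values of the coefficients `≤ A` -/
def L1 (n : ℕ) (A : ℝ) (P : Polynomial ℤ) : Prop :=
  P.natDegree ≤ n ∧ ∑ l ∈ Finset.range (n + 1), |((P.coeff l : ℤ) : ℝ)| ≤ A

variable {n m : ℕ} {A B : ℝ} {P Q : Polynomial ℤ}

lemma L1.nonneg (h : L1 n A P) : 0 ≤ A := (Finset.sum_nonneg fun _ _ => abs_nonneg _).trans h.2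

lemma L1.coeff_le (h : L1 n A P) (l : ℕ) : |((P.coeff l : ℤ) : ℝ)| ≤ A := by
  rcases Nat.lt_or_ge l (n + 1) with hl | hl
  · exact (Finset.single_le_sum (f := fun l => |((P.coeff l : ℤ) : ℝ)|) (fun _ _ => abs_nonneg _)
      (Finset.mem_range.2 hl)).trans h.2
  · rw [Polynomial.coeff_eq_zero_of_natDegree_lt (lt_of_le_of_lt h.1 hl)]
    simpa using h.nonneg

lemma L1.toBd (h : L1 n A P) : Bd n A P := ⟨h.1, h.coeff_le⟩

lemma L1.ofBd (h : Bd n A P) : L1 n ((n + 1) * A) P := by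
  refine ⟨h.1, ?_⟩
  refine (Finset.sum_le_card_nsmul _ _ A fun l _ => h.2 l).trans ?_
  rw [Finset.card_range, nsmul_eq_mul]
  push_cast
  exact le_rfl

lemma L1.mono (h : L1 n A P) {n' : ℕ} {A' : ℝ} (hn : n ≤ n') (hA : A ≤ A') : L1 n' A' P := by
  refine ⟨h.1.trans hn, le_trans (le_of_eq ?_) (h.2.trans hA)⟩
  symm
  refine Finset.sum_subset (fun l hl => ?_) fun l _ hl => ?_
  · rw [Finset.mem_range] at hl ⊢
    omega
  · rw [Finset.mem_range, not_lt] at hl
    rw [Polynomial.coeff_eq_zero_of_natDegree_lt (lt_of_le_of_lt h.1 hl)]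
    simp

lemma L1.add (h : L1 n A P) (h' : L1 n B Q) : L1 n (A + B) (P + Q) := by
  refine ⟨(Polynomial.natDegree_add_le _ _).trans (max_le h.1 h'.1), ?_⟩
  refine le_trans (Finset.sum_le_sum fun l _ => ?_) (le_trans (le_of_eq Finset.sum_add_distrib) (add_le_add h.2 h'.2))
  rw [Polynomial.coeff_add]
  push_cast
  exact abs_add_le _ _

lemma L1.zero : L1 n 0 0 := by
  refine ⟨by simp, ?_⟩
  simp

lemma L1.sum {σ : Type*} (s : Finset σ) {f : σ → Polynomial ℤ} {a : σ → ℝ} (h : ∀ i ∈ s, L1 n (a i) (f i)) :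
    L1 n (∑ i ∈ s, a i) (∑ i ∈ s, f i) := by
  classical
  induction s using Finset.induction_on with
  | empty => simpa using L1.zero
  | insert i s hi ih =>
    rw [Finset.sum_insert hi, Finset.sum_insert hi]
    exact (h i (Finset.mem_insert_self _ _)).add (ih fun j hj => h j (Finset.mem_insert_of_mem hj))

lemma L1.mul (h : L1 n A P) (h' : L1 m B Q) : L1 (n + m) (A * B) (P * Q) := by
  refine ⟨Polynomial.natDegree_mul_le.trans (add_le_add h.1 h'.1), ?_⟩
  let Pa : Polynomial ℝ := ∑ i ∈ Finset.range (n + 1), Polynomial.C |((P.coeff i : ℤ) : ℝ)| * Polynomial.X ^ i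
  let Qa : Polynomial ℝ := ∑ i ∈ Finset.range (m + 1), Polynomial.C |((Q.coeff i : ℤ) : ℝ)| * Polynomial.X ^ i
  have hc : ∀ (k : ℕ) (R : Polynomial ℤ), R.natDegree ≤ k → ∀ l,
      (∑ i ∈ Finset.range (k + 1), Polynomial.C |((R.coeff i : ℤ) : ℝ)| * Polynomial.X ^ i : Polynomial ℝ).coeff l =
        |((R.coeff l : ℤ) : ℝ)| := by
    intro k R hR l
    rw [Polynomial.finsetSum_coeff]
    rcases Nat.lt_or_ge l (k + 1) with hl | hl
    · rw [Finset.sum_eq_single l]
      · rw [Polynomial.coeff_C_mul, Polynomial.coeff_X_pow_self, mul_one]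
      · intro i _ hne
        rw [Polynomial.coeff_C_mul, Polynomial.coeff_X_pow, if_neg hne.symm, mul_zero]
      · intro h2
        exact absurd (Finset.mem_range.2 hl) h2
    · rw [Polynomial.coeff_eq_zero_of_natDegree_lt (lt_of_le_of_lt hR hl), Finset.sum_eq_zero]
      · simp
      · intro i hi
        rw [Finset.mem_range] at hi
        rw [Polynomial.coeff_C_mul, Polynomial.coeff_X_pow, if_neg (by omega), mul_zero]
  have he : ∀ (k : ℕ) (R : Polynomial ℤ),
      (∑ i ∈ Finset.range (k + 1), Polynomial.C |((R.coeff i : ℤ) : ℝ)| * Polynomial.X ^ i : Polynomial ℝ).eval 1 =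
        ∑ i ∈ Finset.range (k + 1), |((R.coeff i : ℤ) : ℝ)| := by
    intro k R
    rw [Polynomial.eval_finsetSum]
    simp
  have hd : ∀ (k : ℕ) (R : Polynomial ℤ),
      (∑ i ∈ Finset.range (k + 1), Polynomial.C |((R.coeff i : ℤ) : ℝ)| * Polynomial.X ^ i : Polynomial ℝ).natDegree ≤ k := by
    intro k R
    refine Polynomial.natDegree_sum_le_of_forall_le _ _ fun i hi => ?_
    exact (Polynomial.natDegree_C_mul_X_pow_le _ _).trans (Nat.lt_succ_iff.1 (Finset.mem_range.1 hi))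
  have h1 : ∀ l, |(((P * Q).coeff l : ℤ) : ℝ)| ≤ (Pa * Qa).coeff l := by
    intro l
    rw [Polynomial.coeff_mul, Polynomial.coeff_mul]
    push_cast
    refine (Finset.abs_sum_le_sum_abs _ _).trans (Finset.sum_le_sum fun p _ => ?_)
    rw [abs_mul, hc n P h.1, hc m Q h'.1]
  have h2 : (Pa * Qa).natDegree < n + m + 1 :=
    Nat.lt_succ_of_le (Polynomial.natDegree_mul_le.trans (add_le_add (hd n P) (hd m Q)))
  calc ∑ l ∈ Finset.range (n + m + 1), |(((P * Q).coeff l : ℤ) : ℝ)| ≤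
        ∑ l ∈ Finset.range (n + m + 1), (Pa * Qa).coeff l := Finset.sum_le_sum fun l _ => h1 l
    _ = (Pa * Qa).eval 1 := by
        rw [Polynomial.eval_eq_sum_range' h2]
        simp
    _ = (∑ i ∈ Finset.range (n + 1), |((P.coeff i : ℤ) : ℝ)|) * ∑ i ∈ Finset.range (m + 1), |((Q.coeff i : ℤ) : ℝ)| := by
        rw [Polynomial.eval_mul, he, he]
    _ ≤ A * B := mul_le_mul h.2 h'.2 (Finset.sum_nonneg fun _ _ => abs_nonneg _) h.nonneg

lemma L1.one : L1 0 1 1 := by
  refine ⟨by simp, ?_⟩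
  simp

lemma L1.C (c : ℤ) : L1 0 |(c : ℝ)| (Polynomial.C c) := by
  refine ⟨by simp, ?_⟩
  simp

lemma L1.X : L1 1 1 (Polynomial.X : Polynomial ℤ) := by
  refine ⟨Polynomial.natDegree_X_le, ?_⟩
  rw [Finset.sum_range_succ, Finset.sum_range_one, Polynomial.coeff_X, Polynomial.coeff_X]
  simp

lemma L1.pow (h : L1 n A P) (k : ℕ) : L1 (n * k) (A ^ k) (P ^ k) := by
  induction k with
  | zero => simpa using L1.one
  | succ k ih =>
    have h1 := h.mul ih
    rw [pow_succ' P, show n * (k + 1) = n + n * k by ring, pow_succ']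
    exact h1

lemma L1.C_mul (h : L1 n A P) (c : ℤ) {B : ℝ} (hc : |(c : ℝ)| ≤ B) : L1 n (B * A) (Polynomial.C c * P) := by
  have := (L1.C c).mul h
  rw [Nat.zero_add] at this
  exact this.mono le_rfl (mul_le_mul_of_nonneg_right hc h.nonneg)

/-- `1 - g X` -/
noncomputable def Pg (g : ℕ) : Polynomial ℤ := 1 - Polynomial.C (g : ℤ) * Polynomial.X

lemma ps_Pg (g : ℕ) : ps (Pg g) = 1 - (g : ℚ⟦X⟧) * X := by
  have h : ((g : Polynomial ℚ) : ℚ⟦X⟧) = (g : ℚ⟦X⟧) := map_natCast (Polynomial.coeToPowerSeries.ringHom (R := ℚ)) g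
  simp [ps, Pg, h]

lemma L1_Pg (g : ℕ) : L1 1 ((g : ℝ) + 1) (Pg g) := by
  have h1 : Pg g = 1 + Polynomial.C (-(g : ℤ)) * Polynomial.X := by
    rw [Pg, map_neg]
    ring
  rw [h1]
  have h2 : L1 1 1 (1 : Polynomial ℤ) := L1.one.mono (Nat.zero_le _) le_rfl
  have h3 : L1 1 ((g : ℝ) * 1) (Polynomial.C (-(g : ℤ)) * Polynomial.X) := L1.X.C_mul _ (by
    push_cast
    rw [abs_neg, abs_of_nonneg (by positivity)])
  refine (h2.add h3).mono le_rfl (by linarith)

/-- the polynomial `(1 - g X)^n G(X / (1 - g X))` -/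
noncomputable def Hm (g n : ℕ) (G : Polynomial ℤ) : Polynomial ℤ :=
  ∑ l ∈ Finset.range (n + 1), Polynomial.C (G.coeff l) * (Polynomial.X ^ l * Pg g ^ (n - l))

lemma L1_Hm (g : ℕ) {G : Polynomial ℤ} (h : L1 n A G) : L1 n (A * ((g : ℝ) + 1) ^ n) (Hm g n G) := by
  have hg : (1 : ℝ) ≤ (g : ℝ) + 1 := by linarith [show (0 : ℝ) ≤ g by positivity]
  have h1 : L1 n (∑ l ∈ Finset.range (n + 1), |((G.coeff l : ℤ) : ℝ)| * ((g : ℝ) + 1) ^ n) (Hm g n G) := by
    refine L1.sum _ fun l hl => ?_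
    rw [Finset.mem_range] at hl
    refine L1.C_mul ?_ _ le_rfl
    have h2 := (L1.X.pow l).mul ((L1_Pg g).pow (n - l))
    refine h2.mono (by omega) ?_
    rw [one_pow, one_mul]
    exact pow_le_pow_right₀ hg (Nat.sub_le _ _)
  refine h1.mono le_rfl ?_
  rw [← Finset.sum_mul]
  exact mul_le_mul_of_nonneg_right h.2 (by positivity)

lemma ps_Hm (g : ℕ) {G : Polynomial ℤ} (h : G.natDegree ≤ n) :
    ps (Hm g n G) = ps (Pg g) ^ n * (ps G).subst (sh g) := by
  have h1 : ps G = ∑ l ∈ Finset.range (n + 1), PowerSeries.C ((G.coeff l : ℤ) : ℚ) * X ^ l := by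
    ext m
    rw [map_sum]
    simp only [coeff_C_mul, coeff_X_pow]
    have h2 : coeff m (ps G) = ((G.coeff m : ℤ) : ℚ) := by simp [ps]
    rw [h2]
    rcases Nat.lt_or_ge m (n + 1) with hm | hm
    · rw [Finset.sum_eq_single m]
      · simp
      · intro l _ hne
        rw [if_neg hne.symm, mul_zero]
      · intro h3
        exact absurd (Finset.mem_range.2 hm) h3
    · rw [Polynomial.coeff_eq_zero_of_natDegree_lt (lt_of_le_of_lt h hm), Finset.sum_eq_zero]
      · simp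
      · intro l hl
        rw [Finset.mem_range] at hl
        rw [if_neg (by omega), mul_zero]
  have hs := Pool.Agent.Y120.GF.sh_sub g
  have h3 : (ps G).subst (sh g) = ∑ l ∈ Finset.range (n + 1), PowerSeries.C ((G.coeff l : ℤ) : ℚ) * sh g ^ l := by
    rw [h1, ← coe_substAlgHom hs, map_sum]
    refine Finset.sum_congr rfl fun l _ => ?_
    rw [map_mul, map_pow, coe_substAlgHom hs, subst_X hs]
    congr 1
    exact subst_C _
  rw [h3, Finset.mul_sum, Hm, ps_sum]
  refine Finset.sum_congr rfl fun l hl => ?_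
  rw [Finset.mem_range] at hl
  rw [ps_mul, ps_mul, ps_pow, ps_pow, ps_C]
  have h4 : ps Polynomial.X = X := by simp [ps]
  have h5 : ps (Pg g) * sh g = X := by
    rw [ps_Pg]
    exact Pool.Agent.Y120.GF.sh_eq g
  have h6 : ps (Pg g) ^ n = ps (Pg g) ^ (n - l) * ps (Pg g) ^ l := by
    rw [← pow_add]
    congr 1
    omega
  rw [h4, h6, ← h5, mul_pow]
  have h7 : ((G.coeff l : ℤ) : ℚ⟦X⟧) = PowerSeries.C ((G.coeff l : ℤ) : ℚ) := by simp
  rw [h7]
  ring

end Pool.Agent.Y120.GH
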