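import Pool.Agent.Y120.H.Rat

/-!
# The logarithm is transcendental over the single valued functions
-/

set_option autoImplicit false

open Filter Topology Metric Set

namespace Pool.Agent.Y120.GH

/-- the annulus -/
def Ann (ρ ρ' : ℝ) : Set ℂ := {z | ρ < ‖z‖ ∧ ‖z‖ < ρ'}

theorem log_sep {ρ ρ' : ℝ} (hρ : 0 < ρ) (m : ℕ) (a : ℕ → ℂ → ℂ)
    (ha : ∀ j, AnalyticOnNhd ℂ (a j) (Ann ρ ρ')) (p : ℂ) (hp : p ∈ Ann ρ ρ') (hpim : 0 < p.im)
    (h : ∀ᶠ z in 𝓝 p, ∑ j ∈ Finset.range m, a j z * (-Complex.log z) ^ j = 0) :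
    ∀ j < m, ∀ z ∈ Ann ρ ρ', a j z = 0 := by
  set S : Set ℂ := {w | Real.log ρ < w.re ∧ w.re < Real.log ρ'} with hS
  have hρ' : 0 < ρ' := hρ.trans (hp.1.trans hp.2)
  have hSconv : Convex ℝ S := (convex_halfSpace_re_gt _).inter (convex_halfSpace_re_lt _)
  have hexp : ∀ w ∈ S, Complex.exp w ∈ Ann ρ ρ' := by
    intro w hw
    show ρ < ‖Complex.exp w‖ ∧ ‖Complex.exp w‖ < ρ'
    rw [Complex.norm_exp]
    exact ⟨(Real.log_lt_iff_lt_exp hρ).1 hw.1, (Real.lt_log_iff_exp_lt hρ').1 hw.2⟩
  have hlogS : ∀ z ∈ Ann ρ ρ', Complex.log z ∈ S := by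
    intro z hz
    have hz0 : 0 < ‖z‖ := hρ.trans hz.1
    show Real.log ρ < (Complex.log z).re ∧ (Complex.log z).re < Real.log ρ'
    rw [Complex.log_re]
    exact ⟨Real.log_lt_log hρ hz.1, Real.log_lt_log hz0 hz.2⟩
  let G : ℂ → ℂ := fun w => ∑ j ∈ Finset.range m, a j (Complex.exp w) * (-w) ^ j
  have hG : AnalyticOnNhd ℂ G S := by
    intro w hw
    show AnalyticAt ℂ (fun w => ∑ j ∈ Finset.range m, a j (Complex.exp w) * (-w) ^ j) w
    refine Finset.analyticAt_fun_sum _ fun j _ => ?_
    refine AnalyticAt.mul ?_ (analyticAt_id.neg.pow j)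
    exact AnalyticAt.comp (g := a j) (f := Complex.exp) (ha j _ (hexp w hw)) analyticAt_cexp
  have hp0 : p ≠ 0 := by
    intro h0
    rw [h0] at hpim
    simp at hpim
  have hzero : EqOn G 0 S := by
    refine hG.eqOn_zero_of_preconnected_of_eventuallyEq_zero hSconv.isPreconnected (hlogS p hp) ?_
    have h1 : Tendsto Complex.exp (𝓝 (Complex.log p)) (𝓝 p) := by
      have := Complex.continuous_exp.tendsto (Complex.log p)
      rwa [Complex.exp_log hp0] at this
    have harg : 0 < (Complex.log p).im := by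
      rw [Complex.log_im]
      rcases (Complex.arg_nonneg_iff.2 hpim.le).eq_or_lt with h2 | h2
      · exfalso
        have h3 := Complex.arg_eq_zero_iff.1 h2.symm
        rw [h3.2] at hpim
        exact lt_irrefl _ hpim
      · exact h2
    have harg' : (Complex.log p).im < Real.pi := by
      rw [Complex.log_im]
      refine lt_of_le_of_ne (Complex.arg_le_pi p) fun h2 => ?_
      have h3 := Complex.arg_eq_pi_iff.1 h2
      rw [h3.2] at hpim
      exact lt_irrefl _ hpim
    have h2 : ∀ᶠ w in 𝓝 (Complex.log p), 0 < w.im ∧ w.im < Real.pi :=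
      ((isOpen_lt continuous_const Complex.continuous_im).inter (isOpen_lt Complex.continuous_im continuous_const)).mem_nhds
        ⟨harg, harg'⟩
    filter_upwards [h1.eventually h, h2] with w hw hw2
    have h3 : Complex.log (Complex.exp w) = w := Complex.log_exp (by linarith [hw2.1, Real.pi_pos]) hw2.2.le
    rw [h3] at hw
    exact hw
  intro j hj z hz
  have hz0 : z ≠ 0 := by
    intro h0
    have := hz.1
    rw [h0, norm_zero] at this
    linarith
  set w := Complex.log z with hw
  have hwS := hlogS z hz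
  set P : Polynomial ℂ := ∑ i ∈ Finset.range m, Polynomial.C (a i z) * Polynomial.X ^ i with hP
  have hroot : ∀ k : ℕ, P.IsRoot (-(w + k * (2 * Real.pi * Complex.I))) := by
    intro k
    have h1 : w + k * (2 * Real.pi * Complex.I) ∈ S := by
      have h2 : (w + k * (2 * Real.pi * Complex.I)).re = w.re := by simp
      show Real.log ρ < (w + k * (2 * Real.pi * Complex.I)).re ∧ (w + k * (2 * Real.pi * Complex.I)).re < Real.log ρ'
      rw [h2]
      exact hwS
    have h3 := hzero h1
    have h4 : Complex.exp (w + k * (2 * Real.pi * Complex.I)) = z := by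
      rw [Complex.exp_add, Complex.exp_nat_mul_two_pi_mul_I, mul_one, hw, Complex.exp_log hz0]
    show P.eval _ = 0
    rw [hP, Polynomial.eval_finsetSum]
    simp only [Polynomial.eval_mul, Polynomial.eval_C, Polynomial.eval_pow, Polynomial.eval_X]
    have h5 : G (w + k * (2 * Real.pi * Complex.I)) = 0 := h3
    have h6 : G (w + k * (2 * Real.pi * Complex.I)) =
        ∑ i ∈ Finset.range m, a i (Complex.exp (w + k * (2 * Real.pi * Complex.I))) *
          (-(w + k * (2 * Real.pi * Complex.I))) ^ i := rfl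
    rw [h6, h4] at h5
    exact h5
  have hP0 : P = 0 := by
    refine Polynomial.eq_zero_of_infinite_isRoot P ?_
    refine Set.infinite_of_injective_forall_mem (f := fun k : ℕ => -(w + k * (2 * Real.pi * Complex.I))) ?_ hroot
    intro k l hkl
    simp only [neg_inj, add_right_inj] at hkl
    have h1 := mul_right_cancel₀ Complex.two_pi_I_ne_zero hkl
    exact_mod_cast h1
  have h1 : P.coeff j = a j z := by
    rw [hP, Polynomial.finsetSum_coeff, Finset.sum_eq_single j]
    · rw [Polynomial.coeff_C_mul, Polynomial.coeff_X_pow_self, mul_one]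
    · intro i _ hne
      rw [Polynomial.coeff_C_mul, Polynomial.coeff_X_pow, if_neg hne.symm, mul_zero]
    · intro h2
      exact absurd (Finset.mem_range.2 hj) h2
  rw [← h1, hP0, Polynomial.coeff_zero]

end Pool.Agent.Y120.GH
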