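import Pool.Agent.Y120.H.Tay

/-!
# Power series in `1 / z` as functions outside a disc
-/

set_option autoImplicit false

open Filter Topology PowerSeries

namespace Pool.Agent.Y120.GH

/-- the ring of the power series with radius of convergence at least `1 / ρ` -/
def Cw (ρ : ℝ) : Subring (PowerSeries ℂ) where
  carrier := {f | ∀ r : ℝ, 0 ≤ r → r * ρ < 1 → Summable fun m => ‖coeff m f‖ * r ^ m}
  mul_mem' := by
    intro f g hf hg r hr hrρ
    have h1 : Summable fun m => ‖coeff m f * (r : ℂ) ^ m‖ := by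
      refine (hf r hr hrρ).congr fun m => ?_
      rw [norm_mul, norm_pow, Complex.norm_real, Real.norm_of_nonneg hr]
    have h2 : Summable fun m => ‖coeff m g * (r : ℂ) ^ m‖ := by
      refine (hg r hr hrρ).congr fun m => ?_
      rw [norm_mul, norm_pow, Complex.norm_real, Real.norm_of_nonneg hr]
    refine (summable_norm_sum_mul_antidiagonal_of_summable_norm h1 h2).congr fun m => ?_
    have h3 : ∑ kl ∈ Finset.HasAntidiagonal.antidiagonal m, coeff kl.1 f * (r : ℂ) ^ kl.1 * (coeff kl.2 g * (r : ℂ) ^ kl.2) =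
        coeff m (f * g) * (r : ℂ) ^ m := by
      rw [PowerSeries.coeff_mul, Finset.sum_mul]
      refine Finset.sum_congr rfl fun kl hkl => ?_
      rw [← Finset.HasAntidiagonal.mem_antidiagonal.1 hkl, pow_add]
      ring
    rw [h3, norm_mul, norm_pow, Complex.norm_real, Real.norm_of_nonneg hr]
  one_mem' := by
    intro r hr _
    refine summable_of_ne_finset_zero (s := {0}) fun m hm => ?_
    rw [Finset.mem_singleton] at hm
    rw [PowerSeries.coeff_one, if_neg hm]
    simp
  add_mem' := by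
    intro f g hf hg r hr hrρ
    refine Summable.of_nonneg_of_le (fun m => by positivity) (fun m => ?_) ((hf r hr hrρ).add (hg r hr hrρ))
    rw [map_add, ← add_mul]
    exact mul_le_mul_of_nonneg_right (norm_add_le _ _) (by positivity)
  zero_mem' := by
    intro r hr _
    simp
  neg_mem' := by
    intro f hf r hr hrρ
    refine (hf r hr hrρ).congr fun m => ?_
    rw [map_neg, norm_neg]

variable {ρ : ℝ}

lemma C_mem (c : ℂ) : C c ∈ Cw ρ := by
  intro r hr _
  refine summable_of_ne_finset_zero (s := {0}) fun m hm => ?_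
  rw [Finset.mem_singleton] at hm
  rw [PowerSeries.coeff_C, if_neg hm]
  simp

lemma X_mem : (X : PowerSeries ℂ) ∈ Cw ρ := by
  intro r hr _
  refine summable_of_ne_finset_zero (s := {1}) fun m hm => ?_
  rw [Finset.mem_singleton] at hm
  rw [PowerSeries.coeff_X, if_neg hm]
  simp

lemma poly_mem (P : Polynomial ℂ) : (P : PowerSeries ℂ) ∈ Cw ρ := by
  intro r hr _
  refine summable_of_ne_finset_zero (s := P.support) fun m hm => ?_
  rw [Polynomial.coeff_coe, Polynomial.notMem_support_iff.1 hm]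
  simp

lemma Cw_mono {ρ' : ℝ} (h : ρ ≤ ρ') {f : PowerSeries ℂ} (hf : f ∈ Cw ρ) : f ∈ Cw ρ' := by
  intro r hr hrρ
  exact hf r hr (lt_of_le_of_lt (mul_le_mul_of_nonneg_left h hr) hrρ)

/-- an intermediate radius -/
lemma mid_radius (hρ : 0 ≤ ρ) {z : ℂ} (hz : ρ < ‖z‖) : ∃ r : ℝ, 0 < r ∧ r * ρ < 1 ∧ 1 / ‖z‖ < r := by
  have hz0 : 0 < ‖z‖ := lt_of_le_of_lt hρ hz
  refine ⟨2 / (‖z‖ + ρ), by positivity, ?_, ?_⟩
  · rw [div_mul_eq_mul_div, div_lt_one (by positivity)]
    linarith
  · rw [div_lt_div_iff₀ hz0 (by positivity)]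
    linarith

/-- the disc function -/
noncomputable def inn (f : PowerSeries ℂ) (u : ℂ) : ℂ := ∑' m : ℕ, coeff m f * u ^ m

/-- the function outside the disc -/
noncomputable def ou (f : PowerSeries ℂ) (z : ℂ) : ℂ := inn f (1 / z)

lemma summable_at {f : PowerSeries ℂ} {r : ℝ} {u : ℂ} (h : Summable fun m => ‖coeff m f‖ * r ^ m) (hu : ‖u‖ ≤ r) :
    Summable fun m => ‖coeff m f * u ^ m‖ := by
  refine Summable.of_nonneg_of_le (fun m => norm_nonneg _) (fun m => ?_) h
  rw [norm_mul, norm_pow]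
  exact mul_le_mul_of_nonneg_left (pow_le_pow_left₀ (norm_nonneg _) hu _) (norm_nonneg _)

lemma inn_diff {f : PowerSeries ℂ} {r : ℝ} (h : Summable fun m => ‖coeff m f‖ * r ^ m) :
    DifferentiableOn ℂ (inn f) (Metric.ball 0 r) := by
  refine Complex.differentiableOn_tsum_of_summable_norm h (fun m => ?_) Metric.isOpen_ball fun m u hu => ?_
  · exact ((differentiable_const _).mul (differentiable_id.pow m)).differentiableOn
  · rw [norm_mul, norm_pow]
    refine mul_le_mul_of_nonneg_left (pow_le_pow_left₀ (norm_nonneg _) ?_ _) (norm_nonneg _)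
    rw [Metric.mem_ball, dist_zero_right] at hu
    exact hu.le

lemma inn_deriv {f : PowerSeries ℂ} {r : ℝ} (h : Summable fun m => ‖coeff m f‖ * r ^ m) {u : ℂ} (hu : ‖u‖ < r) :
    HasSum (fun m => coeff m (PowerSeries.derivative ℂ f) * u ^ m) (deriv (inn f) u) := by
  have h1 : HasSum (fun m : ℕ => deriv (fun w : ℂ => coeff m f * w ^ m) u) (deriv (fun w : ℂ => ∑' m, coeff m f * w ^ m) u) := by
    refine Complex.hasSum_deriv_of_summable_norm h (U := Metric.ball 0 r) (fun m => ?_) Metric.isOpen_ball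
      (fun m w hw => ?_) (by rwa [Metric.mem_ball, dist_zero_right])
    · exact ((differentiable_const _).mul (differentiable_id.pow m)).differentiableOn
    · rw [norm_mul, norm_pow]
      refine mul_le_mul_of_nonneg_left (pow_le_pow_left₀ (norm_nonneg _) ?_ _) (norm_nonneg _)
      rw [Metric.mem_ball, dist_zero_right] at hw
      exact hw.le
  have h2 : ∀ m : ℕ, deriv (fun w : ℂ => coeff m f * w ^ m) u = coeff m f * (m * u ^ (m - 1)) := by
    intro m
    rw [deriv_const_mul _ (differentiableAt_id.pow m)]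
    have := (hasDerivAt_pow m u).deriv
    rw [this]
  simp only [h2] at h1
  have h3 := (hasSum_nat_add_iff' 1).2 h1
  simp only [Finset.range_one, Finset.sum_singleton, Nat.cast_zero, zero_mul, mul_zero, sub_zero] at h3
  have h4 : (fun m => coeff m (PowerSeries.derivative ℂ f) * u ^ m) =
      fun m => coeff (m + 1) f * (((m + 1 : ℕ) : ℂ) * u ^ (m + 1 - 1)) := by
    funext m
    rw [PowerSeries.coeff_derivative, Nat.add_sub_cancel]
    push_cast
    ring
  rw [h4]
  exact h3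

lemma deriv_mem_Cw (hρ : 0 ≤ ρ) {f : PowerSeries ℂ} (hf : f ∈ Cw ρ) : PowerSeries.derivative ℂ f ∈ Cw ρ := by
  intro r hr hrρ
  obtain ⟨r', hr', hrr'⟩ : ∃ r' : ℝ, r' * ρ < 1 ∧ r < r' := by
    rcases hρ.eq_or_lt with h0 | h0
    · exact ⟨r + 1, by rw [← h0]; simp, by linarith⟩
    · refine ⟨(r + 1 / ρ) / 2, ?_, ?_⟩
      · have : r < 1 / ρ := by rwa [lt_div_iff₀ h0]
        have h2 : 1 / ρ * ρ = 1 := by field_simp
        nlinarith
      · have : r < 1 / ρ := by rwa [lt_div_iff₀ h0]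
        linarith
  have h := inn_deriv (hf r' (by linarith) hr') (u := (r : ℂ)) (by
    rw [Complex.norm_real, Real.norm_of_nonneg hr]
    exact hrr')
  have h1 := h.summable.norm
  refine h1.congr fun m => ?_
  rw [norm_mul, norm_pow, Complex.norm_real, Real.norm_of_nonneg hr]

lemma ou_summable (hρ : 0 ≤ ρ) {f : PowerSeries ℂ} (hf : f ∈ Cw ρ) {z : ℂ} (hz : ρ < ‖z‖) :
    Summable fun m => ‖coeff m f * (1 / z) ^ m‖ := by
  obtain ⟨r, h0, h1, h2⟩ := mid_radius hρ hz
  refine summable_at (hf r h0.le h1) ?_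
  rw [norm_div, norm_one]
  exact h2.le

lemma ou_mul (hρ : 0 ≤ ρ) {f g : PowerSeries ℂ} (hf : f ∈ Cw ρ) (hg : g ∈ Cw ρ) {z : ℂ} (hz : ρ < ‖z‖) :
    ou (f * g) z = ou f z * ou g z := by
  unfold ou inn
  rw [tsum_mul_tsum_eq_tsum_sum_antidiagonal_of_summable_norm (ou_summable hρ hf hz) (ou_summable hρ hg hz)]
  refine tsum_congr fun m => ?_
  rw [PowerSeries.coeff_mul, Finset.sum_mul]
  refine Finset.sum_congr rfl fun kl hkl => ?_
  rw [← Finset.HasAntidiagonal.mem_antidiagonal.1 hkl, pow_add]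
  ring

lemma ou_add (hρ : 0 ≤ ρ) {f g : PowerSeries ℂ} (hf : f ∈ Cw ρ) (hg : g ∈ Cw ρ) {z : ℂ} (hz : ρ < ‖z‖) :
    ou (f + g) z = ou f z + ou g z := by
  unfold ou inn
  rw [← Summable.tsum_add (ou_summable hρ hf hz).of_norm (ou_summable hρ hg hz).of_norm]
  refine tsum_congr fun m => ?_
  rw [map_add]
  ring

lemma ou_C (c : ℂ) (z : ℂ) : ou (C c) z = c := by
  unfold ou inn
  rw [tsum_eq_single 0]
  · simp
  · intro m hm
    rw [PowerSeries.coeff_C, if_neg hm, zero_mul]

lemma ou_one (z : ℂ) : ou 1 z = 1 := by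
  have := ou_C 1 z
  rwa [map_one] at this

lemma ou_zero (z : ℂ) : ou 0 z = 0 := by
  have := ou_C 0 z
  rwa [map_zero] at this

lemma ou_X (z : ℂ) : ou X z = 1 / z := by
  unfold ou inn
  rw [tsum_eq_single 1]
  · simp
  · intro m hm
    rw [PowerSeries.coeff_X, if_neg hm, zero_mul]

lemma inn_an {f : PowerSeries ℂ} {r : ℝ} (h : Summable fun m => ‖coeff m f‖ * r ^ m) :
    AnalyticOnNhd ℂ (inn f) (Metric.ball 0 r) := (inn_diff h).analyticOnNhd Metric.isOpen_ball

lemma ou_an (hρ : 0 ≤ ρ) {f : PowerSeries ℂ} (hf : f ∈ Cw ρ) : AnalyticOnNhd ℂ (ou f) {z | ρ < ‖z‖} := by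
  intro z hz
  obtain ⟨r, h0, h1, h2⟩ := mid_radius hρ hz
  have hz0 : z ≠ 0 := by
    intro h
    rw [h] at hz
    simp only [Set.mem_ofPred_eq, norm_zero] at hz
    linarith
  have h3 : AnalyticAt ℂ (inn f) (1 / z) := inn_an (hf r h0.le h1) _ (by
    rw [Metric.mem_ball, dist_zero_right, norm_div, norm_one]
    exact h2)
  have h4 : AnalyticAt ℂ (fun z : ℂ => 1 / z) z := analyticAt_const.div analyticAt_id hz0
  exact AnalyticAt.comp (g := inn f) (f := fun z : ℂ => 1 / z) h3 h4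

lemma ou_deriv (hρ : 0 ≤ ρ) {f : PowerSeries ℂ} (hf : f ∈ Cw ρ) {z : ℂ} (hz : ρ < ‖z‖) :
    deriv (ou f) z = - (1 / z) ^ 2 * ou (PowerSeries.derivative ℂ f) z := by
  obtain ⟨r, h0, h1, h2⟩ := mid_radius hρ hz
  have hz0 : z ≠ 0 := by
    intro h
    rw [h, norm_zero] at hz
    linarith
  have hu : ‖(1 / z : ℂ)‖ < r := by
    rw [norm_div, norm_one]
    exact h2
  have h3 := (inn_deriv (hf r h0.le h1) hu).tsum_eq
  have h4 : HasDerivAt (inn f) (deriv (inn f) (1 / z)) (1 / z) :=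
    ((inn_an (hf r h0.le h1) _ (by rwa [Metric.mem_ball, dist_zero_right])).differentiableAt).hasDerivAt
  have h5 : HasDerivAt (fun w : ℂ => 1 / w) (-(1 / z) ^ 2) z := by
    have := hasDerivAt_inv hz0
    simp only [one_div]
    rw [inv_pow]
    exact this
  have h6 := (h4.comp z h5).deriv
  have h7 : (inn f ∘ fun w : ℂ => 1 / w) = ou f := rfl
  rw [h7] at h6
  rw [h6, ← h3, mul_comm]
  rfl

/-- uniqueness near `0` -/
lemma inn_inj {f : PowerSeries ℂ} {r : ℝ} (hr : 0 < r) (h : Summable fun m => ‖coeff m f‖ * r ^ m)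
    (h0 : ∀ᶠ u in 𝓝 0, inn f u = 0) : f = 0 := by
  have h1 : HasFPowerSeriesAt (inn f) (FormalMultilinearSeries.ofScalars ℂ fun m => coeff m f) 0 := by
    rw [hasFPowerSeriesAt_iff]
    filter_upwards [Metric.ball_mem_nhds (0 : ℂ) hr] with u hu
    rw [zero_add]
    rw [Metric.mem_ball, dist_zero_right] at hu
    have h2 := (summable_at h hu.le).of_norm.hasSum
    have h4 : (fun m => u ^ m • (FormalMultilinearSeries.ofScalars ℂ fun m => coeff m f).coeff m) =
        fun m => coeff m f * u ^ m := by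
      funext m
      rw [FormalMultilinearSeries.coeff_ofScalars, smul_eq_mul]
      ring
    rw [h4]
    exact h2
  have h2 := (h1.congr (h0 : inn f =ᶠ[𝓝 0] fun _ => 0)).eq_zero
  ext m
  have h3 := congrArg (fun q : FormalMultilinearSeries ℂ ℂ ℂ => q.coeff m) h2
  simp only [FormalMultilinearSeries.coeff_ofScalars] at h3
  rw [h3, map_zero]
  simp [FormalMultilinearSeries.coeff]

lemma ou_inj (hρ : 0 ≤ ρ) {f : PowerSeries ℂ} (hf : f ∈ Cw ρ) {p : ℂ} (hp : ρ < ‖p‖)
    (h : ∀ᶠ z in 𝓝 p, ou f z = 0) : f = 0 := by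
  obtain ⟨r, h0, h1, h2⟩ := mid_radius hρ hp
  have hp0 : p ≠ 0 := by
    intro h'
    rw [h', norm_zero] at hp
    linarith
  have hu : (1 / p : ℂ) ∈ Metric.ball (0 : ℂ) r := by
    rw [Metric.mem_ball, dist_zero_right, norm_div, norm_one]
    exact h2
  have h3 : ∀ᶠ u in 𝓝 (1 / p), inn f u = 0 := by
    have hc : ContinuousAt (fun u : ℂ => 1 / u) (1 / p) := by
      refine continuousAt_const.div continuousAt_id ?_
      exact one_div_ne_zero hp0
    have h4 : Tendsto (fun u : ℂ => 1 / u) (𝓝 (1 / p)) (𝓝 p) := by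
      have := hc.tendsto
      simpa using this
    filter_upwards [h4.eventually h] with u hu
    unfold ou at hu
    simpa using hu
  have h5 : Set.EqOn (inn f) 0 (Metric.ball 0 r) := by
    refine (inn_an (hf r h0.le h1)).eqOn_zero_of_preconnected_of_eventuallyEq_zero
      (convex_ball _ _).isPreconnected hu ?_
    exact h3
  refine inn_inj h0 (hf r h0.le h1) ?_
  filter_upwards [Metric.ball_mem_nhds (0 : ℂ) h0] with u hu
  exact h5 hu

end Pool.Agent.Y120.GH
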