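import Pool.Agent.Y120.H.Fac

/-!
# Functions which are meromorphic in a disc and outside a smaller disc are rational
-/

set_option autoImplicit false

open Filter Topology Metric Set

namespace Pool.Agent.Y120.GH

lemma poly_bound (Q : Polynomial ℂ) : ∃ K : ℝ, 0 ≤ K ∧ ∀ z : ℂ, ‖Q.eval z‖ ≤ K * (1 + ‖z‖) ^ Q.natDegree := by
  refine ⟨∑ i ∈ Finset.range (Q.natDegree + 1), ‖Q.coeff i‖, Finset.sum_nonneg fun _ _ => norm_nonneg _, fun z => ?_⟩
  rw [Polynomial.eval_eq_sum_range, Finset.sum_mul]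
  refine (norm_sum_le _ _).trans (Finset.sum_le_sum fun i hi => ?_)
  rw [norm_mul, norm_pow]
  refine mul_le_mul_of_nonneg_left ?_ (norm_nonneg _)
  have h0 := norm_nonneg z
  calc ‖z‖ ^ i ≤ (1 + ‖z‖) ^ i := pow_le_pow_left₀ h0 (by linarith) _
    _ ≤ _ := pow_le_pow_right₀ (by linarith) (Nat.lt_succ_iff.1 (Finset.mem_range.1 hi))

lemma rev_eval (P : Polynomial ℂ) {z : ℂ} (hz : z ≠ 0) :
    P.reverse.eval z = z ^ P.natDegree * P.eval (1 / z) := by
  let _ : Invertible z⁻¹ := invertibleOfNonzero (inv_ne_zero hz)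
  have h := Polynomial.eval₂_reverse_mul_pow (RingHom.id ℂ) (z⁻¹) P
  have h2 : (⅟(z⁻¹) : ℂ) = z := by
    rw [invOf_eq_inv, inv_inv]
  rw [h2] at h
  simp only [Polynomial.eval₂_id] at h
  rw [one_div, ← h, inv_pow]
  field_simp

theorem rational_of {ρ ρ' : ℝ} (hρ : 0 < ρ) (hρρ : ρ < ρ') (c₁ c₂ : ℂ → ℂ) (h₁ : AnalyticOnNhd ℂ c₁ (ball 0 ρ'))
    (h₂ : AnalyticOnNhd ℂ c₂ (ball 0 ρ')) (P Q : PowerSeries ℂ) (hP : P ∈ Cw ρ) (hQ : Q ∈ Cw ρ) (hQ0 : Q ≠ 0)
    (hc2 : ∃ z ∈ ball (0 : ℂ) ρ', c₂ z ≠ 0)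
    (h : ∀ z : ℂ, ρ < ‖z‖ → ‖z‖ < ρ' → c₁ z * ou Q z = c₂ z * ou P z) :
    ∃ R S : Polynomial ℂ, S ≠ 0 ∧ ∀ z ∈ ball (0 : ℂ) ρ', S.eval z * c₁ z = R.eval z * c₂ z := by
  set r₁ : ℝ := (2 * ρ + ρ') / 3 with hr₁
  set r₂ : ℝ := (ρ + 2 * ρ') / 3 with hr₂
  have e1 : ρ < r₁ := by rw [hr₁]; linarith
  have e2 : r₁ < r₂ := by rw [hr₁, hr₂]; linarith
  have e3 : r₂ < ρ' := by rw [hr₂]; linarith
  have hr1 : 0 < r₁ := by linarith
  have hr2 : 0 < r₂ := by linarith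
  have hi1 : (1 / r₁) * ρ < 1 := by
    rw [div_mul_eq_mul_div, one_mul, div_lt_one hr1]
    exact e1
  obtain ⟨r, hr, hrρ, hr1r⟩ : ∃ r : ℝ, 0 < r ∧ r * ρ < 1 ∧ 1 / r₁ < r := by
    have hlt : ρ < ‖(r₁ : ℂ)‖ := by
      rw [Complex.norm_real, Real.norm_of_nonneg hr1.le]
      exact e1
    obtain ⟨r, a1, a2, a3⟩ := mid_radius hρ.le hlt
    rw [Complex.norm_real, Real.norm_of_nonneg hr1.le] at a3
    exact ⟨r, a1, a2, a3⟩
  -- the factorisation inside
  obtain ⟨Q₂, g₂, hQ₂, hg₂, hg₂0, hf₂⟩ := factor (f := c₂) hr2 (h₂.mono (closedBall_subset_ball e3)) (by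
    by_contra hno
    push Not at hno
    obtain ⟨z, hz, hz0⟩ := hc2
    apply hz0
    refine h₂.eqOn_zero_of_preconnected_of_eventuallyEq_zero (convex_ball _ _).isPreconnected
      (mem_ball_self (by linarith : (0 : ℝ) < ρ')) ?_ hz
    filter_upwards [ball_mem_nhds (0 : ℂ) hr2] with w hw
    exact hno w (ball_subset_closedBall hw))
  -- the factorisation outside
  have hanQ : AnalyticOnNhd ℂ (inn Q) (closedBall 0 (1 / r₁)) :=
    (inn_an (hQ r hr.le hrρ)).mono (closedBall_subset_ball hr1r)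
  have hanP : AnalyticOnNhd ℂ (inn P) (closedBall 0 (1 / r₁)) :=
    (inn_an (hP r hr.le hrρ)).mono (closedBall_subset_ball hr1r)
  obtain ⟨P₁, v, hP₁, hv, hv0, hfv⟩ := factor (f := inn Q) (by positivity : 0 < 1 / r₁) hanQ (by
    by_contra hno
    push Not at hno
    apply hQ0
    refine inn_inj hr (hQ r hr.le hrρ) ?_
    filter_upwards [ball_mem_nhds (0 : ℂ) (by positivity : 0 < 1 / r₁)] with w hw
    exact hno w (ball_subset_closedBall hw))
  set d := P₁.natDegree with hd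
  set P₁' := P₁.reverse with hP₁'
  have hrev : ∀ z : ℂ, z ≠ 0 → P₁'.eval z = z ^ d * P₁.eval (1 / z) := fun z hz => rev_eval P₁ hz
  have hP₁'0 : P₁' ≠ 0 := by
    rw [hP₁', ne_eq, Polynomial.reverse_eq_zero]
    exact hP₁
  -- the two expressions
  let E₁ : ℂ → ℂ := fun z => c₁ z / g₂ z * P₁'.eval z
  let E₂ : ℂ → ℂ := fun z => Q₂.eval z * z ^ d * (inn P (1 / z) / v (1 / z))
  have hinv : ∀ z : ℂ, r₁ ≤ ‖z‖ → (1 / z) ∈ closedBall (0 : ℂ) (1 / r₁) := by
    intro z hz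
    rw [mem_closedBall_zero_iff, norm_div, norm_one]
    exact one_div_le_one_div_of_le hr1 hz
  have hEE : ∀ z : ℂ, r₁ < ‖z‖ → ‖z‖ < r₂ → E₁ z = E₂ z := by
    intro z hz1 hz2
    have hz0 : z ≠ 0 := by
      intro h0
      rw [h0, norm_zero] at hz1
      linarith
    have hzb : z ∈ closedBall (0 : ℂ) r₂ := by
      rw [mem_closedBall_zero_iff]
      exact hz2.le
    have a1 := h z (by linarith) (by linarith)
    have a2 := hf₂ z hzb
    have a3 := hfv _ (hinv z hz1.le)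
    have a4 := hg₂0 z hzb
    have a5 := hv0 _ (hinv z hz1.le)
    show c₁ z / g₂ z * P₁'.eval z = Q₂.eval z * z ^ d * (inn P (1 / z) / v (1 / z))
    rw [hrev z hz0]
    unfold ou at a1
    rw [a2, a3] at a1
    field_simp
    linear_combination a1
  let E : ℂ → ℂ := fun z => if ‖z‖ < r₂ then E₁ z else E₂ z
  have hE1 : ∀ z : ℂ, ‖z‖ < r₂ → E z = E₁ z := fun z hz => if_pos hz
  have hE2 : ∀ z : ℂ, r₁ < ‖z‖ → E z = E₂ z := by
    intro z hz
    by_cases h2 : ‖z‖ < r₂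
    · rw [hE1 z h2, hEE z hz h2]
    · exact if_neg h2
  have hE1d : ∀ z : ℂ, ‖z‖ ≤ r₂ → DifferentiableAt ℂ E₁ z := by
    intro z hz
    have hzb : z ∈ closedBall (0 : ℂ) r₂ := by
      rw [mem_closedBall_zero_iff]
      exact hz
    have a1 : DifferentiableAt ℂ c₁ z := (h₁ z (by rw [mem_ball_zero_iff]; linarith)).differentiableAt
    have a2 : DifferentiableAt ℂ g₂ z := (hg₂ z hzb).differentiableAt
    exact (a1.div a2 (hg₂0 z hzb)).mul P₁'.differentiableAt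
  have hvd : ∀ z : ℂ, r₁ < ‖z‖ → DifferentiableAt ℂ E₂ z := by
    intro z hz
    have hz0 : z ≠ 0 := by
      intro h0
      rw [h0, norm_zero] at hz
      linarith
    have a0 : DifferentiableAt ℂ (fun w : ℂ => 1 / w) z := (differentiableAt_const _).div differentiableAt_id hz0
    have a1 : DifferentiableAt ℂ (fun w : ℂ => inn P (1 / w)) z :=
      DifferentiableAt.comp (g := inn P) z (hanP _ (hinv z hz.le)).differentiableAt a0
    have a2 : DifferentiableAt ℂ (fun w : ℂ => v (1 / w)) z :=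
      DifferentiableAt.comp (g := v) z (hv _ (hinv z hz.le)).differentiableAt a0
    exact (Q₂.differentiableAt.mul (differentiableAt_id.pow d)).mul (a1.div a2 (hv0 _ (hinv z hz.le)))
  have hEd : Differentiable ℂ E := by
    intro z
    by_cases hz : ‖z‖ < r₂
    · have a1 : E =ᶠ[𝓝 z] E₁ := by
        filter_upwards [(isOpen_lt continuous_norm continuous_const).mem_nhds hz] with w hw
        exact hE1 w hw
      exact (hE1d z hz.le).congr_of_eventuallyEq a1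
    · have hz1 : r₁ < ‖z‖ := by
        push Not at hz
        linarith
      have a1 : E =ᶠ[𝓝 z] E₂ := by
        filter_upwards [(isOpen_lt continuous_const continuous_norm).mem_nhds hz1] with w hw
        exact hE2 w hw
      exact (hvd z hz1).congr_of_eventuallyEq a1
  -- growth
  obtain ⟨K₁, hK₁⟩ := (isCompact_closedBall (0 : ℂ) r₂).exists_bound_of_continuousOn hEd.continuous.continuousOn
  have hcont : ContinuousOn (fun u => inn P u / v u) (closedBall (0 : ℂ) (1 / r₁)) :=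
    hanP.continuousOn.div hv.continuousOn hv0
  obtain ⟨K₂, hK₂⟩ := (isCompact_closedBall (0 : ℂ) (1 / r₁)).exists_bound_of_continuousOn hcont
  obtain ⟨K₃, hK₃0, hK₃⟩ := poly_bound Q₂
  have hK₁0 : 0 ≤ K₁ := (norm_nonneg _).trans (hK₁ 0 (by simp [hr2.le]))
  have hK₂0 : 0 ≤ K₂ := (norm_nonneg _).trans (hK₂ 0 (by simp [hr1.le]))
  have hgrow : ∀ z, ‖E z‖ ≤ (K₁ + K₃ * K₂) * (1 + ‖z‖) ^ (Q₂.natDegree + d) := by
    intro z
    have hz0 := norm_nonneg z
    have hone : (1 : ℝ) ≤ (1 + ‖z‖) ^ (Q₂.natDegree + d) := one_le_pow₀ (by linarith)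
    by_cases hz : ‖z‖ ≤ r₂
    · have a1 := hK₁ z (by rw [mem_closedBall_zero_iff]; exact hz)
      have a2 : 0 ≤ K₃ * K₂ := by positivity
      nlinarith
    · push Not at hz
      have hz1 : r₁ < ‖z‖ := by linarith
      rw [hE2 z hz1]
      show ‖Q₂.eval z * z ^ d * (inn P (1 / z) / v (1 / z))‖ ≤ _
      have a1 := hK₂ _ (hinv z hz1.le)
      have a2 := hK₃ z
      rw [norm_mul, norm_mul, norm_pow]
      have a3 : ‖z‖ ^ d ≤ (1 + ‖z‖) ^ d := pow_le_pow_left₀ hz0 (by linarith) _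
      calc ‖Q₂.eval z‖ * ‖z‖ ^ d * ‖inn P (1 / z) / v (1 / z)‖
          ≤ (K₃ * (1 + ‖z‖) ^ Q₂.natDegree) * (1 + ‖z‖) ^ d * K₂ := by gcongr
        _ = (K₃ * K₂) * (1 + ‖z‖) ^ (Q₂.natDegree + d) := by
            rw [pow_add]
            ring
        _ ≤ _ := by
            refine mul_le_mul_of_nonneg_right (by linarith) (by positivity)
  obtain ⟨E₀, hE₀⟩ := poly_of_growth hEd _ _ hgrow
  refine ⟨E₀, P₁' * Q₂, mul_ne_zero hP₁'0 hQ₂, ?_⟩
  have hloc : ∀ z ∈ ball (0 : ℂ) r₂, (P₁' * Q₂).eval z * c₁ z - E₀.eval z * c₂ z = 0 := by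
    intro z hz
    rw [mem_ball_zero_iff] at hz
    have hzb : z ∈ closedBall (0 : ℂ) r₂ := by
      rw [mem_closedBall_zero_iff]
      exact hz.le
    have a1 := hE₀ z
    rw [hE1 z hz] at a1
    have a2 := hf₂ z hzb
    have a4 := hg₂0 z hzb
    rw [Polynomial.eval_mul, ← a1, a2]
    show P₁'.eval z * Q₂.eval z * c₁ z - c₁ z / g₂ z * P₁'.eval z * (Q₂.eval z * g₂ z) = 0
    field_simp
    ring
  have hpoly : ∀ T : Polynomial ℂ, AnalyticOnNhd ℂ (fun z => T.eval z) (ball 0 ρ') := fun T z _ =>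
    T.differentiable.analyticAt z
  have han : AnalyticOnNhd ℂ (fun z => (P₁' * Q₂).eval z * c₁ z - E₀.eval z * c₂ z) (ball 0 ρ') :=
    ((hpoly _).mul h₁).sub ((hpoly _).mul h₂)
  have hzero := han.eqOn_zero_of_preconnected_of_eventuallyEq_zero (convex_ball _ _).isPreconnected
      (mem_ball_self (by linarith : (0 : ℝ) < ρ')) (by
    filter_upwards [ball_mem_nhds (0 : ℂ) hr2] with w hw
    exact hloc w hw)
  intro z hz
  exact sub_eq_zero.1 (hzero hz)

end Pool.Agent.Y120.GH
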