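import Pool.Agent.Y120.H.Tup

/-!
# The main theorem for tuples
-/

set_option autoImplicit false

open PowerSeries Pool.Agent.Y113 Pool.Agent.Y120.GF

namespace Pool.Agent.Y120.GH

lemma yw_map {r δ : ℕ} {K K' : Type} [CommMonoid K] [CommMonoid K'] (f : K →* K') (z : Fin r → K)
    (b : Fin δ → Option (Fin r)) : f (yw z b) = yw (fun j => f (z j)) b := by
  unfold yw
  rw [map_prod]
  refine Finset.prod_congr rfl fun j _ => ?_
  rcases b j with _ | i
  · exact map_one f
  · rfl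

lemma aeval_sq (t : ℕ) (P : Polynomial ℤ) : Polynomial.aeval (1 / (t : ℝ)) P = ((sq t P : ℚ) : ℝ) := by
  have h1 : (1 / (t : ℝ)) = algebraMap ℚ ℝ (1 / (t : ℚ)) := by
    rw [eq_ratCast]
    push_cast
    rfl
  rw [h1, Polynomial.aeval_algebraMap_apply, eq_ratCast]
  rfl

lemma ev_ps (t : ℕ) (P : Polynomial ℤ) : ev (t : ℝ) (ps P) = ((sq t P : ℚ) : ℝ) := by
  rw [← aeval_sq]
  unfold ps
  rw [ev_coe]
  have : (Int.castRingHom ℚ) = algebraMap ℤ ℚ := rfl
  rw [this, Polynomial.aeval_map_algebraMap]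

/-- specialisation of the rational functions at `x = 1/t` -/
noncomputable def spec (t : ℕ) : Polynomial ℚ →+* ℂ := (algebraMap ℚ ℂ).comp (Polynomial.evalRingHom (1 / (t : ℚ)))

lemma spec_map (t : ℕ) (P : Polynomial ℤ) : spec t (P.map (Int.castRingHom ℚ)) = ((sq t P : ℚ) : ℂ) := by
  unfold spec sq
  rw [RingHom.comp_apply, Polynomial.coe_evalRingHom, Polynomial.eval_map, Polynomial.aeval_def]
  rfl

/-- the ideal generated by the specialised functional relations of degree `≤ δ` -/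
noncomputable def relI (δ : ℕ) {k : ℕ} {r : Fin k → ℕ} (h : ∀ i, Fin (r i) → ℚ⟦X⟧) (t : Fin k → ℕ) :
    Ideal (MvPolynomial (Σ i, Option (Fin (r i))) ℂ) :=
  Ideal.span {Q | ∃ (i : Fin k) (R : MvPolynomial (Fin (r i)) (Polynomial ℚ)), R.totalDegree ≤ δ ∧
    MvPolynomial.aeval (h i) R = 0 ∧ Q = MvPolynomial.rename (fun j => ⟨i, some j⟩) (MvPolynomial.map (spec (t i)) R)}

lemma yw_deg {r δ : ℕ} (b : Fin δ → Option (Fin r)) :
    (yw (fun j => (MvPolynomial.X j : MvPolynomial (Fin r) (Polynomial ℚ))) b).totalDegree ≤ δ := by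
  unfold yw
  refine (MvPolynomial.totalDegree_finsetProd _ _).trans ?_
  refine (Finset.sum_le_card_nsmul _ _ 1 fun j _ => ?_).trans (by simp)
  rcases b j with _ | i
  · show (1 : MvPolynomial (Fin r) (Polynomial ℚ)).totalDegree ≤ 1
    rw [MvPolynomial.totalDegree_one]
    exact Nat.zero_le _
  · show (MvPolynomial.X i : MvPolynomial (Fin r) (Polynomial ℚ)).totalDegree ≤ 1
    rw [MvPolynomial.totalDegree_X]

section
variable {k δ : ℕ} {r : Fin k → ℕ} {h : ∀ i, Fin (r i) → ℚ⟦X⟧} {B : ∀ i, Finset (Fin δ → Option (Fin (r i)))}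
  {a : Fin k → Polynomial ℤ} {M : ∀ i, (Fin δ → Option (Fin (r i))) → B i → Polynomial ℤ} {t : Fin k → ℕ}

/-- the universal point -/
theorem univ_mem (hM : ∀ i b, ps (a i) * yw (h i) b = ∑ β, ps (M i b β) * yw (h i) β.1) (ha : ∀ i, sq (t i) (a i) ≠ 0)
    (P : MvPolynomial (Σ i, Option (Fin (r i))) ℂ) (hP : P.totalDegree ≤ δ) (hv : vv a M t P = 0) : P ∈ relI δ h t := by
  classical
  set I := relI δ h t with hI
  let z : ∀ i, Fin (r i) → (MvPolynomial (Σ i, Option (Fin (r i))) ℂ ⧸ I) := fun i j =>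
    Ideal.Quotient.mk I (MvPolynomial.X ⟨i, some j⟩)
  let l : Fin k → (MvPolynomial (Σ i, Option (Fin (r i))) ℂ ⧸ I) := fun i => Ideal.Quotient.mk I (MvPolynomial.X ⟨i, none⟩)
  have h1 : MvPolynomial.aeval (pt z l) = Ideal.Quotient.mkₐ ℂ I := by
    refine MvPolynomial.algHom_ext fun v => ?_
    rw [MvPolynomial.aeval_X]
    obtain ⟨i, _ | j⟩ := v
    · rfl
    · rfl
  have h2 := eval_expand a M t z l (fun i b => by
    let ψ : MvPolynomial (Fin (r i)) (Polynomial ℚ) →+* (MvPolynomial (Σ i, Option (Fin (r i))) ℂ ⧸ I) :=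
      ((Ideal.Quotient.mk I).comp (MvPolynomial.rename (R := ℂ) (fun j => (⟨i, some j⟩ : Σ i, Option (Fin (r i))))).toRingHom).comp
        (MvPolynomial.map (spec (t i)))
    have hψC : ∀ p : Polynomial ℤ, ψ (MvPolynomial.C (p.map (Int.castRingHom ℚ))) =
        algebraMap ℂ (MvPolynomial (Σ i, Option (Fin (r i))) ℂ ⧸ I) ((sq (t i) p : ℚ) : ℂ) := by
      intro p
      show Ideal.Quotient.mk I (MvPolynomial.rename _ (MvPolynomial.map (spec (t i)) (MvPolynomial.C (p.map (Int.castRingHom ℚ))))) = _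
      rw [MvPolynomial.map_C, MvPolynomial.rename_C, spec_map]
      rfl
    have hψX : ∀ b : Fin δ → Option (Fin (r i)),
        ψ (yw (fun j => (MvPolynomial.X j : MvPolynomial (Fin (r i)) (Polynomial ℚ))) b) = yw (z i) b := by
      intro b
      have e1 := yw_map ψ.toMonoidHom
        (fun j => (MvPolynomial.X j : MvPolynomial (Fin (r i)) (Polynomial ℚ))) b
      refine e1.trans ?_
      congr 1
      funext j
      show Ideal.Quotient.mk I (MvPolynomial.rename _ (MvPolynomial.map (spec (t i)) (MvPolynomial.X j))) = _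
      rw [MvPolynomial.map_X, MvPolynomial.rename_X]
    let Rb : MvPolynomial (Fin (r i)) (Polynomial ℚ) :=
      MvPolynomial.C ((a i).map (Int.castRingHom ℚ)) * yw (fun j => MvPolynomial.X j) b -
        ∑ β, MvPolynomial.C ((M i b β).map (Int.castRingHom ℚ)) * yw (fun j => MvPolynomial.X j) β.1
    have hdeg : Rb.totalDegree ≤ δ := by
      have e1 : ∀ (p : Polynomial ℚ) (b : Fin δ → Option (Fin (r i))),
          (MvPolynomial.C p * yw (fun j => (MvPolynomial.X j : MvPolynomial (Fin (r i)) (Polynomial ℚ))) b).totalDegree ≤ δ := by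
        intro p b
        refine (MvPolynomial.totalDegree_mul _ _).trans ?_
        rw [MvPolynomial.totalDegree_C, zero_add]
        exact yw_deg b
      refine (MvPolynomial.totalDegree_sub _ _).trans (max_le (e1 _ _) ?_)
      refine (MvPolynomial.totalDegree_finsetSum _ _).trans (Finset.sup_le fun β _ => e1 _ _)
    have hz0 : MvPolynomial.aeval (h i) Rb = 0 := by
      have e1 : ∀ p : Polynomial ℤ, MvPolynomial.aeval (h i) (MvPolynomial.C (p.map (Int.castRingHom ℚ))) = ps p := by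
        intro p
        rw [MvPolynomial.aeval_C, PowerSeries.algebraMap_apply']
        simp [ps]
      have e2 : ∀ b : Fin δ → Option (Fin (r i)), MvPolynomial.aeval (h i)
          (yw (fun j => (MvPolynomial.X j : MvPolynomial (Fin (r i)) (Polynomial ℚ))) b) = yw (h i) b := by
        intro b
        have e3 := yw_map ((MvPolynomial.aeval (R := Polynomial ℚ) (h i)).toRingHom : MvPolynomial (Fin (r i)) (Polynomial ℚ) →* ℚ⟦X⟧)
          (fun j => (MvPolynomial.X j : MvPolynomial (Fin (r i)) (Polynomial ℚ))) b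
        refine Eq.trans e3 ?_
        congr 1
        funext j
        show MvPolynomial.aeval (h i) (MvPolynomial.X j) = _
        rw [MvPolynomial.aeval_X]
      show MvPolynomial.aeval (h i) (MvPolynomial.C ((a i).map (Int.castRingHom ℚ)) * yw (fun j => MvPolynomial.X j) b -
        ∑ β, MvPolynomial.C ((M i b β).map (Int.castRingHom ℚ)) * yw (fun j => MvPolynomial.X j) β.1) = 0
      rw [map_sub, map_mul, map_sum, e1, e2, hM, sub_eq_zero]
      refine Finset.sum_congr rfl fun β _ => ?_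
      rw [map_mul, e1, e2]
    have hψ0 : ψ Rb = 0 := by
      refine Ideal.Quotient.eq_zero_iff_mem.2 ?_
      exact Ideal.subset_span ⟨i, Rb, hdeg, hz0, rfl⟩
    have h3 : ψ Rb = ψ (MvPolynomial.C ((a i).map (Int.castRingHom ℚ))) * ψ (yw (fun j => MvPolynomial.X j) b) -
        ∑ β, ψ (MvPolynomial.C ((M i b β).map (Int.castRingHom ℚ))) * ψ (yw (fun j => MvPolynomial.X j) β.1) := by
      show ψ (MvPolynomial.C ((a i).map (Int.castRingHom ℚ)) * yw (fun j => MvPolynomial.X j) b -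
        ∑ β, MvPolynomial.C ((M i b β).map (Int.castRingHom ℚ)) * yw (fun j => MvPolynomial.X j) β.1) = _
      rw [map_sub, map_mul, map_sum]
      simp only [map_mul]
    rw [hψ0, hψC, hψX] at h3
    simp only [hψC, hψX] at h3
    exact sub_eq_zero.1 h3.symm) ha P hP
  rw [h1] at h2
  refine Ideal.Quotient.eq_zero_iff_mem.1 ?_
  refine Eq.trans h2 ?_
  refine Finset.sum_eq_zero fun p _ => ?_
  rw [hv, Pi.zero_apply, map_zero, zero_mul]

lemma ev_yw {r δ : ℕ} {h : Fin r → ℚ⟦X⟧} {C : ℝ} (hC : 0 ≤ C) (hh : ∀ j m, |((coeff m (h j) : ℚ) : ℝ)| ≤ C ^ (m + 1)) {t : ℝ}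
    (ht : C < t) (b : Fin δ → Option (Fin r)) :
    Cv t (yw h b) ∧ ((ev t (yw h b) : ℝ) : ℂ) = yw (fun j => ((ev t (h j) : ℝ) : ℂ)) b := by
  have ht0 : 0 < t := by linarith
  have hcv : ∀ o : Option (Fin r), Cv t (o.elim 1 h) := by
    rintro (_ | j)
    · exact Cv.one
    · exact Cv.of_bound (A := C) (B := C) ht0 hC ht fun m => (hh j m).trans (le_of_eq (pow_succ' _ _))
  refine ⟨Cv.prod ht0 _ _ fun j _ => hcv _, ?_⟩
  unfold yw
  rw [Cv.ev_prod ht0 _ _ fun j _ => hcv _]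
  push_cast
  refine Finset.prod_congr rfl fun j _ => ?_
  rcases b j with _ | i
  · show ((ev t 1 : ℝ) : ℂ) = 1
    rw [ev_one]
    push_cast
    rfl
  · rfl

/-- the point of the values -/
noncomputable def valpt (h : ∀ i, Fin (r i) → ℚ⟦X⟧) (t : Fin k → ℕ) : (Σ i, Option (Fin (r i))) → ℂ :=
  pt (fun i j => ((ev (t i : ℝ) (h i j) : ℝ) : ℂ)) (fun i => ((Real.log (t i) : ℝ) : ℂ))

theorem val_expand (hM : ∀ i b, ps (a i) * yw (h i) b = ∑ β, ps (M i b β) * yw (h i) β.1) (ha : ∀ i, sq (t i) (a i) ≠ 0)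
    {C : Fin k → ℝ} (hC : ∀ i, 0 ≤ C i) (hh : ∀ i j m, |((coeff m (h i j) : ℚ) : ℝ)| ≤ C i ^ (m + 1))
    (ht : ∀ i, C i < t i) (P : MvPolynomial (Σ i, Option (Fin (r i))) ℂ) (hP : P.totalDegree ≤ δ) :
    MvPolynomial.aeval (valpt h t) P = ∑ p : (∀ i, B i × Fin (δ + 1)), vv a M t P p *
      ∏ i, XF δ (fun β : B i => yw (h i) β.1) (t i) (p i) := by
  classical
  have hcv : ∀ i (b : Fin δ → Option (Fin (r i))), Cv (t i : ℝ) (yw (h i) b) := fun i b =>
    (ev_yw (hC i) (hh i) (ht i) b).1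
  have hvl : ∀ i (b : Fin δ → Option (Fin (r i))), ((ev (t i : ℝ) (yw (h i) b) : ℝ) : ℂ) =
      yw (fun j => ((ev (t i : ℝ) (h i j) : ℝ) : ℂ)) b := fun i b => (ev_yw (hC i) (hh i) (ht i) b).2
  have hz : ∀ i (b : Fin δ → Option (Fin (r i))), algebraMap ℂ ℂ ((sq (t i) (a i) : ℚ) : ℂ) *
      yw (fun j => ((ev (t i : ℝ) (h i j) : ℝ) : ℂ)) b =
      ∑ β : B i, algebraMap ℂ ℂ ((sq (t i) (M i b β) : ℚ) : ℂ) * yw (fun j => ((ev (t i : ℝ) (h i j) : ℝ) : ℂ)) β.1 := by
    intro i b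
    have ht0 : (0 : ℝ) < t i := lt_of_le_of_lt (hC i) (ht i)
    have hcps : ∀ p : Polynomial ℤ, Cv (t i : ℝ) (ps p) := fun p => Cv.coe _
    have e1 : ev (t i : ℝ) (ps (a i) * yw (h i) b) = ∑ β : B i, ev (t i : ℝ) (ps (M i b β) * yw (h i) β.1) := by
      rw [hM i b]
      exact Cv.ev_sum ht0 Finset.univ (fun β : B i => ps (M i b β) * yw (h i) β.1) fun β _ => (hcps _).mul ht0 (hcv i _)
    have e3 : ∀ (p : Polynomial ℤ) (b : Fin δ → Option (Fin (r i))), ((ev (t i : ℝ) (ps p * yw (h i) b) : ℝ) : ℂ) =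
        ((sq (t i) p : ℚ) : ℂ) * yw (fun j => ((ev (t i : ℝ) (h i j) : ℝ) : ℂ)) b := by
      intro p b
      rw [Cv.ev_mul ht0 (hcps p) (hcv i b), ev_ps, Complex.ofReal_mul, hvl]
      push_cast
      rfl
    have e2 := congrArg (fun x : ℝ => (x : ℂ)) e1
    beta_reduce at e2
    rw [Complex.ofReal_sum, e3] at e2
    simp only [e3] at e2
    exact e2
  have h1 := eval_expand (K := ℂ) a M t (fun i j => ((ev (t i : ℝ) (h i j) : ℝ) : ℂ))
    (fun i => ((Real.log (t i) : ℝ) : ℂ)) hz ha P hP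
  refine Eq.trans h1 ?_
  refine Finset.sum_congr rfl fun p _ => ?_
  refine congrArg (fun w => vv a M t P p * w) ?_
  refine Finset.prod_congr rfl fun i _ => ?_
  rw [XF, hvl]

end

/-- few tuples with a relation which is not a specialisation of functional relations -/
theorem tuples (k δ D : ℕ) (r : Fin k → ℕ) (h : ∀ i, Fin (r i) → ℚ⟦X⟧)
    (hsz : ∀ i, ∃ C : ℝ, ∀ j m, |((coeff m (h i j) : ℚ) : ℝ)| ≤ C ^ (m + 1))
    (hfam : ∀ i, ∃ (B : Finset (Fin δ → Option (Fin (r i)))) (a : Polynomial ℤ)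
      (M : (Fin δ → Option (Fin (r i))) → B → Polynomial ℤ), a ≠ 0 ∧
      (∀ b, ps a * yw (h i) b = ∑ β, ps (M b β) * yw (h i) β.1) ∧ One (XF δ fun β : B => yw (h i) β.1)) :
    ∃ c C : ℝ, 0 < c ∧ 0 ≤ C ∧ ∀ (V : Submodule ℚ ℂ) [Module.Finite ℚ V], Module.finrank ℚ V ≤ D →
      ∀ (x : Fin k → ℕ) (N : ℕ), 1 ≤ N → ∀ S : Finset (Fin k → ℕ),
      (∀ t ∈ S, (∀ i, x i < t i ∧ t i ≤ x i + N) ∧ ∃ P : MvPolynomial (Σ i, Option (Fin (r i))) ℂ, P.totalDegree ≤ δ ∧
        (∀ s, P.coeff s ∈ V) ∧ MvPolynomial.aeval (valpt h t) P = 0 ∧ P ∉ relI δ h t) →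
      (S.card : ℝ) ≤ C * (N : ℝ) ^ (k - 1) * ∑ i, (1 + N / ((x i : ℝ) + N) ^ c) := by
  classical
  choose B a M ha hM hOne using hfam
  choose C₀ hC₀ using hsz
  choose n hn using fun i => no_roots (ha i)
  obtain ⟨c, C, hc, hC, hcount⟩ := count_ks D k (fun i => B i × Fin (δ + 1)) (fun i => XF δ fun β : B i => yw (h i) β.1) hOne
  -- the bound for small integers
  obtain ⟨w, hw⟩ : ∃ w : ℕ, ∀ i, |C₀ i| ≤ w ∧ n i ≤ w := by
    choose m hm using fun i => exists_nat_ge |C₀ i|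
    refine ⟨∑ i, (m i + n i), fun i => ⟨?_, ?_⟩⟩
    · have h1 : m i + n i ≤ ∑ i, (m i + n i) :=
        Finset.single_le_sum (f := fun i => m i + n i) (fun _ _ => Nat.zero_le _) (Finset.mem_univ i)
      have h2 : ((m i : ℕ) : ℝ) ≤ ((∑ i, (m i + n i) : ℕ) : ℝ) := by exact_mod_cast (by omega)
      exact (hm i).trans h2
    · have h1 : m i + n i ≤ ∑ i, (m i + n i) :=
        Finset.single_le_sum (f := fun i => m i + n i) (fun _ _ => Nat.zero_le _) (Finset.mem_univ i)
      omega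
  refine ⟨c, C + (w + 1), hc, by positivity, ?_⟩
  intro V _ hV x N hN S hS
  have hN1 : (1 : ℝ) ≤ N := by exact_mod_cast hN
  set Sa := S.filter fun t => ∃ i, t i ≤ w with hSa
  set Sb := S.filter fun t => ¬ ∃ i, t i ≤ w with hSb
  have hsum : Sa.card + Sb.card = S.card := Finset.card_filter_add_card_filter_not (s := S) (fun t => ∃ i, t i ≤ w)
  have hA : (Sa.card : ℝ) ≤ (w + 1) * (N : ℝ) ^ (k - 1) * ∑ i : Fin k, (1 + N / ((x i : ℝ) + N) ^ c) := by
    have e1 : Sa ⊆ Finset.univ.biUnion fun i : Fin k =>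
        Fintype.piFinset fun j : Fin k => if j = i then Finset.range (w + 1) else Finset.Ioc (x j) (x j + N) := by
      intro t ht
      obtain ⟨htS, i, hi⟩ := Finset.mem_filter.1 ht
      rw [Finset.mem_biUnion]
      refine ⟨i, Finset.mem_univ _, ?_⟩
      rw [Fintype.mem_piFinset]
      intro j
      split_ifs with hj
      · subst hj
        exact Finset.mem_range.2 (by omega)
      · exact Finset.mem_Ioc.2 ((hS t htS).1 j)
    have e2 : Sa.card ≤ ∑ _i : Fin k, (w + 1) * N ^ (k - 1) := by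
      refine (Finset.card_le_card e1).trans (Finset.card_biUnion_le.trans (Finset.sum_le_sum fun i _ => ?_))
      rw [Fintype.card_piFinset, ← Finset.mul_prod_erase _ _ (Finset.mem_univ i), if_pos rfl, Finset.card_range]
      refine Nat.mul_le_mul_left _ ?_
      have e3 : ∀ j ∈ Finset.univ.erase i, (if j = i then Finset.range (w + 1) else Finset.Ioc (x j) (x j + N)).card = N := by
        intro j hj
        rw [if_neg (Finset.ne_of_mem_erase hj), Nat.card_Ioc, Nat.add_sub_cancel_left]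
      rw [Finset.prod_congr rfl e3, Finset.prod_const, Finset.card_erase_of_mem (Finset.mem_univ i), Finset.card_univ,
        Fintype.card_fin]
    have e4 : (Sa.card : ℝ) ≤ ∑ _i : Fin k, ((w : ℝ) + 1) * (N : ℝ) ^ (k - 1) := by exact_mod_cast e2
    refine e4.trans ?_
    rw [Finset.mul_sum]
    refine Finset.sum_le_sum fun i _ => ?_
    refine le_mul_of_one_le_right (by positivity) ?_
    have : 0 ≤ (N : ℝ) / ((x i : ℝ) + N) ^ c := by positivity
    linarith
  have hB : (Sb.card : ℝ) ≤ C * (N : ℝ) ^ (k - 1) * ∑ i : Fin k, (1 + N / ((x i : ℝ) + N) ^ c) := by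
    refine hcount V hV x N hN Sb fun t ht => ?_
    obtain ⟨htS, hbig⟩ := Finset.mem_filter.1 ht
    push Not at hbig
    obtain ⟨hbox, P, hPd, hPV, hP0, hPI⟩ := hS t htS
    refine ⟨hbox, ?_⟩
    have hane : ∀ i, sq (t i) (a i) ≠ 0 := by
      intro i h0
      have h1 := hn i (t i) (by
        have := hbig i
        have := (hw i).2
        exact_mod_cast (by omega : n i < t i))
      rw [aeval_sq, h0] at h1
      simp at h1
    have hval := val_expand (B := B) hM hane (C := fun i => |C₀ i|) (fun i => abs_nonneg _) (fun i j m => by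
      refine (hC₀ i j m).trans ?_
      rw [← abs_pow]
      exact le_abs_self _) (fun i => by
      refine lt_of_le_of_lt (hw i).1 ?_
      exact_mod_cast hbig i) P hPd
    refine ⟨vv a M t P, fun p => vv_mem a M t hPV p, fun hv => ?_, ?_⟩
    · exact hPI (univ_mem hM hane P hPd hv)
    · rw [← hval]
      exact hP0
  have h5 : (S.card : ℝ) = Sa.card + Sb.card := by exact_mod_cast hsum.symm
  rw [h5]
  have h6 := add_le_add hA hB
  refine h6.trans (le_of_eq ?_)
  ring

end Pool.Agent.Y120.GH
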