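import Pool.Agent.Y120.H.GS1

/-!
# Maximal linearly independent subfamilies of a G-system
-/

set_option autoImplicit false

open PowerSeries Pool.Agent.Y113 Pool.Agent.Y120.GF

namespace Pool.Agent.Y120.GH

/-- common denominators -/
lemma clear {I : Type} [Fintype I] (P : I → Polynomial ℚ) : ∃ (D : ℕ) (Q : I → Polynomial ℤ), D ≠ 0 ∧
    ∀ i, (Q i).map (Int.castRingHom ℚ) = Polynomial.C (D : ℚ) * P i := by
  classical
  set D : ℕ := ∏ i, ∏ m ∈ Finset.range ((P i).natDegree + 1), ((P i).coeff m).den with hD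
  have hD0 : D ≠ 0 := by
    rw [hD, Finset.prod_ne_zero_iff]
    intro i _
    rw [Finset.prod_ne_zero_iff]
    intro m _
    exact ((P i).coeff m).den_nz
  have hint : ∀ i m, ∃ z : ℤ, (z : ℚ) = (D : ℚ) * (P i).coeff m := by
    intro i m
    rcases Nat.lt_or_ge m ((P i).natDegree + 1) with hm | hm
    · have h1 : ((P i).coeff m).den ∣ D := by
        have e1 : ((P i).coeff m).den ∣ ∏ m ∈ Finset.range ((P i).natDegree + 1), ((P i).coeff m).den :=
          Finset.dvd_prod_of_mem (fun m => ((P i).coeff m).den) (Finset.mem_range.2 hm)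
        have e2 : (∏ m ∈ Finset.range ((P i).natDegree + 1), ((P i).coeff m).den) ∣ D :=
          Finset.dvd_prod_of_mem (fun i => ∏ m ∈ Finset.range ((P i).natDegree + 1), ((P i).coeff m).den) (Finset.mem_univ i)
        exact dvd_trans e1 e2
      obtain ⟨E, hE⟩ := h1
      refine ⟨E * ((P i).coeff m).num, ?_⟩
      have h2 : (((P i).coeff m).den : ℚ) * (P i).coeff m = ((P i).coeff m).num := by
        rw [mul_comm]
        exact Rat.mul_den_eq_num _
      rw [hE]
      push_cast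
      rw [← h2]
      ring
    · exact ⟨0, by rw [Polynomial.coeff_eq_zero_of_natDegree_lt (by omega)]; simp⟩
  choose z hz using hint
  refine ⟨D, fun i => ∑ m ∈ Finset.range ((P i).natDegree + 1), Polynomial.C (z i m) * Polynomial.X ^ m, hD0, fun i => ?_⟩
  ext m
  rw [Polynomial.coeff_map, Polynomial.coeff_C_mul, Polynomial.finsetSum_coeff]
  rcases Nat.lt_or_ge m ((P i).natDegree + 1) with hm | hm
  · rw [Finset.sum_eq_single m]
    · rw [Polynomial.coeff_C_mul, Polynomial.coeff_X_pow_self, mul_one, ← hz]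
      rfl
    · intro l _ hne
      rw [Polynomial.coeff_C_mul, Polynomial.coeff_X_pow, if_neg hne.symm, mul_zero]
    · intro h2
      exact absurd (Finset.mem_range.2 hm) h2
  · rw [Finset.sum_eq_zero]
    · rw [Polynomial.coeff_eq_zero_of_natDegree_lt (n := m) (p := P i) (by omega)]
      simp
    · intro l hl
      rw [Finset.mem_range] at hl
      rw [Polynomial.coeff_C_mul, Polynomial.coeff_X_pow, if_neg (by omega), mul_zero]

lemma ps_ne {a : Polynomial ℤ} (ha : a ≠ 0) : ps a ≠ 0 := by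
  intro h
  apply ha
  unfold ps at h
  have h1 : a.map (Int.castRingHom ℚ) = 0 := by
    have h2 : ((a.map (Int.castRingHom ℚ) : Polynomial ℚ) : ℚ⟦X⟧) = ((0 : Polynomial ℚ) : ℚ⟦X⟧) := by
      rw [h, Polynomial.coe_zero]
    exact Polynomial.coe_injective ℚ h2
  exact (Polynomial.map_eq_zero_iff (Int.castRingHom ℚ).injective_int).1 h1

/-- maximal linearly independent subfamilies -/
theorem max_li {σ : Type} [Fintype σ] (y : σ → ℚ⟦X⟧) (b₀ : σ) (h0 : y b₀ ≠ 0) :
    ∃ B : Finset σ, b₀ ∈ B ∧ LinearIndependent (Polynomial ℚ) (fun b : B => y b) ∧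
      ∃ (a : Polynomial ℤ) (M : σ → B → Polynomial ℤ), a ≠ 0 ∧ ∀ b, ps a * y b = ∑ β, ps (M b β) * y β := by
  classical
  let P : Finset σ → Prop := fun B => b₀ ∈ B ∧ ∀ g : σ → Polynomial ℚ, ∑ i ∈ B, (g i : ℚ⟦X⟧) * y i = 0 → ∀ i ∈ B, g i = 0
  have hP0 : P {b₀} := by
    refine ⟨Finset.mem_singleton_self _, fun g hg i hi => ?_⟩
    rw [Finset.sum_singleton] at hg
    rw [Finset.mem_singleton] at hi
    subst hi
    have h1 := (mul_eq_zero.1 hg).resolve_right h0
    exact Polynomial.coe_eq_zero_iff.1 h1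
  obtain ⟨B, hB, hmax⟩ := Finset.exists_max_image (Finset.univ.filter P) Finset.card
    ⟨{b₀}, Finset.mem_filter.2 ⟨Finset.mem_univ _, hP0⟩⟩
  rw [Finset.mem_filter] at hB
  obtain ⟨-, hb₀, hLI⟩ := hB
  -- expressing the others
  have hex : ∀ b, ∃ (a : Polynomial ℚ) (m : σ → Polynomial ℚ), a ≠ 0 ∧ (a : ℚ⟦X⟧) * y b = ∑ i ∈ B, (m i : ℚ⟦X⟧) * y i := by
    intro b
    by_cases hb : b ∈ B
    · refine ⟨1, fun i => if i = b then 1 else 0, one_ne_zero, ?_⟩
      rw [Finset.sum_eq_single b]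
      · beta_reduce
        rw [if_pos rfl]
      · intro i _ hne
        beta_reduce
        rw [if_neg hne]
        simp
      · intro h
        exact absurd hb h
    · have h1 : ¬ P (insert b B) := by
        intro h
        have h2 := hmax (insert b B) (Finset.mem_filter.2 ⟨Finset.mem_univ _, h⟩)
        rw [Finset.card_insert_of_notMem hb] at h2
        omega
      have h2 : ∃ g : σ → Polynomial ℚ, ∑ i ∈ insert b B, (g i : ℚ⟦X⟧) * y i = 0 ∧ ∃ i ∈ insert b B, g i ≠ 0 := by
        by_contra hno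
        push Not at hno
        exact h1 ⟨Finset.mem_insert_of_mem hb₀, hno⟩
      obtain ⟨g, hg, i, hi, hgi⟩ := h2
      rw [Finset.sum_insert hb] at hg
      refine ⟨g b, fun i => - g i, ?_, ?_⟩
      · intro hgb
        rw [hgb] at hg
        simp only [Polynomial.coe_zero, zero_mul, zero_add] at hg
        rcases Finset.mem_insert.1 hi with rfl | h3
        · exact hgi hgb
        · exact hgi (hLI g hg i h3)
      · have h3 : ∑ i ∈ B, ((- g i : Polynomial ℚ) : ℚ⟦X⟧) * y i = - ∑ i ∈ B, (g i : ℚ⟦X⟧) * y i := by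
          rw [← Finset.sum_neg_distrib]
          refine Finset.sum_congr rfl fun i _ => ?_
          rw [Polynomial.coe_neg]
          ring
        rw [h3]
        linear_combination hg
  choose a m ha hm using hex
  set A : Polynomial ℚ := ∏ b, a b with hA
  have hA0 : A ≠ 0 := Finset.prod_ne_zero_iff.2 fun b _ => ha b
  let M : σ → σ → Polynomial ℚ := fun b i => (∏ b' ∈ Finset.univ.erase b, a b') * m b i
  have hM : ∀ b, (A : ℚ⟦X⟧) * y b = ∑ i ∈ B, (M b i : ℚ⟦X⟧) * y i := by
    intro b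
    rw [hA, ← Finset.mul_prod_erase _ _ (Finset.mem_univ b), Polynomial.coe_mul]
    have h1 : (a b : ℚ⟦X⟧) * ((∏ b' ∈ Finset.univ.erase b, a b' : Polynomial ℚ) : ℚ⟦X⟧) * y b =
        ((∏ b' ∈ Finset.univ.erase b, a b' : Polynomial ℚ) : ℚ⟦X⟧) * ((a b : ℚ⟦X⟧) * y b) := by ring
    rw [h1, hm b, Finset.mul_sum]
    refine Finset.sum_congr rfl fun i _ => ?_
    show _ = (((∏ b' ∈ Finset.univ.erase b, a b') * m b i : Polynomial ℚ) : ℚ⟦X⟧) * y i
    rw [Polynomial.coe_mul]
    ring
  obtain ⟨D, Q, hD, hQ⟩ := clear (I := Option (σ × σ)) fun o => o.elim A fun p => M p.1 p.2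
  refine ⟨B, hb₀, ?_, Q none, fun b β => Q (some (b, β)), ?_, fun b => ?_⟩
  · rw [Fintype.linearIndependent_iff]
    intro g hg
    let g' : σ → Polynomial ℚ := fun i => if h : i ∈ B then g ⟨i, h⟩ else 0
    have h1 := hLI g' (by
      rw [← Finset.sum_coe_sort]
      refine Eq.trans ?_ hg
      refine Finset.sum_congr rfl fun i _ => ?_
      show ((if h : (i : σ) ∈ B then g ⟨i, h⟩ else 0 : Polynomial ℚ) : ℚ⟦X⟧) * y i = _
      rw [dif_pos i.2, psmul])
    intro i
    have h2 := h1 i i.2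
    have h3 : g' i = g i := by
      show (if h : (i : σ) ∈ B then g ⟨i, h⟩ else 0) = _
      rw [dif_pos i.2]
    rw [← h3, h2]
  · intro h
    have h1 := hQ none
    rw [h, Polynomial.map_zero] at h1
    have h2 := (mul_eq_zero.1 h1.symm).resolve_left (by
      refine Polynomial.C_ne_zero.2 ?_
      exact_mod_cast hD)
    exact hA0 h2
  · have h1 : ps (Q none) = (D : ℚ⟦X⟧) * (A : ℚ⟦X⟧) := by
      unfold ps
      rw [hQ none, Polynomial.coe_mul, Polynomial.coe_C]
      simp
    have h2 : ∀ i, ps (Q (some (b, i))) = (D : ℚ⟦X⟧) * (M b i : ℚ⟦X⟧) := by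
      intro i
      unfold ps
      rw [hQ (some (b, i)), Polynomial.coe_mul, Polynomial.coe_C]
      simp
    rw [h1, mul_assoc, hM b, Finset.sum_coe_sort B fun i => ps (Q (some (b, i))) * y i, Finset.mul_sum]
    refine Finset.sum_congr rfl fun i _ => ?_
    rw [h2 i]
    ring

/-- sizes of finitely many polynomials -/
lemma L1_exists {I : Type} [Fintype I] (P : I → Polynomial ℤ) : ∃ (n : ℕ) (μ : ℝ), 1 ≤ μ ∧ ∀ i, L1 n μ (P i) := by
  set n : ℕ := ∑ i, (P i).natDegree with hn
  let nm : Polynomial ℤ → ℝ := fun P => ∑ l ∈ Finset.range (n + 1), |((P.coeff l : ℤ) : ℝ)|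
  have hnm : ∀ P, 0 ≤ nm P := fun P => Finset.sum_nonneg fun _ _ => abs_nonneg _
  refine ⟨n, 1 + ∑ i, nm (P i), ?_, fun i => ⟨?_, ?_⟩⟩
  · have : 0 ≤ ∑ i, nm (P i) := Finset.sum_nonneg fun i _ => hnm _
    linarith
  · exact Finset.single_le_sum (f := fun i => (P i).natDegree) (fun _ _ => Nat.zero_le _) (Finset.mem_univ i)
  · have h1 : nm (P i) ≤ ∑ i, nm (P i) :=
      Finset.single_le_sum (f := fun i => nm (P i)) (fun _ _ => hnm _) (Finset.mem_univ i)
    show nm (P i) ≤ _
    linarith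

theorem gsys_sub {σ κ : Type} [Fintype σ] [Fintype κ] [DecidableEq κ] {q : ℕ} {C : ℝ} {T : Polynomial ℤ} {y : σ → ℚ⟦X⟧}
    (h : GSys q C T y) (w : κ → ℚ⟦X⟧) (e : κ → σ) (hw : ∀ β, w β = y (e β)) (a : Polynomial ℤ) (M : σ → κ → Polynomial ℤ)
    (hM : ∀ b, ps a * y b = ∑ β, ps (M b β) * w β) : ∃ (q' : ℕ) (C' : ℝ), GSys q' C' (a * T) w := by
  have hC := h.one_le
  have hC0 : 0 < C := by linarith
  obtain ⟨n, α, hα, ha⟩ := L1_exists fun _ : Unit => a
  have ha := ha ()
  obtain ⟨m, μ, hμ, hMm⟩ := L1_exists fun p : σ × κ => M p.1 p.2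
  have hMm : ∀ b β, L1 m μ (M b β) := fun b β => hMm (b, β)
  set N : ℝ := (Fintype.card σ : ℝ) + 1 with hN
  have hN1 : 1 ≤ N := by
    have : (0 : ℝ) ≤ (Fintype.card σ : ℝ) := by positivity
    linarith
  have hq1 : (1 : ℝ) ≤ (q : ℝ) + 1 := by
    have : (0 : ℝ) ≤ (q : ℝ) := by positivity
    linarith
  set C' : ℝ := α * (N * (((q : ℝ) + 1) * (C * μ))) with hC'
  have hC'1 : 1 ≤ C' := by
    have h1 : 1 ≤ C * μ := one_le_mul_of_one_le_of_one_le hC hμ
    have h2 := one_le_mul_of_one_le_of_one_le hq1 h1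
    have h3 := one_le_mul_of_one_le_of_one_le hN1 h2
    exact one_le_mul_of_one_le_of_one_le hα h3
  have hCC' : C ≤ C' := by
    have h1 : C ≤ C * μ := le_mul_of_one_le_right hC0.le hμ
    have h2 : C * μ ≤ ((q : ℝ) + 1) * (C * μ) := le_mul_of_one_le_left (by positivity) hq1
    have h3 : ((q : ℝ) + 1) * (C * μ) ≤ N * (((q : ℝ) + 1) * (C * μ)) := le_mul_of_one_le_left (by positivity) hN1
    have h4 : N * (((q : ℝ) + 1) * (C * μ)) ≤ α * (N * (((q : ℝ) + 1) * (C * μ))) :=
      le_mul_of_one_le_left (by positivity) hα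
    linarith
  have hT : L1 q (((q : ℝ) + 1) * C) T := L1.ofBd ⟨h.degT, h.sizeT⟩
  have haT := ha.mul hT
  refine ⟨n + q + m, C', hC'1, haT.1.trans (by omega), fun l => (haT.coeff_le l).trans ?_, fun i j => ?_, fun j => ?_,
    fun k => ?_⟩
  · rw [hC']
    refine mul_le_mul_of_nonneg_left ?_ (by linarith)
    have h1 : ((q : ℝ) + 1) * C ≤ ((q : ℝ) + 1) * (C * μ) :=
      mul_le_mul_of_nonneg_left (le_mul_of_one_le_right hC0.le hμ) (by linarith)
    have h3 : ((q : ℝ) + 1) * (C * μ) ≤ N * (((q : ℝ) + 1) * (C * μ)) := le_mul_of_one_le_left (by positivity) hN1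
    linarith
  · rw [hw]
    exact (h.size _ _).trans (pow_le_pow_left₀ hC0.le hCC' _)
  · obtain ⟨d, hd0, hd, hd'⟩ := h.den j
    refine ⟨d, hd0, hd.trans (pow_le_pow_left₀ hC0.le hCC' _), fun i l hl => ?_⟩
    rw [hw]
    exact hd' _ l hl
  · obtain ⟨d, hd0, hdC, hd'⟩ := h.der k
    have hdC' : (d : ℝ) ≤ C' ^ (k + 1) := hdC.trans (pow_le_pow_left₀ hC0.le hCC' _)
    refine ⟨d, hd0, hdC', fun s hs => ?_⟩
    obtain ⟨G, g1, g2, g3⟩ := hd' s hs
    rcases Nat.eq_zero_or_pos s with rfl | hs0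
    · refine ⟨fun i j => if i = j then Polynomial.C (d : ℤ) else 0, fun i j => ?_, fun i j l => ?_, fun i => ?_⟩
      · beta_reduce
        split_ifs <;> simp
      · beta_reduce
        split_ifs
        · rw [Polynomial.coeff_C]
          split_ifs
          · push_cast
            rw [abs_of_nonneg (by positivity)]
            exact hdC'
          · simp only [Int.cast_zero, abs_zero]
            positivity
        · simp only [Polynomial.coeff_zero, Int.cast_zero, abs_zero]
          positivity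
      · beta_reduce
        rw [pow_zero, one_mul, hd_zero, Finset.sum_eq_single i]
        · rw [if_pos rfl, ps_C]
          push_cast
          rfl
        · intro j _ hne
          rw [if_neg hne.symm, ps_zero, zero_mul]
        · intro h2
          exact absurd (Finset.mem_univ _) h2
    · obtain ⟨r, rfl⟩ := Nat.exists_eq_succ_of_ne_zero hs0.ne'
      simp only [Nat.succ_eq_add_one] at hs g1 g2 g3 ⊢
      have hb : ∀ i j, L1 ((n + q + m) * (r + 1)) (α ^ r * ∑ _b : σ, ((((q * (r + 1) : ℕ) : ℝ) + 1) * C ^ (k + 1)) * μ)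
          (a ^ r * ∑ b, G (e i) b * M b j) := by
        intro i j
        have h1 : L1 (q * (r + 1) + m) (∑ _b : σ, ((((q * (r + 1) : ℕ) : ℝ) + 1) * C ^ (k + 1)) * μ)
            (∑ b, G (e i) b * M b j) := L1.sum _ fun b _ => (L1.ofBd ⟨g1 _ _, g2 _ _⟩).mul (hMm b j)
        refine ((ha.pow r).mul h1).mono ?_ le_rfl
        have e1 : n * r ≤ n * (r + 1) := Nat.mul_le_mul_left _ (Nat.le_succ r)
        have e2 : m ≤ m * (r + 1) := Nat.le_mul_of_pos_right m (Nat.succ_pos r)
        calc n * r + (q * (r + 1) + m) ≤ n * (r + 1) + (q * (r + 1) + m * (r + 1)) := by omega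
          _ = _ := by ring
      have hfin : α ^ r * ∑ _b : σ, ((((q * (r + 1) : ℕ) : ℝ) + 1) * C ^ (k + 1)) * μ ≤ C' ^ (k + 1) := by
        rw [Finset.sum_const, Finset.card_univ, nsmul_eq_mul]
        have b1 : α ^ r ≤ α ^ (k + 1) := pow_le_pow_right₀ hα (by omega)
        have b2 : (Fintype.card σ : ℝ) ≤ N ^ (k + 1) := by
          have : (Fintype.card σ : ℝ) ≤ N := by rw [hN]; linarith
          exact this.trans (le_self_pow₀ hN1 (Nat.succ_ne_zero k))
        have b3 : ((q * (r + 1) : ℕ) : ℝ) + 1 ≤ ((q : ℝ) + 1) ^ (k + 1) := by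
          have c1 : (1 : ℝ) + ((r + 1 : ℕ) : ℝ) * q ≤ (1 + q) ^ (r + 1) :=
            one_add_mul_le_pow (by linarith [show (0 : ℝ) ≤ q by positivity]) _
          have c2 : ((1 : ℝ) + q) ^ (r + 1) ≤ (1 + q) ^ (k + 1) :=
            pow_le_pow_right₀ (by linarith [show (0 : ℝ) ≤ q by positivity]) (by omega)
          push_cast at c1 ⊢
          have c3 : (q : ℝ) + 1 = 1 + q := by ring
          rw [c3]
          linarith
        have b4 : μ ≤ μ ^ (k + 1) := le_self_pow₀ hμ (Nat.succ_ne_zero k)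
        calc α ^ r * ((Fintype.card σ : ℝ) * ((((q * (r + 1) : ℕ) : ℝ) + 1) * C ^ (k + 1) * μ)) ≤
              α ^ (k + 1) * (N ^ (k + 1) * (((q : ℝ) + 1) ^ (k + 1) * C ^ (k + 1) * μ ^ (k + 1))) := by
              gcongr
          _ = C' ^ (k + 1) := by
              rw [hC', mul_pow, mul_pow, mul_pow, mul_pow]
              ring
      refine ⟨fun i j => a ^ r * ∑ b, G (e i) b * M b j, fun i j => (hb i j).1, fun i j l => ((hb i j).coeff_le l).trans hfin,
        fun i => ?_⟩
      rw [hw i]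
      have h1 := g3 (e i)
      calc (d : ℚ⟦X⟧) * (ps (a * T) ^ (r + 1) * hd (r + 1) (y (e i))) =
            ps a ^ (r + 1) * ((d : ℚ⟦X⟧) * (ps T ^ (r + 1) * hd (r + 1) (y (e i)))) := by
            rw [ps_mul, mul_pow]
            ring
        _ = ps a ^ r * ∑ b, ps (G (e i) b) * (ps a * y b) := by
            rw [h1, pow_succ, mul_assoc, Finset.mul_sum]
            congr 1
            refine Finset.sum_congr rfl fun b _ => ?_
            ring
        _ = ∑ j, ps (a ^ r * ∑ b, G (e i) b * M b j) * w j := by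
            simp only [hM, Finset.mul_sum]
            rw [Finset.sum_comm]
            refine Finset.sum_congr rfl fun j _ => ?_
            rw [ps_sum, Finset.sum_mul]
            refine Finset.sum_congr rfl fun b _ => ?_
            rw [ps_mul, ps_mul, ps_pow]
            ring

end Pool.Agent.Y120.GH
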