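import Pool.Agent.Y120.H.Alg

/-!
# The differential field of germs of meromorphic functions at a point
-/

set_option autoImplicit false

open Filter Topology

namespace Pool.Agent.Y120.GH

/-- the Taylor series -/
noncomputable def tay (p : ℂ) (f : ℂ → ℂ) : PowerSeries ℂ :=
  PowerSeries.mk fun n => iteratedDeriv n f p / (n.factorial : ℂ)

variable {p : ℂ} {f g : ℂ → ℂ}

lemma coeff_tay (n : ℕ) : PowerSeries.coeff n (tay p f) = iteratedDeriv n f p / (n.factorial : ℂ) := by
  simp [tay]

lemma tay_mul (hf : AnalyticAt ℂ f p) (hg : AnalyticAt ℂ g p) : tay p (f * g) = tay p f * tay p g := by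
  ext m
  rw [coeff_tay, iteratedDeriv_mul hf.contDiffAt hg.contDiffAt, PowerSeries.coeff_mul,
    Finset.Nat.sum_antidiagonal_eq_sum_range_succ_mk, Finset.sum_div]
  refine Finset.sum_congr rfl fun i hi => ?_
  rw [coeff_tay, coeff_tay, Nat.cast_choose ℂ (Nat.lt_succ_iff.1 (Finset.mem_range.1 hi))]
  have h1 : (i.factorial : ℂ) ≠ 0 := by exact_mod_cast Nat.factorial_ne_zero i
  have h2 : (m.factorial : ℂ) ≠ 0 := by exact_mod_cast Nat.factorial_ne_zero m
  have h3 : ((m - i).factorial : ℂ) ≠ 0 := by exact_mod_cast Nat.factorial_ne_zero (m - i)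
  field_simp

lemma tay_add (hf : AnalyticAt ℂ f p) (hg : AnalyticAt ℂ g p) : tay p (f + g) = tay p f + tay p g := by
  ext m
  rw [map_add, coeff_tay, coeff_tay, coeff_tay, iteratedDeriv_add hf.contDiffAt hg.contDiffAt, add_div]

lemma tay_zero : tay p 0 = 0 := by
  ext m
  rw [coeff_tay]
  have : iteratedDeriv m (0 : ℂ → ℂ) p = 0 := by
    have h := iteratedDeriv_const (𝕜 := ℂ) (F := ℂ) (n := m) (c := (0 : ℂ)) (x := p)
    rw [ite_self] at h
    exact h
  rw [this]
  simp

lemma tay_const (c : ℂ) : tay p (fun _ => c) = PowerSeries.C c := by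
  ext m
  rw [coeff_tay, iteratedDeriv_const, PowerSeries.coeff_C]
  split_ifs with h
  · rw [h]
    simp
  · simp

lemma tay_deriv (f : ℂ → ℂ) : tay p (deriv f) = PowerSeries.derivative ℂ (tay p f) := by
  ext m
  rw [PowerSeries.coeff_derivative, coeff_tay, coeff_tay, ← iteratedDeriv_succ', Nat.factorial_succ]
  have h1 : (m.factorial : ℂ) ≠ 0 := by exact_mod_cast Nat.factorial_ne_zero m
  have h2 : ((m : ℂ) + 1) ≠ 0 := by exact_mod_cast Nat.succ_ne_zero m
  push_cast
  field_simp

lemma tay_eq_zero (hf : AnalyticAt ℂ f p) (h : tay p f = 0) : f =ᶠ[𝓝 p] 0 := by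
  rcases h1 : analyticOrderAt f p with _ | n
  · exact analyticOrderAt_eq_top.1 h1
  · exfalso
    have h2 := (analyticOrderAt_eq_nat_iff_iteratedDeriv_eq_zero hf).1 h1
    have h3 := congrArg (PowerSeries.coeff n) h
    rw [coeff_tay, map_zero, div_eq_zero_iff] at h3
    rcases h3 with h3 | h3
    · exact h2.2 h3
    · exact absurd h3 (by exact_mod_cast Nat.factorial_ne_zero n)

lemma tay_congr (h : f =ᶠ[𝓝 p] g) : tay p f = tay p g := by
  ext m
  rw [coeff_tay, coeff_tay, h.iteratedDeriv_eq]

/-- the functions which are analytic on a set -/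
def An (U : Set ℂ) : Subring (ℂ → ℂ) where
  carrier := {f | AnalyticOnNhd ℂ f U}
  mul_mem' := fun hf hg => hf.mul hg
  one_mem' := analyticOnNhd_const
  add_mem' := fun hf hg => hf.add hg
  zero_mem' := analyticOnNhd_const
  neg_mem' := fun hf => hf.neg

lemma mem_An {U : Set ℂ} : f ∈ An U ↔ AnalyticOnNhd ℂ f U := Iff.rfl

/-- derivations extend to the field of fractions -/
theorem exists_der_frac {k B : Type} [Field k] [CommRing B] [IsDomain B] [Algebra k B]
    (E : Derivation k B B) : ∃ E' : Derivation k (FractionRing B) (FractionRing B),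
      ∀ b, E' (algebraMap B (FractionRing B) b) = algebraMap B (FractionRing B) (E b) := by
  let L := FractionRing B
  have hfe : Algebra.FormallyEtale B L :=
    Algebra.FormallyEtale.of_isLocalization (nonZeroDivisors B)
  let l0 : Ω[B⁄k] →ₗ[B] L := (Algebra.linearMap B L) ∘ₗ E.liftKaehlerDifferential
  let l : TensorProduct B L Ω[B⁄k] →ₗ[L] L := LinearMap.liftBaseChange L l0
  let e := KaehlerDifferential.tensorKaehlerEquivOfFormallyEtale k B L
  refine ⟨(l ∘ₗ e.symm.toLinearMap).compDer (KaehlerDifferential.D k L), fun c => ?_⟩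
  change l (e.symm (KaehlerDifferential.D k L (algebraMap B L c))) = _
  rw [KaehlerDifferential.tensorKaehlerEquivOfFormallyEtale_symm_D_algebraMap,
    LinearMap.liftBaseChange_tmul, one_smul]
  change algebraMap B L (E.liftKaehlerDifferential (KaehlerDifferential.D k B c)) = _
  rw [Derivation.liftKaehlerDifferential_comp_D]

/-- the field of fractions of the power series -/
abbrev FF : Type := FractionRing (PowerSeries ℂ)

/-- the derivation -/
noncomputable def DD : Derivation ℂ FF FF := (exists_der_frac (PowerSeries.derivative ℂ)).choose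

lemma DD_emb (b : PowerSeries ℂ) : DD (algebraMap (PowerSeries ℂ) FF b) =
    algebraMap (PowerSeries ℂ) FF (PowerSeries.derivative ℂ b) :=
  (exists_der_frac (PowerSeries.derivative ℂ)).choose_spec b

/-- the germ at `p` -/
noncomputable def em (p : ℂ) : An {p} →+* FF where
  toFun f := algebraMap (PowerSeries ℂ) FF (tay p f.1)
  map_one' := by
    show algebraMap (PowerSeries ℂ) FF (tay p fun _ => 1) = 1
    rw [tay_const, map_one, map_one]
  map_mul' := fun f g => by
    show algebraMap (PowerSeries ℂ) FF (tay p (f.1 * g.1)) = _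
    rw [tay_mul (f.2 p rfl) (g.2 p rfl), map_mul]
  map_zero' := by
    show algebraMap (PowerSeries ℂ) FF (tay p 0) = 0
    rw [tay_zero, map_zero]
  map_add' := fun f g => by
    show algebraMap (PowerSeries ℂ) FF (tay p (f.1 + g.1)) = _
    rw [tay_add (f.2 p rfl) (g.2 p rfl), map_add]

lemma em_apply (f : An {p}) : em p f = algebraMap (PowerSeries ℂ) FF (tay p f.1) := rfl

lemma em_zero_iff (f : An {p}) : em p f = 0 ↔ f.1 =ᶠ[𝓝 p] 0 := by
  rw [em_apply, map_eq_zero_iff _ (IsFractionRing.injective (PowerSeries ℂ) FF)]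
  constructor
  · intro h
    exact tay_eq_zero (f.2 p rfl) h
  · intro h
    rw [tay_congr h, tay_zero]

lemma deriv_mem (f : An {p}) : deriv f.1 ∈ An {p} := by
  intro z hz
  rw [Set.mem_singleton_iff] at hz
  rw [hz]
  exact (f.2 p rfl).deriv

lemma DD_em (f : An {p}) : DD (em p f) = em p ⟨deriv f.1, deriv_mem f⟩ := by
  rw [em_apply, DD_emb, em_apply, tay_deriv]

lemma em_congr {f g : An {p}} (h : f.1 =ᶠ[𝓝 p] g.1) : em p f = em p g := by
  rw [em_apply, em_apply, tay_congr h]

lemma em_const (c : ℂ) : em p ⟨fun _ => c, analyticOnNhd_const⟩ = algebraMap ℂ FF c := by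
  rw [em_apply, tay_const, IsScalarTower.algebraMap_apply ℂ (PowerSeries ℂ) FF]
  rfl

/-- the constants -/
lemma DD_const {x : FF} (h : DD x = 0) : ∃ c : ℂ, x = algebraMap ℂ FF c := by
  have key : ∀ b : PowerSeries ℂ, DD (algebraMap (PowerSeries ℂ) FF b) = 0 →
      ∃ c : ℂ, algebraMap (PowerSeries ℂ) FF b = algebraMap ℂ FF c := by
    intro b hb
    rw [DD_emb, map_eq_zero_iff _ (IsFractionRing.injective (PowerSeries ℂ) FF)] at hb
    refine ⟨PowerSeries.coeff 0 b, ?_⟩
    rw [IsScalarTower.algebraMap_apply ℂ (PowerSeries ℂ) FF]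
    congr 1
    ext m
    have h0 : algebraMap ℂ (PowerSeries ℂ) (PowerSeries.coeff 0 b) = PowerSeries.C (PowerSeries.coeff 0 b) := rfl
    rw [h0, PowerSeries.coeff_C]
    split_ifs with hm
    · rw [hm]
    · obtain ⟨n, rfl⟩ := Nat.exists_eq_succ_of_ne_zero hm
      have h1 := congrArg (PowerSeries.coeff n) hb
      rw [PowerSeries.coeff_derivative, map_zero, mul_eq_zero] at h1
      rcases h1 with h1 | h1
      · exact h1
      · exact absurd h1 (by exact_mod_cast Nat.succ_ne_zero n)
  rcases ValuationRing.isInteger_or_isInteger (PowerSeries ℂ) x with ⟨b, hb⟩ | ⟨b, hb⟩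
  · rw [← hb] at h ⊢
    exact key b h
  · have h1 : DD x⁻¹ = 0 := by
      rw [Derivation.leibniz_inv, h, smul_zero]
    rw [← hb] at h1
    obtain ⟨c, hc⟩ := key b h1
    refine ⟨c⁻¹, ?_⟩
    rw [map_inv₀, ← hc, hb, inv_inv]

end Pool.Agent.Y120.GH
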