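import Pool.Agent.Y120.H.Fml
import Pool.Agent.Y120.H.CntK

/-!
# Tuples: relations are specialisations of functional relations
-/

set_option autoImplicit false

open PowerSeries Pool.Agent.Y113 Pool.Agent.Y120.GF

namespace Pool.Agent.Y120.GH

/-- words of monomials -/
lemma word (r : ℕ) (δ : ℕ) : ∀ (m : Fin r → ℕ), ∑ i, m i ≤ δ → ∃ b : Fin δ → Option (Fin r),
    ∀ (K : Type) [CommMonoid K] (z : Fin r → K), yw z b = ∏ i, z i ^ m i := by
  classical
  induction δ with
  | zero =>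
    intro m hm
    refine ⟨fun j => none, fun K _ z => ?_⟩
    have h1 : ∀ i, m i = 0 := fun i => by
      have := Finset.single_le_sum (f := m) (fun _ _ => Nat.zero_le _) (Finset.mem_univ i)
      omega
    have h2 : yw z (fun _ : Fin 0 => none) = 1 := Finset.prod_eq_one fun j _ => rfl
    rw [h2]
    exact (Finset.prod_eq_one fun i _ => by rw [h1, pow_zero]).symm
  | succ δ ih =>
    intro m hm
    by_cases h0 : ∀ i, m i = 0
    · refine ⟨fun j => none, fun K _ z => ?_⟩
      have h2 : yw z (fun _ : Fin (δ + 1) => none) = 1 := Finset.prod_eq_one fun j _ => rfl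
      rw [h2]
      exact (Finset.prod_eq_one fun i _ => by rw [h0, pow_zero]).symm
    · push Not at h0
      obtain ⟨i, hi⟩ := h0
      obtain ⟨b, hb⟩ := ih (Function.update m i (m i - 1)) (by
        rw [Finset.sum_update_of_mem (Finset.mem_univ i)]
        rw [← Finset.add_sum_erase _ _ (Finset.mem_univ i), ← Finset.sdiff_singleton_eq_erase] at hm
        omega)
      refine ⟨Fin.cons (some i) b, fun K _ z => ?_⟩
      have h1 := hb K z
      unfold yw at h1 ⊢
      rw [Fin.prod_univ_succ]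
      simp only [Fin.cons_zero, Fin.cons_succ, Option.elim_some]
      rw [h1, ← Finset.mul_prod_erase _ _ (Finset.mem_univ i), ← Finset.mul_prod_erase _ (fun i => z i ^ m i) (Finset.mem_univ i),
        Function.update_self, ← mul_assoc, ← pow_succ']
      congr 1
      · congr 1
        omega
      · refine Finset.prod_congr rfl fun i' hi' => ?_
        rw [Function.update_of_ne (Finset.ne_of_mem_erase hi')]

/-- the word of a monomial -/
noncomputable def wd (r δ : ℕ) (m : Fin r → ℕ) : Fin δ → Option (Fin r) :=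
  if h : ∑ i, m i ≤ δ then (word r δ m h).choose else fun _ => none

lemma wd_spec {r δ : ℕ} {m : Fin r → ℕ} (h : ∑ i, m i ≤ δ) {K : Type} [CommMonoid K] (z : Fin r → K) :
    yw z (wd r δ m) = ∏ i, z i ^ m i := by
  rw [wd, dif_pos h]
  exact (word r δ m h).choose_spec K z

/-- specialisation of integer polynomials at `1/t` -/
noncomputable def sq (t : ℕ) (P : Polynomial ℤ) : ℚ := Polynomial.aeval (1 / (t : ℚ)) P

section
variable {k δ : ℕ} {r : Fin k → ℕ} {B : ∀ i, Finset (Fin δ → Option (Fin (r i)))} (a : Fin k → Polynomial ℤ)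
  (M : ∀ i, (Fin δ → Option (Fin (r i))) → B i → Polynomial ℤ) (t : Fin k → ℕ)

/-- the exponents -/
abbrev Ex (r : Fin k → ℕ) : Type := (Σ i, Option (Fin (r i))) →₀ ℕ

/-- the reduced coefficients of a monomial -/
noncomputable def cs (s : Ex r) (i : Fin k) (p : B i × Fin (δ + 1)) : ℚ :=
  if (p.2 : ℕ) = s ⟨i, none⟩ then sq (t i) (M i (wd (r i) δ fun j => s ⟨i, some j⟩) p.1) / sq (t i) (a i) else 0

/-- the reduced coefficients of a polynomial -/
noncomputable def vv (P : MvPolynomial (Σ i, Option (Fin (r i))) ℂ) (p : ∀ i, B i × Fin (δ + 1)) : ℂ :=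
  ∑ s ∈ P.support, P.coeff s * ∏ i, ((cs a M t s i (p i) : ℚ) : ℂ)

/-- the point given by the values of the functions and the logarithms -/
def pt {K : Type} (z : ∀ i, Fin (r i) → K) (l : Fin k → K) (v : Σ i, Option (Fin (r i))) : K := v.2.elim (l v.1) (z v.1)

lemma vv_mem {V : Submodule ℚ ℂ} {P : MvPolynomial (Σ i, Option (Fin (r i))) ℂ} (hP : ∀ s, P.coeff s ∈ V)
    (p : ∀ i, B i × Fin (δ + 1)) : vv a M t P p ∈ V := by
  refine Submodule.sum_mem _ fun s _ => ?_
  have h1 : P.coeff s * ∏ i, ((cs a M t s i (p i) : ℚ) : ℂ) = (∏ i, cs a M t s i (p i)) • P.coeff s := by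
    rw [Rat.smul_def, mul_comm]
    push_cast
    rfl
  rw [h1]
  exact V.smul_mem _ (hP s)

/-- reduction of the values of a polynomial -/
theorem eval_expand {K : Type} [CommRing K] [Algebra ℂ K] (z : ∀ i, Fin (r i) → K) (l : Fin k → K)
    (hz : ∀ i b, algebraMap ℂ K ((sq (t i) (a i) : ℚ) : ℂ) * yw (z i) b =
      ∑ β, algebraMap ℂ K ((sq (t i) (M i b β) : ℚ) : ℂ) * yw (z i) β.1)
    (ha : ∀ i, sq (t i) (a i) ≠ 0) (P : MvPolynomial (Σ i, Option (Fin (r i))) ℂ) (hP : P.totalDegree ≤ δ) :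
    MvPolynomial.aeval (pt z l) P = ∑ p : (∀ i, B i × Fin (δ + 1)), algebraMap ℂ K (vv a M t P p) *
      ∏ i, (yw (z i) (p i).1.1 * l i ^ ((p i).2 : ℕ)) := by
  classical
  have hfac : ∀ s ∈ P.support, ∀ i, (∏ o : Option (Fin (r i)), pt z l ⟨i, o⟩ ^ s ⟨i, o⟩) =
      ∑ p : B i × Fin (δ + 1), algebraMap ℂ K ((cs a M t s i p : ℚ) : ℂ) * (yw (z i) p.1.1 * l i ^ (p.2 : ℕ)) := by
    intro s hs i
    have hdeg : (s.sum fun _ e => e) ≤ δ := (MvPolynomial.le_totalDegree hs).trans hP
    have hsum : ∑ v, s v ≤ δ := by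
      rw [Finsupp.sum_fintype _ _ (fun _ => rfl)] at hdeg
      exact hdeg
    rw [Fintype.sum_sigma] at hsum
    have hi : ∑ o : Option (Fin (r i)), s ⟨i, o⟩ ≤ δ :=
      (Finset.single_le_sum (f := fun i => ∑ o : Option (Fin (r i)), s ⟨i, o⟩) (fun _ _ => Nat.zero_le _)
        (Finset.mem_univ i)).trans hsum
    rw [Fintype.sum_option] at hi
    have h1 : ∑ j, s ⟨i, some j⟩ ≤ δ := by omega
    have h2 : s ⟨i, none⟩ < δ + 1 := by omega
    rw [Fintype.prod_option]
    show l i ^ s ⟨i, none⟩ * ∏ j, z i j ^ s ⟨i, some j⟩ = _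
    rw [← wd_spec h1 (z i)]
    set b := wd (r i) δ fun j => s ⟨i, some j⟩ with hb
    have hane : ((sq (t i) (a i) : ℚ) : ℂ) ≠ 0 := by exact_mod_cast ha i
    have h3 : yw (z i) b = ∑ β, algebraMap ℂ K (((sq (t i) (M i b β) / sq (t i) (a i) : ℚ)) : ℂ) * yw (z i) β.1 := by
      have h4 := congrArg (fun x => algebraMap ℂ K ((sq (t i) (a i) : ℚ) : ℂ)⁻¹ * x) (hz i b)
      beta_reduce at h4
      rw [← mul_assoc, ← map_mul, inv_mul_cancel₀ hane, map_one, one_mul] at h4
      rw [h4, Finset.mul_sum]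
      refine Finset.sum_congr rfl fun β _ => ?_
      rw [← mul_assoc, ← map_mul]
      congr 2
      push_cast
      field_simp
    rw [h3, Finset.mul_sum, Fintype.sum_prod_type]
    refine Finset.sum_congr rfl fun β _ => ?_
    rw [Finset.sum_eq_single (⟨s ⟨i, none⟩, h2⟩ : Fin (δ + 1))]
    · rw [cs, if_pos rfl]
      show l i ^ s ⟨i, none⟩ * (_ * _) = _ * (_ * l i ^ s ⟨i, none⟩)
      rw [← hb]
      ring
    · intro e _ hne
      rw [cs, if_neg]
      · rw [Rat.cast_zero, map_zero, zero_mul]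
      · intro h5
        exact hne (Fin.ext h5)
    · intro h5
      exact absurd (Finset.mem_univ _) h5
  rw [MvPolynomial.aeval_def, MvPolynomial.eval₂_eq']
  have h1 : ∀ s ∈ P.support, algebraMap ℂ K (P.coeff s) * ∏ v, pt z l v ^ s v =
      ∑ p : (∀ i, B i × Fin (δ + 1)), algebraMap ℂ K (P.coeff s * ∏ i, ((cs a M t s i (p i) : ℚ) : ℂ)) *
        ∏ i, (yw (z i) (p i).1.1 * l i ^ ((p i).2 : ℕ)) := by
    intro s hs
    rw [Fintype.prod_sigma, Finset.prod_congr rfl fun i _ => hfac s hs i, Finset.prod_univ_sum, Fintype.piFinset_univ,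
      Finset.mul_sum]
    refine Finset.sum_congr rfl fun p _ => ?_
    rw [Finset.prod_mul_distrib, map_mul, map_prod]
    ring
  rw [Finset.sum_congr rfl h1, Finset.sum_comm]
  refine Finset.sum_congr rfl fun p _ => ?_
  rw [vv, map_sum, Finset.sum_mul]

end

end Pool.Agent.Y120.GH
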